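import Pool.Agent.SMQ.Defs
import Pool.Agent.SMI.Defs
import Pool.Agent.PPR.Defs
import Pool.Agent.PPW.Defs

/-!
# PPC: the class section of PP3 (MP_0f260b_nt)

`Ux`: additional relations of a triple (unreduced, beside `SMI.Uq`); `Dt`: the reduced data of a triple:
`p, y, g` are divided by the content `G`, `D0 = |D_K|`, and `D = G² D0` in `Tri`.
-/

set_option autoImplicit false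

namespace Pool.Agent.PPC

open Pool.Agent.SMQ

/-- additional facts (not divided by the content), index `1` -/
structure Ux1 (D N1 N2 N3 : ℕ) (p xp y1 y2 y3 g1 g2 g3 r1 : ℤ) : Prop where
  rel5 : 2 * ((N2 : ℤ) * N3 * y1) = xp * g1 + p * r1
  nd : ∀ l : ℕ, l.Prime → l ∣ N1 → (l : ℤ) ∣ y1 → l ∣ D
  ta : ∀ l s : ℕ, l.Prime → (l : ℤ) ^ (s + 1) ∣ p → (l : ℤ) ^ (s + 1) ∣ y1 →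
    (l : ℤ) ^ s ∣ y2 → (l : ℤ) ^ s ∣ y3 → ¬ (l : ℤ) ^ (s + 1) ∣ y2 → ¬ (l : ℤ) ^ (s + 1) ∣ y3 →
    ¬ ((l : ℤ) ^ (s + 1) ∣ g2 ∧ (l : ℤ) ^ (s + 1) ∣ g3)

/-- the quadratic form of the fourth class: `q(vᵢ, uᵢ) = Nⱼ Nₖ`, `2 B((vⱼ, uⱼ), (vₖ, uₖ)) = rᵢ` -/
structure Qf (N : ℕ × ℕ × ℕ) (r u v : V3) (a b c : ℤ) : Prop where
  q1 : a * v.1 ^ 2 + b * v.1 * u.1 + c * u.1 ^ 2 = (N.2.1 : ℤ) * N.2.2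
  q2 : a * v.2.1 ^ 2 + b * v.2.1 * u.2.1 + c * u.2.1 ^ 2 = (N.2.2 : ℤ) * N.1
  q3 : a * v.2.2 ^ 2 + b * v.2.2 * u.2.2 + c * u.2.2 ^ 2 = (N.1 : ℤ) * N.2.1
  b1 : 2 * a * v.2.1 * v.2.2 + b * (v.2.1 * u.2.2 + u.2.1 * v.2.2) + 2 * c * u.2.1 * u.2.2 = r.1
  b2 : 2 * a * v.2.2 * v.1 + b * (v.2.2 * u.1 + u.2.2 * v.1) + 2 * c * u.2.2 * u.1 = r.2.1
  b3 : 2 * a * v.1 * v.2.1 + b * (v.1 * u.2.1 + u.1 * v.2.1) + 2 * c * u.1 * u.2.1 = r.2.2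

/-- additional facts (not divided by the content) -/
structure Ux (D : ℕ) (p xp : ℤ) (x y g r : V3) (N : ℕ × ℕ × ℕ) (u v : V3) : Prop where
  i1 : x.1 * x.2.1 * y.2.2 + x.2.1 * x.2.2 * y.1 + x.2.2 * x.1 * y.2.1 =
    3 * (xp ^ 2 * p) + (D : ℤ) * (y.1 * y.2.1 * y.2.2 - p ^ 3)
  dq : ∀ l : ℕ, l.Prime → l ≠ 2 → ¬ l ^ 2 ∣ D
  qf : ∃ a b c : ℤ, Qf N r u v a b c
  e1 : Ux1 D N.1 N.2.1 N.2.2 p xp y.1 y.2.1 y.2.2 g.1 g.2.1 g.2.2 r.1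
  e2 : Ux1 D N.2.1 N.2.2 N.1 p xp y.2.1 y.2.2 y.1 g.2.1 g.2.2 g.1 r.2.1
  e3 : Ux1 D N.2.2 N.1 N.2.1 p xp y.2.2 y.1 y.2.1 g.2.2 g.1 g.2.1 r.2.2

/-- the reduced facts, index `1` -/
structure Dt1 (D0 G N1 N2 N3 : ℕ) (p xp x1 x2 x3 y1 y2 y3 g1 g2 g3 r1 r2 r3 : ℤ) : Prop where
  ny : 4 * (N1 : ℤ) ^ 3 = x1 ^ 2 + (D0 : ℤ) * (G * y1) ^ 2
  ng : 4 * ((N1 : ℤ) ^ 2 * N2 * N3) = r1 ^ 2 + (D0 : ℤ) * (G * g1) ^ 2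
  rel2 : 2 * ((N1 : ℤ) * g1) = y1 * xp - x1 * p
  rel3 : -2 * ((N2 : ℤ) * N3 * g1) = r2 * g3 + r3 * g2
  rel5 : 2 * ((N2 : ℤ) * N3 * y1) = xp * g1 + p * r1
  kk : 2 * (y1 * g2 ^ 3 - y2 * g1 ^ 3) = (y1 * y2 * y3 - p ^ 3) * (y1 * x2 - y2 * x1)
  xx : x1 * (y1 * y2 * y3 - p ^ 3) ^ 2 = 3 * p ^ 2 * y1 * (g1 * g2 * g3) -
    y1 ^ 2 * (y2 * g3 ^ 3 + y3 * g2 ^ 3) + (y1 * y2 * y3 - 2 * p ^ 3) * g1 ^ 3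
  nn : ∀ l : ℕ, l.Prime → (l ∣ D0 ∨ l ∣ G ∨ (l : ℤ) ∣ y1) → ¬ l ^ 2 ∣ N1
  nd : ∀ l : ℕ, l.Prime → l ∣ N1 → (l ∣ G ∨ (l : ℤ) ∣ y1) → l ∣ D0
  /-- a prime dividing `p, y₁`, not `y₂, y₃` -/
  ta : ∀ l : ℕ, l.Prime → (l : ℤ) ∣ p → (l : ℤ) ∣ y1 → ¬ (l : ℤ) ∣ y2 → ¬ (l : ℤ) ∣ y3 →
    ¬ ((l : ℤ) ∣ g2 ∧ (l : ℤ) ∣ g3)
  /-- a prime dividing `p, y₁, y₂` -/
  tb : ∀ l : ℕ, l.Prime → (l : ℤ) ∣ p → (l : ℤ) ∣ y1 → (l : ℤ) ∣ y2 →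
    ¬ l ∣ G ∧ ¬ (l : ℤ) ^ 2 ∣ y1 ∧ ¬ (l : ℤ) ^ 2 ∣ y2 ∧ ¬ (l : ℤ) ∣ y3 ∧
    (l : ℤ) ∣ g1 ∧ (l : ℤ) ∣ g2 ∧ (l : ℤ) ∣ g3

/-- the reduced data of a triple -/
structure Dt (D0 G : ℕ) (p xp : ℤ) (x y g r : V3) (N : ℕ × ℕ × ℕ) (N4 : ℕ) (u v : V3) :
    Prop where
  tri : Tri (G ^ 2 * D0) G p y g N N4 u v
  np : 4 * ((N.1 : ℤ) * N.2.1 * N.2.2) = xp ^ 2 + (D0 : ℤ) * (G * p) ^ 2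
  i1 : x.1 * x.2.1 * y.2.2 + x.2.1 * x.2.2 * y.1 + x.2.2 * x.1 * y.2.1 =
    3 * (xp ^ 2 * p) + (D0 : ℤ) * G ^ 2 * De p y
  dq : ∀ l : ℕ, l.Prime → l ≠ 2 → ¬ l ^ 2 ∣ D0
  qf : ∃ a b c : ℤ, Qf N r u v a b c
  e1 : Dt1 D0 G N.1 N.2.1 N.2.2 p xp x.1 x.2.1 x.2.2 y.1 y.2.1 y.2.2 g.1 g.2.1 g.2.2
    r.1 r.2.1 r.2.2
  e2 : Dt1 D0 G N.2.1 N.2.2 N.1 p xp x.2.1 x.2.2 x.1 y.2.1 y.2.2 y.1 g.2.1 g.2.2 g.1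
    r.2.1 r.2.2 r.1
  e3 : Dt1 D0 G N.2.2 N.1 N.2.1 p xp x.2.2 x.1 x.2.1 y.2.2 y.1 y.2.1 g.2.2 g.1 g.2.1
    r.2.2 r.1 r.2.1

/-- `(p, y, g)` is attached to a triple with `|D_K| = D0` and norms `N` and with `N₄ ≥ Q` -/
def Pt (Q : ℝ) (D0 G : ℕ) (p : ℤ) (y g : V3) (N : ℕ × ℕ × ℕ) : Prop :=
  ∃ (xp : ℤ) (x r : V3) (N4 : ℕ) (u v : V3), Dt D0 G p xp x y g r N N4 u v ∧ Q ≤ (N4 : ℝ)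

end Pool.Agent.PPC
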