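import Mathlib

/-!
# PPC/Idx: two integer identities
-/

set_option autoImplicit false

namespace Pool.Agent.PPC

private theorem Idx_sq (D : ℕ) : (((√(D : ℝ) : ℝ) : ℂ) * Complex.I) ^ 2 = -(D : ℂ) := by
  have h1 : ((√(D : ℝ) : ℝ)) ^ 2 = (D : ℝ) := Real.sq_sqrt (Nat.cast_nonneg D)
  have h2 : (((√(D : ℝ) : ℝ) : ℂ)) ^ 2 = (D : ℂ) := by exact_mod_cast h1
  rw [mul_pow, h2, Complex.I_sq]
  ring

private theorem Idx_sne (D : ℕ) (hD : 1 ≤ D) : ((√(D : ℝ) : ℝ) : ℂ) * Complex.I ≠ 0 := by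
  have h1 : (0 : ℝ) < (D : ℝ) := by exact_mod_cast hD
  have h2 : (√(D : ℝ) : ℝ) ≠ 0 := (Real.sqrt_pos.mpr h1).ne'
  exact mul_ne_zero (by exact_mod_cast h2) Complex.I_ne_zero

/-- coordinates -/
private theorem Idx_cmp (D : ℕ) (hD : 1 ≤ D) (t y t' y' : ℤ)
    (h : (t : ℂ) + (y : ℂ) * (((√(D : ℝ) : ℝ) : ℂ) * Complex.I) =
      (t' : ℂ) + (y' : ℂ) * (((√(D : ℝ) : ℝ) : ℂ) * Complex.I)) : y = y' := by
  have hs : (0 : ℝ) < √(D : ℝ) := Real.sqrt_pos.2 (by exact_mod_cast hD)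
  have h1 : ((t : ℝ) : ℂ) + ((y * √(D : ℝ) : ℝ) : ℂ) * Complex.I =
      ((t' : ℝ) : ℂ) + ((y' * √(D : ℝ) : ℝ) : ℂ) * Complex.I := by
    push_cast
    push_cast at h
    linear_combination h
  have h2 := congrArg Complex.im h1
  simp only [Complex.add_im, Complex.mul_im, Complex.ofReal_re, Complex.ofReal_im, Complex.I_re,
    Complex.I_im] at h2
  have h3 : (y : ℝ) * √(D : ℝ) = (y' : ℝ) * √(D : ℝ) := by linarith
  have h4 : (y : ℝ) = y' := mul_right_cancel₀ hs.ne' h3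
  exact_mod_cast h4

/-- the imaginary part of `π³ = α₁ α₂ α₃` -/
theorem idx1 (D : ℕ) (hD : 1 ≤ D) (w A B C : ℂ) (h : w ^ 3 = A * B * C)
    (p xp x1 x2 x3 y1 y2 y3 : ℤ)
    (hp : 2 * w = (xp : ℂ) + (p : ℂ) * ((√(D : ℝ) : ℝ) : ℂ) * Complex.I)
    (h1 : 2 * A = (x1 : ℂ) + (y1 : ℂ) * ((√(D : ℝ) : ℝ) : ℂ) * Complex.I)
    (h2 : 2 * B = (x2 : ℂ) + (y2 : ℂ) * ((√(D : ℝ) : ℝ) : ℂ) * Complex.I)
    (h3 : 2 * C = (x3 : ℂ) + (y3 : ℂ) * ((√(D : ℝ) : ℝ) : ℂ) * Complex.I) :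
    x1 * x2 * y3 + x2 * x3 * y1 + x3 * x1 * y2 =
      3 * (xp ^ 2 * p) + (D : ℤ) * (y1 * y2 * y3 - p ^ 3) := by
  have hs := Idx_sq D
  set s : ℂ := ((√(D : ℝ) : ℝ) : ℂ) * Complex.I with hsd
  have e : (2 * w) ^ 3 = (2 * A) * (2 * B) * (2 * C) := by
    linear_combination 8 * h
  rw [hp, h1, h2, h3] at e
  have e2 : (((xp ^ 3 - 3 * D * xp * p ^ 2 : ℤ)) : ℂ) +
      ((3 * (xp ^ 2 * p) - D * p ^ 3 : ℤ) : ℂ) * s =
      (((x1 * x2 * x3 - D * (x1 * y2 * y3 + x2 * y3 * y1 + x3 * y1 * y2) : ℤ)) : ℂ) +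
      ((x1 * x2 * y3 + x2 * x3 * y1 + x3 * x1 * y2 - D * (y1 * y2 * y3) : ℤ) : ℂ) * s := by
    have hs2 : s ^ 2 = -(D : ℂ) := hs
    push_cast
    have hs3 : s ^ 3 = -(D : ℂ) * s := by rw [pow_succ, hs2]
    have e3 : ((xp : ℂ) + (p : ℂ) * s) ^ 3 =
        ((x1 : ℂ) + (y1 : ℂ) * s) * ((x2 : ℂ) + (y2 : ℂ) * s) * ((x3 : ℂ) + (y3 : ℂ) * s) := by
      have : ∀ z : ℂ, z * ((√(D : ℝ) : ℝ) : ℂ) * Complex.I = z * s := by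
        intro z; rw [hsd, mul_assoc]
      rw [this, this, this, this] at e
      exact e
    linear_combination e3 - (3 * (xp : ℂ) * (p : ℂ) ^ 2) * hs2 - ((p : ℂ) ^ 3) * hs3 +
      ((x1 : ℂ) * y2 * y3 + (x2 : ℂ) * y3 * y1 + (x3 : ℂ) * y1 * y2) * hs2 +
      ((y1 : ℂ) * y2 * y3) * hs3
  have e4 := Idx_cmp D hD _ _ _ _ e2
  linarith

/-- the imaginary part of `N₂ N₃ α₁ = π γ₁` -/
theorem idx2 (D : ℕ) (hD : 1 ≤ D) (w A c : ℂ) (M : ℕ) (h : (M : ℂ) * A = w * c)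
    (p xp x1 y1 r1 g1 : ℤ)
    (hp : 2 * w = (xp : ℂ) + (p : ℂ) * ((√(D : ℝ) : ℝ) : ℂ) * Complex.I)
    (h1 : 2 * A = (x1 : ℂ) + (y1 : ℂ) * ((√(D : ℝ) : ℝ) : ℂ) * Complex.I)
    (h2 : 2 * c = (r1 : ℂ) + (g1 : ℂ) * ((√(D : ℝ) : ℝ) : ℂ) * Complex.I) :
    2 * ((M : ℤ) * y1) = xp * g1 + p * r1 := by
  have hs := Idx_sq D
  set s : ℂ := ((√(D : ℝ) : ℝ) : ℂ) * Complex.I with hsd
  have e : 2 * ((M : ℂ) * (2 * A)) = (2 * w) * (2 * c) := by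
    linear_combination 4 * h
  rw [hp, h1, h2] at e
  have e2 : (((2 * ((M : ℤ) * x1) : ℤ)) : ℂ) + ((2 * ((M : ℤ) * y1) : ℤ) : ℂ) * s =
      (((xp * r1 - D * (p * g1) : ℤ)) : ℂ) + ((xp * g1 + p * r1 : ℤ) : ℂ) * s := by
    have hs2 : s ^ 2 = -(D : ℂ) := hs
    push_cast
    have : ∀ z : ℂ, z * ((√(D : ℝ) : ℝ) : ℂ) * Complex.I = z * s := by
      intro z; rw [hsd, mul_assoc]
    rw [this, this, this] at e
    linear_combination e + ((p : ℂ) * (g1 : ℂ)) * hs2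
  exact Idx_cmp D hD _ _ _ _ e2

/-- the quadratic form of the fourth ideal -/
theorem idx3 (N4 N2 N3 : ℕ) (hN : 1 ≤ N4) (X β : ℂ) (b0 n0 a b : ℤ)
    (hX : X + (starRingEnd ℂ) X = (b0 : ℂ)) (hX2 : X * (starRingEnd ℂ) X = (N4 : ℂ) * (n0 : ℂ))
    (hβ : β = (b : ℂ) * (N4 : ℂ) + (a : ℂ) * X)
    (hn : β * (starRingEnd ℂ) β = (N4 : ℂ) * N2 * N3) :
    (N4 : ℤ) * b ^ 2 + b0 * b * a + n0 * a ^ 2 = (N2 : ℤ) * N3 := by
  have hb : (starRingEnd ℂ) β = (b : ℂ) * (N4 : ℂ) + (a : ℂ) * (starRingEnd ℂ) X := by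
    rw [hβ, map_add, map_mul, map_mul, map_natCast, map_intCast, map_intCast]
  rw [hb, hβ] at hn
  have hN0 : (N4 : ℂ) ≠ 0 := by
    have : N4 ≠ 0 := by omega
    exact_mod_cast this
  have h1 : (N4 : ℂ) * ((N4 : ℂ) * b ^ 2 + b0 * b * a + n0 * a ^ 2) = (N4 : ℂ) * (N2 * N3) := by
    linear_combination hn - (N4 : ℂ) * b * a * hX - (a : ℂ) ^ 2 * hX2
  have h2 := mul_left_cancel₀ hN0 h1
  exact_mod_cast h2

/-- its polar form -/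
theorem idx4 (N4 : ℕ) (hN : 1 ≤ N4) (X β β' c : ℂ) (b0 n0 a b a' b' r : ℤ)
    (hX : X + (starRingEnd ℂ) X = (b0 : ℂ)) (hX2 : X * (starRingEnd ℂ) X = (N4 : ℂ) * (n0 : ℂ))
    (hβ : β = (b : ℂ) * (N4 : ℂ) + (a : ℂ) * X)
    (hβ' : β' = (b' : ℂ) * (N4 : ℂ) + (a' : ℂ) * X)
    (hq : (N4 : ℂ) * c = β * (starRingEnd ℂ) β') (hr : c + (starRingEnd ℂ) c = (r : ℂ)) :
    2 * (N4 : ℤ) * b * b' + b0 * (b * a' + a * b') + 2 * n0 * a * a' = r := by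
  have hb : (starRingEnd ℂ) β = (b : ℂ) * (N4 : ℂ) + (a : ℂ) * (starRingEnd ℂ) X := by
    rw [hβ, map_add, map_mul, map_mul, map_natCast, map_intCast, map_intCast]
  have hb' : (starRingEnd ℂ) β' = (b' : ℂ) * (N4 : ℂ) + (a' : ℂ) * (starRingEnd ℂ) X := by
    rw [hβ', map_add, map_mul, map_mul, map_natCast, map_intCast, map_intCast]
  have hq' : (N4 : ℂ) * (starRingEnd ℂ) c = (starRingEnd ℂ) β * β' := by
    have h := congrArg (starRingEnd ℂ) hq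
    rw [map_mul, map_mul, map_natCast, Complex.conj_conj] at h
    exact h
  rw [hb', hβ] at hq
  rw [hb, hβ'] at hq'
  have hN0 : (N4 : ℂ) ≠ 0 := by
    have : N4 ≠ 0 := by omega
    exact_mod_cast this
  have h1 : (N4 : ℂ) * (2 * (N4 : ℂ) * b * b' + b0 * (b * a' + a * b') + 2 * n0 * a * a') =
      (N4 : ℂ) * r := by
    linear_combination (N4 : ℂ) * hr - hq - hq' - (N4 : ℂ) * (b * a' + a * b') * hX -
      2 * (a : ℂ) * a' * hX2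
  have h2 := mul_left_cancel₀ hN0 h1
  exact_mod_cast h2

end Pool.Agent.PPC
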