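import Pool.Agent.SMI.Bas
import Pool.Agent.SMI.Ram
import Pool.Agent.FTB.ImZ

/-!
# PPC/Lmq: the prime powers dividing `p` and `y₁`, and the square-free part of the discriminant
-/

set_option autoImplicit false

namespace Pool.Agent.PPC

open NumberField Pool.Agent.FTA Pool.Agent.FTB Pool.Agent.SMQ Pool.Agent.SMI nonZeroDivisors

private theorem Lmq_add (K : IntermediateField ℚ ℂ) [NumberField K] (w : 𝓞 K) (t0 n : ℤ)
    (hw : Co K w t0 1) : Co K ((n : 𝓞 K) + w) (2 * n + t0) 1 := by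
  have hc : ((((n : ℤ) : 𝓞 K) : K) : ℂ) = (n : ℂ) := by simp
  unfold Co at *
  push_cast
  rw [hc, mul_add, hw]
  push_cast
  ring

/-- the odd part of the discriminant is squarefree -/
theorem ldq (K : IntermediateField ℚ ℂ) [NumberField K] (h2 : Module.finrank ℚ K = 2)
    (him : ∃ x : K, (x : ℂ).im ≠ 0) (l : ℕ) (hl : l.Prime) (h : l ≠ 2) : ¬ l ^ 2 ∣ aD K := by
  intro hD
  obtain ⟨w, t0, hw⟩ := omg_exists K h2 him
  have hlp : Prime (l : ℤ) := Nat.prime_iff_prime_int.1 hl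
  have h2l : IsCoprime (l : ℤ) 2 := by
    have h1 : Nat.Coprime l 2 := (Nat.coprime_primes hl Nat.prime_two).2 h
    exact Nat.isCoprime_iff_coprime.2 h1
  obtain ⟨a, b, hab⟩ := h2l
  -- `t0 + 2 m` is divisible by `l`
  have hco : Co K (((-(b * t0) : ℤ) : 𝓞 K) + w) (2 * (-(b * t0)) + t0) 1 :=
    Lmq_add K w t0 _ hw
  have ht : (l : ℤ) ∣ 2 * (-(b * t0)) + t0 := ⟨a * t0, by linear_combination -t0 * hab⟩
  have hn := co_norm K h2 him _ _ _ hco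
  have hlD : l ∣ aD K := (Dvd.intro_left (l ^ 1) (by ring)).trans hD
  have h4 : l ^ 2 ∣ 4 * Ideal.absNorm (Ideal.span {((-(b * t0) : ℤ) : 𝓞 K) + w}) := by
    have h5 : ((l : ℤ)) ^ 2 ∣ 4 *
        ((Ideal.absNorm (Ideal.span {((-(b * t0) : ℤ) : 𝓞 K) + w}) : ℕ) : ℤ) := by
      rw [hn]
      refine dvd_add (pow_dvd_pow_of_dvd ht 2) ?_
      rw [one_pow, mul_one]
      exact_mod_cast hD
    exact_mod_cast h5
  have h6 : l ^ 2 ∣ Ideal.absNorm (Ideal.span {((-(b * t0) : ℤ) : 𝓞 K) + w}) := by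
    have h7 : Nat.Coprime (l ^ 2) 4 := by
      have h1 : Nat.Coprime l 2 := (Nat.coprime_primes hl Nat.prime_two).2 h
      have h8 := Nat.Coprime.pow 2 2 h1
      have h9 : (4 : ℕ) = 2 ^ 2 := by norm_num
      rw [h9]
      exact h8
    exact h7.dvd_of_dvd_mul_left h4
  have h8 := itd K h2 him _ _ _ hco l hl hlD h6
  have h9 : l ∣ 1 := by exact_mod_cast h8
  have := Nat.le_of_dvd one_pos h9
  have := hl.two_le
  omega

/-- the coordinates of the generators in a basis of the ideal -/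
private theorem Lmq_g (K : IntermediateField ℚ ℂ) [NumberField K] (x0 x x' γ : 𝓞 K) (N : ℕ)
    (hN1 : 1 ≤ N) (b0 T g m m' y y' : ℤ) (hc0 : Co K x0 b0 1)
    (hm : x = (m : 𝓞 K) * (N : 𝓞 K) + (y : 𝓞 K) * x0)
    (hm' : x' = (m' : 𝓞 K) * (N : 𝓞 K) + (y' : 𝓞 K) * x0) (cg : Co K γ T g)
    (h : (N : ℂ) * cv K γ = cv K x * (starRingEnd ℂ) (cv K x')) : g = m' * y - m * y' := by
  have hX : cv K x = (m : ℂ) * (N : ℂ) + (y : ℂ) * cv K x0 := by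
    unfold cv
    rw [hm]
    push_cast
    rfl
  have hX' : cv K x' = (m' : ℂ) * (N : ℂ) + (y' : ℂ) * cv K x0 := by
    unfold cv
    rw [hm']
    push_cast
    rfl
  have hs : 0 < √(aD K : ℝ) := Real.sqrt_pos.2 (by exact_mod_cast aD_pos K)
  have hi0 : 2 * (cv K x0).im = √(aD K : ℝ) := by
    have h3 := congrArg Complex.im hc0
    simpa [cv] using h3
  have hig : 2 * (cv K γ).im = (g : ℝ) * √(aD K : ℝ) := by
    have h3 := congrArg Complex.im cg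
    simpa [cv] using h3
  have h3 := congrArg Complex.im h
  rw [hX, hX'] at h3
  simp at h3
  have hN0 : (N : ℝ) ≠ 0 := by
    have : (1 : ℝ) ≤ (N : ℝ) := by exact_mod_cast hN1
    linarith
  have h4 : (N : ℝ) * √(aD K : ℝ) * (g : ℝ) =
      (N : ℝ) * √(aD K : ℝ) * ((m' : ℝ) * y - m * y') := by
    linear_combination 2 * h3 - (N : ℝ) * hig + (N : ℝ) * ((m' : ℝ) * y - m * y') * hi0
  have h5 : (g : ℝ) = (m' : ℝ) * y - m * y' :=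
    mul_left_cancel₀ (mul_ne_zero hN0 hs.ne') h4
  exact_mod_cast h5

/-- if `l` divides the product of two primitive ideals, it divides both norms -/
private theorem Lmq_two (K : IntermediateField ℚ ℂ) [NumberField K] (I J : (Ideal (𝓞 K))⁰)
    (hJ : Pm K J) (N : ℕ) (hN : Ideal.absNorm (I : Ideal (𝓞 K)) = N) (l : ℕ) (hl : l.Prime)
    (h : (I : Ideal (𝓞 K)) * (J : Ideal (𝓞 K)) ≤ Ideal.span {(l : 𝓞 K)}) : l ∣ N := by
  by_contra hlN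
  apply hJ l hl.two_le
  intro z hz
  have hNI : ((N : ℕ) : 𝓞 K) ∈ (I : Ideal (𝓞 K)) := by
    rw [← hN]
    exact Ideal.absNorm_mem _
  have h1 : ((N : ℕ) : 𝓞 K) * z ∈ Ideal.span {(l : 𝓞 K)} := h (Ideal.mul_mem_mul hNI hz)
  have hc : IsCoprime (N : ℤ) (l : ℤ) :=
    Nat.isCoprime_iff_coprime.2 ((Nat.Prime.coprime_iff_not_dvd hl).2 hlN).symm
  obtain ⟨a, b, hab⟩ := hc
  have h2 : z = (a : 𝓞 K) * (((N : ℕ) : 𝓞 K) * z) + (b : 𝓞 K) * z * ((l : ℕ) : 𝓞 K) := by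
    have h3 : (((a * N + b * l : ℤ)) : 𝓞 K) = 1 := by rw [hab]; push_cast; rfl
    push_cast at h3
    linear_combination -z * h3
  rw [h2]
  exact Ideal.add_mem _ (Ideal.mul_mem_left _ _ h1)
    (Ideal.mul_mem_left _ _ (Ideal.mem_span_singleton_self _))

/-- Lemma Q: if `l ^ (s+1)` divides `p` and `y₁`, not `y₂`, `y₃`, and `l ^ s` divides `y₂`, then
`l ^ (s+1)` does not divide `g₂` -/
theorem lmq (K : IntermediateField ℚ ℂ) [NumberField K] (h2 : Module.finrank ℚ K = 2)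
    (him : ∃ x : K, (x : ℂ).im ≠ 0) (I1 I2 I3 : (Ideal (𝓞 K))⁰)
    (q1 : Pm K I1) (q2 : Pm K I2) (q3 : Pm K I3) (N1 N2 N3 : ℕ) (o1 : 1 ≤ N1) (o2 : 1 ≤ N2)
    (n1 : Ideal.absNorm (I1 : Ideal (𝓞 K)) = N1) (n2 : Ideal.absNorm (I2 : Ideal (𝓞 K)) = N2)
    (n3 : Ideal.absNorm (I3 : Ideal (𝓞 K)) = N3) (π α1 α2 α3 γ2 : 𝓞 K)
    (sp : Ideal.span {π} = (I1 : Ideal (𝓞 K)) * (I2 : Ideal (𝓞 K)) * (I3 : Ideal (𝓞 K)))
    (s1 : Ideal.span {α1} = (I1 : Ideal (𝓞 K)) ^ 3) (s2 : Ideal.span {α2} = (I2 : Ideal (𝓞 K)) ^ 3)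
    (s3 : Ideal.span {α3} = (I3 : Ideal (𝓞 K)) ^ 3)
    (hq : (N2 : ℂ) * cv K γ2 = cv K α2 * (starRingEnd ℂ) (cv K π))
    (xp p t1 y1 t2 y2 t3 y3 r2 g2 : ℤ) (c0 : Co K π xp p)
    (c1 : Co K α1 t1 y1) (c2 : Co K α2 t2 y2) (c3 : Co K α3 t3 y3) (k2 : Co K γ2 r2 g2)
    (l s : ℕ) (hl : l.Prime) (hp : (l : ℤ) ^ (s + 1) ∣ p) (hy1 : (l : ℤ) ^ (s + 1) ∣ y1)
    (hy2 : (l : ℤ) ^ s ∣ y2) (hy2' : ¬ (l : ℤ) ^ (s + 1) ∣ y2)
    (hy3' : ¬ (l : ℤ) ^ (s + 1) ∣ y3) : ¬ (l : ℤ) ^ (s + 1) ∣ g2 := by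
  intro hg
  have hlp : Prime (l : ℤ) := Nat.prime_iff_prime_int.1 hl
  have hl0 : (l : ℤ) ≠ 0 := hlp.ne_zero
  obtain ⟨x0, b0, hx0, hc0, hmem, -⟩ := bas K h2 him I2 q2 N2 o2 n2
  have hα2 : α2 ∈ (I2 : Ideal (𝓞 K)) := by
    have t : α2 ∈ Ideal.span {α2} := Ideal.mem_span_singleton_self α2
    rw [s2] at t
    exact Ideal.pow_le_self (by norm_num) t
  have hπ2 : π ∈ (I2 : Ideal (𝓞 K)) := by
    have t : π ∈ Ideal.span {π} := Ideal.mem_span_singleton_self π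
    rw [sp, mul_assoc] at t
    exact Ideal.mul_le_right.trans Ideal.mul_le_left t
  obtain ⟨m, hm⟩ := hmem α2 hα2 t2 y2 c2
  obtain ⟨m', hm'⟩ := hmem π hπ2 xp p c0
  have hg2 := Lmq_g K x0 α2 π γ2 N2 o2 b0 r2 g2 m m' y2 p hc0 hm hm' k2 hq
  -- `l ∣ m'`
  have h3 : (l : ℤ) ^ (s + 1) ∣ m' * y2 := by
    have e : m' * y2 = g2 + m * p := by rw [hg2]; ring
    rw [e]
    exact dvd_add hg (Dvd.dvd.mul_left hp m)
  obtain ⟨y2', hy2e⟩ := hy2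
  have hly : ¬ (l : ℤ) ∣ y2' := by
    rintro ⟨z, hz⟩
    exact hy2' ⟨z, by rw [hy2e, hz, pow_succ]; ring⟩
  have h4 : (l : ℤ) ∣ m' * y2' := by
    rw [hy2e, pow_succ] at h3
    have h5 : (l : ℤ) ^ s * (l : ℤ) ∣ (l : ℤ) ^ s * (m' * y2') := by
      have e : (l : ℤ) ^ s * (m' * y2') = m' * ((l : ℤ) ^ s * y2') := by ring
      rw [e]
      exact h3
    exact Int.dvd_of_mul_dvd_mul_left (pow_ne_zero s hl0) h5
  have h5 : (l : ℤ) ∣ m' := (hlp.dvd_or_dvd h4).resolve_right hly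
  obtain ⟨m'', hm''⟩ := h5
  obtain ⟨p', hp'⟩ := (dvd_pow_self (l : ℤ) (Nat.succ_ne_zero s)).trans hp
  -- `π = l π'`, `π' ∈ I2`
  obtain ⟨π', hπ'⟩ : ∃ z : 𝓞 K, z = (m'' : 𝓞 K) * (N2 : 𝓞 K) + (p' : 𝓞 K) * x0 := ⟨_, rfl⟩
  have hN2 : ((N2 : ℕ) : 𝓞 K) ∈ (I2 : Ideal (𝓞 K)) := by
    rw [← n2]
    exact Ideal.absNorm_mem _
  have hπI : π' ∈ (I2 : Ideal (𝓞 K)) := by
    rw [hπ']
    exact Ideal.add_mem _ (Ideal.mul_mem_left _ _ hN2) (Ideal.mul_mem_left _ _ hx0)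
  have hπl : π = (l : 𝓞 K) * π' := by
    rw [hm', hπ', hm'', hp']
    push_cast
    ring
  obtain ⟨X, hX⟩ := Ideal.dvd_iff_le.2 ((Ideal.span_singleton_le_iff_mem _).2 hπI)
  have hI0 : (I2 : Ideal (𝓞 K)) ≠ 0 := nonZeroDivisors.coe_ne_zero I2
  have h6 : (I1 : Ideal (𝓞 K)) * (I3 : Ideal (𝓞 K)) = Ideal.span {(l : 𝓞 K)} * X := by
    apply mul_left_cancel₀ hI0
    calc (I2 : Ideal (𝓞 K)) * ((I1 : Ideal (𝓞 K)) * (I3 : Ideal (𝓞 K)))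
        = (I1 : Ideal (𝓞 K)) * (I2 : Ideal (𝓞 K)) * (I3 : Ideal (𝓞 K)) := by ring
      _ = Ideal.span {π} := sp.symm
      _ = Ideal.span {(l : 𝓞 K)} * Ideal.span {π'} := by
          rw [hπl, Ideal.span_singleton_mul_span_singleton]
      _ = (I2 : Ideal (𝓞 K)) * (Ideal.span {(l : 𝓞 K)} * X) := by rw [hX]; ring
  have h7 : (I1 : Ideal (𝓞 K)) * (I3 : Ideal (𝓞 K)) ≤ Ideal.span {(l : 𝓞 K)} := by
    rw [h6]
    exact Ideal.mul_le_left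
  have hl1 : l ∣ N1 := Lmq_two K I1 I3 q3 N1 n1 l hl h7
  have hl3 : l ∣ N3 := Lmq_two K I3 I1 q1 N3 n3 l hl (by rw [mul_comm]; exact h7)
  have hly1 : (l : ℤ) ∣ y1 := (dvd_pow_self (l : ℤ) (Nat.succ_ne_zero s)).trans hy1
  obtain ⟨hlD, hsq⟩ := ramA K h2 him I1 q1 N1 o1 n1 α1 s1 t1 y1 c1 l hl hl1 hly1
  have hs : s = 0 := by
    by_contra hs
    exact hsq ((pow_dvd_pow (l : ℤ) (by omega : 2 ≤ s + 1)).trans hy1)
  apply hy3'
  rw [hs, zero_add, pow_one]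
  exact ramC K h2 him I3 N3 n3 α3 s3 t3 y3 c3 l hl hlD hl3

end Pool.Agent.PPC
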