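import Pool.Agent.PPC.Dti
import Pool.Agent.PPC.Dexx
import Pool.Agent.SMI.Vth
import Pool.Agent.SMI.Vci
import Pool.Agent.SMI.Vpl
import Pool.Agent.SMI.Vun
import Pool.Agent.SMI.Vdx

/-!
# PPC/Vxa: every independent pair of classes of order 3 is a word in a witnessed pair (with `Dt`)

The same arguments as in `SMI.Rfi`, `SMI.Vch`, `SMI.Vex` (with `Dt` instead of `Tri`).
-/

set_option autoImplicit false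

namespace Pool.Agent.PPC

open NumberField Pool.Agent.FTA Pool.Agent.FTB Pool.Agent.SMQ Pool.Agent.SMI nonZeroDivisors

/-- the numerical conditions on `(G, p, y, g)` in Theorem A* -/
def Cs (X G : ℕ) (p : ℤ) (y g : V3) : Prop :=
  ∃ (D0 : ℕ) (xp : ℤ) (x r : V3) (N : ℕ × ℕ × ℕ) (N4 : ℕ) (u v : V3), D0 ≤ X ∧
    Dt D0 G p xp x y g r N N4 u v ∧ N.1 ≤ N.2.1 ∧ N.1 ≤ N.2.2 ∧ N.1 ≤ N4

/-- the integers attached to a triple of ideals, with the additional facts -/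
structure Dxx (K : IntermediateField ℚ ℂ) [NumberField K] (I1 I2 I3 : (Ideal (𝓞 K))⁰)
    (N : ℕ × ℕ × ℕ) (N4 : ℕ) (p xp : ℤ) (x y g : V3) : Prop where
  sp : ∃ a : 𝓞 K, Co K a xp p ∧
    Ideal.span {a} = (I1 : Ideal (𝓞 K)) * (I2 : Ideal (𝓞 K)) * (I3 : Ideal (𝓞 K))
  s1 : ∃ a : 𝓞 K, Co K a x.1 y.1 ∧ Ideal.span {a} = (I1 : Ideal (𝓞 K)) ^ 3
  s2 : ∃ a : 𝓞 K, Co K a x.2.1 y.2.1 ∧ Ideal.span {a} = (I2 : Ideal (𝓞 K)) ^ 3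
  s3 : ∃ a : 𝓞 K, Co K a x.2.2 y.2.2 ∧ Ideal.span {a} = (I3 : Ideal (𝓞 K)) ^ 3
  uq : ∃ r u v : V3, Uq (aD K) p xp x y g r N N4 u v ∧ Ux (aD K) p xp x y g r N u v

theorem dxx_dx (K : IntermediateField ℚ ℂ) [NumberField K] (I1 I2 I3 : (Ideal (𝓞 K))⁰)
    (N : ℕ × ℕ × ℕ) (N4 : ℕ) (p xp : ℤ) (x y g : V3) (h : Dxx K I1 I2 I3 N N4 p xp x y g) :
    Dx K I1 I2 I3 N N4 p xp x y g := by
  obtain ⟨r, u, v, h1, -⟩ := h.uq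
  exact ⟨h.sp, h.s1, h.s2, h.s3, r, u, v, h1⟩

theorem vdxx (K : IntermediateField ℚ ℂ) [NumberField K] (h2 : Module.finrank ℚ K = 2)
    (him : ∃ x : K, (x : ℂ).im ≠ 0) (I1 I2 I3 E J1 J2 J3 F : (Ideal (𝓞 K))⁰) (N1 N2 N3 N4 : ℕ)
    (c1 : CI K I1 J1 N1) (c2 : CI K I2 J2 N2) (c3 : CI K I3 J3 N3) (c4 : CI K E F N4)
    (hi : Ind (ClassGroup.mk0 I1) (ClassGroup.mk0 I2))
    (hc : ClassGroup.mk0 I1 * ClassGroup.mk0 I2 * ClassGroup.mk0 I3 = 1)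
    (he : ClassGroup.mk0 E = ClassGroup.mk0 I1 * (ClassGroup.mk0 I2)⁻¹) :
    ∃ (p xp : ℤ) (x y g : V3), Dxx K I1 I2 I3 (N1, N2, N3) N4 p xp x y g := by
  obtain ⟨a, a1, a2, a3, p, xp, x, y, g, r, u, v, h1, h2, h3, h4, h5, h6, h7, h8, h9, h10⟩ :=
    dexx K h2 him I1 I2 I3 E J1 J2 J3 F N1 N2 N3 N4 c1 c2 c3 c4 hi hc he
  exact ⟨p, xp, x, y, g, ⟨a, h5, h1⟩, ⟨a1, h6, h2⟩, ⟨a2, h7, h3⟩, ⟨a3, h8, h4⟩, r, u, v, h9, h10⟩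

theorem rfs (K : IntermediateField ℚ ℂ) [NumberField K] (X : ℕ) (hX : aD K ≤ X)
    (I1 I2 I3 : (Ideal (𝓞 K))⁰) (N : ℕ × ℕ × ℕ) (N4 : ℕ) (p xp : ℤ) (x y g : V3)
    (h : Dxx K I1 I2 I3 N N4 p xp x y g) (hp : p ≠ 0) (hD : De p y ≠ 0) (h4 : N.1 ≤ N4)
    (h5 : N.1 ≤ N.2.1) (h6 : N.1 ≤ N.2.2) :
    ∃ (G : ℕ) (p' : ℤ) (y' g' : V3), 1 ≤ G ∧
      Wit K (ClassGroup.mk0 I1) (ClassGroup.mk0 I2) G p' y' g' ∧ Cs X G p' y' g' := by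
  obtain ⟨sp, s1, s2, s3, r, u, v, hu, hu'⟩ := h
  obtain ⟨G, p', y', g', ep, ey1, ey2, ey3, eg1, eg2, eg3, ht⟩ :=
    dti (aD K) p xp x y g r N N4 u v hu hu' hp hD h4
  obtain ⟨α, hα, hαI⟩ := s1
  obtain ⟨β, hβ, hβJ⟩ := s2
  have hG : 1 ≤ G := ht.tri.hG
  have hG0 : (G : ℤ) ≠ 0 := by exact_mod_cast (by omega : G ≠ 0)
  have hy1 : y'.1 ≠ 0 := ht.tri.t1.hy
  have hny := hu.e1.ny
  have hxx := hu.e1.xx
  have hxx2 := hu.e2.xx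
  refine ⟨G, p', y', g', hG, ?_, ?_⟩
  · refine ⟨I1, I2, α, β, N.1, x.1, x.2.1, rfl, rfl, hαI.symm, hβJ.symm, ?_, ?_, hG, ht.tri.hD,
      hy1, ?_, ?_, ?_, ?_⟩
    · rw [← ey1]
      exact hα
    · rw [← ey2]
      exact hβ
    · exact ht.tri.t1.hi
    · rw [hny, ey1]
    · have h6 : (G : ℤ) ^ 6 ≠ 0 := pow_ne_zero _ hG0
      refine mul_left_cancel₀ h6 ?_
      unfold De
      rw [ep, ey1, ey2, ey3, eg1, eg2, eg3] at hxx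
      linear_combination hxx
    · have h6 : (G : ℤ) ^ 6 ≠ 0 := pow_ne_zero _ hG0
      refine mul_left_cancel₀ h6 ?_
      unfold De
      rw [ep, ey1, ey2, ey3, eg1, eg2, eg3] at hxx2
      linear_combination hxx2
  · exact ⟨aD K, xp, x, r, N, N4, u, v, hX, ht, h5, h6, h4⟩

theorem vxc (K : IntermediateField ℚ ℂ) [NumberField K] (h2 : Module.finrank ℚ K = 2)
    (him : ∃ x : K, (x : ℂ).im ≠ 0) (X : ℕ) (hX : aD K ≤ X) (A B : ClassGroup (𝓞 K))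
    (h : Ind A B) (I J B1 B2 B3 C1 C2 C3 : (Ideal (𝓞 K))⁰) (N N1 N2 N3 : ℕ) (c : CI K I J N)
    (c1 : CI K B1 C1 N1) (c2 : CI K B2 C2 N2) (c3 : CI K B3 C3 N3)
    (k : ClassGroup.mk0 I = A) (k1 : ClassGroup.mk0 B1 = B) (k2 : ClassGroup.mk0 B2 = A * B)
    (k3 : ClassGroup.mk0 B3 = A * (A * B)) (l1 : N ≤ N1) (l2 : N ≤ N2) (l3 : N ≤ N3) :
    ∃ B' : ClassGroup (𝓞 K), (B' = B ∨ B' = A * B ∨ B' = A * (A * B)) ∧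
      ∃ (G : ℕ) (p : ℤ) (y g : V3), 1 ≤ G ∧ Wit K A B' G p y g ∧ Cs X G p y g := by
  have hD : 5 ≤ aD K := vu5 K h2 him A h.2.2.1
  have hA3 : A ^ 3 = 1 := h.1
  have w0 : ∃ i j k l : Fin 3, A = A ^ (i : ℕ) * B ^ (j : ℕ) ∧ B = A ^ (k : ℕ) * B ^ (l : ℕ) :=
    ⟨1, 0, 0, 1, by simp, by simp⟩
  obtain ⟨i1, w1⟩ := vwd A B A B h w0
  obtain ⟨i2, -⟩ := vwd A B A (A * B) i1 w1
  have e1 : ClassGroup.mk0 C1 = B⁻¹ := by rw [c1.cJ, k1]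
  have e2 : ClassGroup.mk0 C2 = (A * B)⁻¹ := by rw [c2.cJ, k2]
  have e3 : ClassGroup.mk0 C3 = (A * (A * B))⁻¹ := by rw [c3.cJ, k3]
  have hAA : A * A * A = 1 := by rw [← hA3, pow_succ, pow_two]
  have hA' : (A * A)⁻¹ = A := by
    rw [inv_eq_iff_mul_eq_one]
    exact hAA
  obtain ⟨p, xp, x, y, g, d1⟩ := vdxx K h2 him I B1 C2 C3 J C1 B2 B3 N N1 N2 N3 c c1
    (vcs K B2 C2 N2 c2) (vcs K B3 C3 N3 c3) (by rw [k, k1]; exact h)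
    (by rw [k, k1, e2, mul_inv_cancel])
    (by rw [e3, k, k1, ← mul_assoc, mul_inv, hA'])
  obtain ⟨p', xp', x', y', g', d2⟩ := vdxx K h2 him I B2 C3 C1 J C2 B3 B1 N N2 N3 N1 c c2
    (vcs K B3 C3 N3 c3) (vcs K B1 C1 N1 c1) (by rw [k, k2]; exact i1)
    (by rw [k, k2, e3, mul_inv_cancel])
    (by rw [e1, k, k2, mul_inv, ← mul_assoc, mul_inv_cancel, one_mul])
  obtain ⟨p'', xp'', x'', y'', g'', d3⟩ := vdxx K h2 him I B3 C1 C2 J C3 B1 B2 N N3 N1 N2 c c3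
    (vcs K B1 C1 N1 c1) (vcs K B2 C2 N2 c2) (by rw [k, k3]; exact i2)
    (by
      rw [k, k3, e1]
      calc A * (A * (A * B)) * B⁻¹ = A * A * A * (B * B⁻¹) := by
            simp only [mul_assoc]
        _ = 1 := by rw [hAA, mul_inv_cancel, one_mul])
    (by rw [e2, k, k3, mul_inv A (A * B), ← mul_assoc, mul_inv_cancel, one_mul])
  rcases vth K h2 him hD I B1 B2 B3 C1 C2 C3 N N1 N2 N3 c1 c2 c3 p xp p' xp' p'' xp''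
    x y g x' y' g' x'' y'' g'' (dxx_dx _ _ _ _ _ _ _ _ _ _ _ d1) (dxx_dx _ _ _ _ _ _ _ _ _ _ _ d2)
    (dxx_dx _ _ _ _ _ _ _ _ _ _ _ d3) with ⟨a, b⟩ | ⟨a, b⟩ | ⟨a, b⟩
  · obtain ⟨G, q, z, w, a1, a3, a4⟩ :=
      rfs K X hX I B1 C2 (N, N1, N2) N3 p xp x y g d1 a b l3 l1 l2
    rw [k, k1] at a3
    exact ⟨B, Or.inl rfl, G, q, z, w, a1, a3, a4⟩
  · obtain ⟨G, q, z, w, a1, a3, a4⟩ :=
      rfs K X hX I B2 C3 (N, N2, N3) N1 p' xp' x' y' g' d2 a b l1 l2 l3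
    rw [k, k2] at a3
    exact ⟨A * B, Or.inr (Or.inl rfl), G, q, z, w, a1, a3, a4⟩
  · obtain ⟨G, q, z, w, a1, a3, a4⟩ :=
      rfs K X hX I B3 C1 (N, N3, N1) N2 p'' xp'' x'' y'' g'' d3 a b l2 l3 l1
    rw [k, k3] at a3
    exact ⟨A * (A * B), Or.inr (Or.inr rfl), G, q, z, w, a1, a3, a4⟩

theorem vxs (K : IntermediateField ℚ ℂ) [NumberField K] (h2 : Module.finrank ℚ K = 2)
    (him : ∃ x : K, (x : ℂ).im ≠ 0) (X : ℕ) (hX : aD K ≤ X) (A B : ClassGroup (𝓞 K))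
    (h : Ind A B) :
    ∃ A' B' : ClassGroup (𝓞 K), Ind A' B' ∧
      (∃ i j k l : Fin 3, A = A' ^ (i : ℕ) * B' ^ (j : ℕ) ∧ B = A' ^ (k : ℕ) * B' ^ (l : ℕ)) ∧
      ∃ (G : ℕ) (p : ℤ) (y g : V3), 1 ≤ G ∧ Wit K A' B' G p y g ∧ Cs X G p y g := by
  choose I J N hN hC using vci K h2
  have hν : ∀ C : ClassGroup (𝓞 K), N C⁻¹ = N C := by
    intro C
    refine (vcv K (I C) (J C) (I C⁻¹) (J C⁻¹) (N C) (N C⁻¹) (hN C) (hN C⁻¹) ?_).symm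
    rw [hC C, hC C⁻¹]
  obtain ⟨A', B', hI, l1, l2, l3, hw⟩ := vpl N hν A B h
  obtain ⟨B'', hB, hwit⟩ := vxc K h2 him X hX A' B' hI (I A') (J A') (I B') (I (A' * B'))
    (I (A' * (A' * B'))) (J B') (J (A' * B')) (J (A' * (A' * B'))) (N A') (N B') (N (A' * B'))
    (N (A' * (A' * B'))) (hN _) (hN _) (hN _) (hN _) (hC _) (hC _) (hC _) (hC _) l1 l2 l3
  obtain ⟨hI1, hw1⟩ := vwd A B A' B' hI hw
  obtain ⟨hI2, hw2⟩ := vwd A B A' (A' * B') hI1 hw1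
  rcases hB with rfl | rfl | rfl
  · exact ⟨A', _, hI, hw, hwit⟩
  · exact ⟨A', _, hI1, hw1, hwit⟩
  · exact ⟨A', _, hI2, hw2, hwit⟩

end Pool.Agent.PPC
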