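import Pool.Agent.SMI.FaG
import Pool.Agent.SMI.Inj
import Pool.Agent.PPC.Vxa
import Pool.Agent.FTA.Fam

/-!
# PPC/Fas: Theorem A* (the second moment of the 3-torsion is `≤ C X`) from the counting theorem `CntS`
-/

set_option autoImplicit false

namespace Pool.Agent.PPC

open NumberField Pool.Agent.FTA Pool.Agent.FTB Pool.Agent.SMQ Pool.Agent.SMI nonZeroDivisors

/-- THE COUNTING THEOREM: the number of reduced data `(G, p, y, g)` with `|D_K| ≤ X` is `≤ C X` -/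
def CntS : Prop :=
  ∃ C : ℝ, 0 < C ∧ ∀ X : ℕ, 1 ≤ X → ∀ S : Finset (ℕ × ℤ × V3 × V3),
    (∀ q ∈ S, 1 ≤ q.1 ∧ Cs X q.1 q.2.1 q.2.2.1 q.2.2.2) → (S.card : ℝ) ≤ C * X

/-- `q = (G, p, y, g)` is a witness of a pair of classes of `K` -/
def Wks (K : IntermediateField ℚ ℂ) (q : ℕ × ℤ × V3 × V3) : Prop :=
  ∃ (_ : NumberField K) (A B : ClassGroup (𝓞 K)), Wit K A B q.1 q.2.1 q.2.2.1 q.2.2.2

/-- the numerical conditions on `q` -/
def Cks (X : ℕ) (q : ℕ × ℤ × V3 × V3) : Prop :=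
  1 ≤ q.1 ∧ Cs X q.1 q.2.1 q.2.2.1 q.2.2.2

theorem fks (K : IntermediateField ℚ ℂ) [NumberField K] (h2 : Module.finrank ℚ K = 2)
    (him : ∃ x : K, (x : ℂ).im ≠ 0) (X : ℕ) (hX : aD K ≤ X) :
    ∃ A : Finset (ℕ × ℤ × V3 × V3), (∀ q ∈ A, Cks X q ∧ Wks K q) ∧
      (Nat.card {c : ClassGroup (𝓞 K) // c ^ 3 = 1}) ^ 2 ≤ 16 + 162 * A.card := by
  classical
  let W : ClassGroup (𝓞 K) → ClassGroup (𝓞 K) → Prop := fun A B =>
    ∃ q : ℕ × ℤ × V3 × V3, Cks X q ∧ Wit K A B q.1 q.2.1 q.2.2.1 q.2.2.2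
  have h1 := faG (ClassGroup (𝓞 K))
  have h3 := faW (ClassGroup (𝓞 K)) W (by
    intro A B hAB
    obtain ⟨A', B', -, hw, G, p, y, g, hG1, hW, hC⟩ := vxs K h2 him X hX A B hAB
    exact ⟨A', B', ⟨(G, p, y, g), ⟨hG1, hC⟩, hW⟩, hw⟩)
  have hch : ∀ r : {q : ClassGroup (𝓞 K) × ClassGroup (𝓞 K) // W q.1 q.2},
      ∃ q : ℕ × ℤ × V3 × V3, Cks X q ∧ Wit K r.1.1 r.1.2 q.1 q.2.1 q.2.2.1 q.2.2.2 := fun r => r.2
  choose f hf using hch
  have hinj : Function.Injective f := by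
    intro r r' hrr
    have e1 := (hf r).2
    have e2 := (hf r').2
    rw [hrr] at e1
    have e3 := inj2 K _ _ _ _ _ _ _ _ e1 e2
    exact Subtype.ext (Prod.ext e3.1 e3.2)
  have : Fintype {q : ClassGroup (𝓞 K) × ClassGroup (𝓞 K) // W q.1 q.2} := Fintype.ofFinite _
  refine ⟨Finset.univ.image f, ?_, ?_⟩
  · intro q hq
    obtain ⟨r, -, rfl⟩ := Finset.mem_image.1 hq
    exact ⟨(hf r).1, inferInstance, r.1.1, r.1.2, (hf r).2⟩
  · rw [Finset.card_image_of_injective _ hinj, Finset.card_univ, ← Nat.card_eq_fintype_card]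
    omega

theorem ffs (X : ℕ) (B : ℝ)
    (hB : ∀ S : Finset (ℕ × ℤ × V3 × V3), (∀ q ∈ S, Cks X q) → (S.card : ℝ) ≤ B) :
    ∑ᶠ K ∈ IQ X, ((Nat.card {c : ClassGroup (𝓞 K) // c ^ 3 = 1} : ℝ)) ^ 2 ≤
      16 * X + 162 * B := by
  classical
  rw [finsum_mem_eq_finite_toFinset_sum _ (famFin X)]
  have hloc : ∀ K : IntermediateField ℚ ℂ, ∃ A : Finset (ℕ × ℤ × V3 × V3), K ∈ IQ X →
      (∀ q ∈ A, Cks X q ∧ Wks K q) ∧
      (Nat.card {c : ClassGroup (𝓞 K) // c ^ 3 = 1}) ^ 2 ≤ 16 + 162 * A.card := by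
    intro K
    by_cases hK : K ∈ IQ X
    · obtain ⟨hN, h2, him, hX⟩ := hK
      obtain ⟨A, hA⟩ := fks K h2 him X hX
      exact ⟨A, fun _ => hA⟩
    · exact ⟨∅, fun h => absurd h hK⟩
  choose A hA using hloc
  have hmem : ∀ K, K ∈ (famFin X).toFinset ↔ K ∈ IQ X := fun K => Set.Finite.mem_toFinset _
  have h1 : ∑ K ∈ (famFin X).toFinset, ((Nat.card {c : ClassGroup (𝓞 K) // c ^ 3 = 1} : ℝ)) ^ 2 ≤
      ∑ K ∈ (famFin X).toFinset, (16 + 162 * ((A K).card : ℝ)) := by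
    apply Finset.sum_le_sum
    intro K hK
    have h2 := (hA K ((hmem K).1 hK)).2
    exact_mod_cast h2
  refine h1.trans ?_
  rw [Finset.sum_add_distrib, Finset.sum_const, nsmul_eq_mul, ← Finset.mul_sum]
  have h3 : ((famFin X).toFinset.card : ℝ) ≤ X := by
    have h4 := famCard X
    rw [Set.ncard_eq_toFinset_card _ (famFin X)] at h4
    exact_mod_cast h4
  have h5 : (((famFin X).toFinset.biUnion A).card : ℝ) = ∑ K ∈ (famFin X).toFinset,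
      ((A K).card : ℝ) := by
    rw [Finset.card_biUnion]
    · push_cast
      rfl
    · intro K hK K' hK' hne
      apply Finset.disjoint_left.2
      intro q hq hq'
      apply hne
      have i1 := (hmem K).1 (Finset.mem_coe.1 hK)
      have i2 := (hmem K').1 (Finset.mem_coe.1 hK')
      obtain ⟨j1, a1, b1, w1⟩ := ((hA K i1).1 q hq).2
      obtain ⟨j2, a2, b2, w2⟩ := ((hA K' i2).1 q hq').2
      have e := inj1 K K' a1 b1 a2 b2 _ _ _ _ w1 w2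
      obtain ⟨-, h21, him1, -⟩ := i1
      obtain ⟨-, h22, him2, -⟩ := i2
      exact uniq K K' h21 him1 h22 him2 e
  have h6 := hB ((famFin X).toFinset.biUnion A) (by
    intro q hq
    obtain ⟨K, hK, hqK⟩ := Finset.mem_biUnion.1 hq
    exact ((hA K ((hmem K).1 hK)).1 q hqK).1)
  rw [h5] at h6
  nlinarith

/-- THEOREM A*: the second moment of the 3-torsion is at most `C X` -/
theorem mas (h : CntS) : ∃ C : ℝ, 0 < C ∧ ∀ X : ℝ, 1 ≤ X →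
    ∑ᶠ K ∈ IQ ⌊X⌋₊, ((Nat.card {c : ClassGroup (𝓞 K) // c ^ 3 = 1} : ℝ)) ^ 2 ≤ C * X := by
  obtain ⟨C, hC0, hC⟩ := h
  refine ⟨16 + 162 * C, by positivity, ?_⟩
  intro X hX
  have hf : 1 ≤ ⌊X⌋₊ := Nat.le_floor (by simpa using hX)
  have hle : ((⌊X⌋₊ : ℕ) : ℝ) ≤ X := Nat.floor_le (by linarith)
  have h1 := ffs ⌊X⌋₊ (C * (⌊X⌋₊ : ℝ)) (fun S hS => hC ⌊X⌋₊ hf S hS)
  have h2 : C * (⌊X⌋₊ : ℝ) ≤ C * X := mul_le_mul_of_nonneg_left hle hC0.le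
  linarith

end Pool.Agent.PPC
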