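import Pool.Agent.PPC.Csu
import Pool.Agent.PPC.Fas
import Pool.Agent.PPF.Fin
import Pool.Agent.PPW.FinJ
import Pool.Agent.PPS.Fin

/-!
# PPC/Brg: the counting theorem `CntS` and Theorem A* (the second moment is `≤ C X`)
-/

set_option autoImplicit false

namespace Pool.Agent.PPC

open Finset NumberField Pool.Agent.FTA Pool.Agent.FTB Pool.Agent.SMQ Pool.Agent.SMI

/-- the points which are counted -/
def QQ (D0 G : ℕ) (p : ℤ) (y g : V3) (N : ℕ × ℕ × ℕ) : Prop :=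
  ∃ (xp : ℤ) (x r : V3) (N4 : ℕ) (u v : V3), Dt D0 G p xp x y g r N N4 u v

theorem tri_rt (D G : ℕ) (p : ℤ) (y g : V3) (N : ℕ × ℕ × ℕ) (N4 : ℕ) (u v : V3)
    (h : Tri D G p y g N N4 u v) :
    Tri D G p (rt y) (rt g) (N.2.1, N.2.2, N.1) N4 (rt u) (rt v) := by
  have e : De p (rt y) = De p y := by
    simp only [De, rt]
    ring
  refine ⟨h.hG, h.hp, by rw [e]; exact h.hD, ?_, ?_, h.t2, h.t3, h.t1, ?_, ?_⟩
  · have := h.sp
    simp only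
    nlinarith [this]
  · rcases h.s4 with h1 | h1 | h1
    · exact Or.inr (Or.inr h1)
    · exact Or.inl h1
    · exact Or.inr (Or.inl h1)
  · intro l hl h1 h2
    rw [e] at h2
    rw [e]
    simp only [rt]
    rcases h.lo l hl h1 h2 with h3 | h3 | h3 | h3
    · exact Or.inr (Or.inr (Or.inl ⟨h3.1, h3.2.1, h3.2.2⟩))
    · exact Or.inl ⟨h3.1, h3.2.2, h3.2.1⟩
    · exact Or.inr (Or.inl ⟨h3.1, h3.2.2, h3.2.1⟩)
    · exact Or.inr (Or.inr (Or.inr ⟨h3.2.1, h3.2.2.1, h3.1, h3.2.2.2⟩))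
  · intro n h1 h2 h3
    rw [e]
    exact h.ka n h3 h1 h2

theorem qf_rt (N : ℕ × ℕ × ℕ) (r u v : V3) (a b c : ℤ) (h : Qf N r u v a b c) :
    Qf (N.2.1, N.2.2, N.1) (rt r) (rt u) (rt v) a b c :=
  ⟨h.q2, h.q3, h.q1, h.b2, h.b3, h.b1⟩

theorem dt_rt (D0 G : ℕ) (p xp : ℤ) (x y g r : V3) (N : ℕ × ℕ × ℕ) (N4 : ℕ) (u v : V3)
    (h : Dt D0 G p xp x y g r N N4 u v) :
    Dt D0 G p xp (rt x) (rt y) (rt g) (rt r) (N.2.1, N.2.2, N.1) N4 (rt u) (rt v) := by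
  obtain ⟨a, b, c, hq⟩ := h.qf
  refine ⟨tri_rt _ _ _ _ _ _ _ _ _ h.tri, ?_, ?_, h.dq, ⟨a, b, c, qf_rt _ _ _ _ _ _ _ hq⟩,
    h.e2, h.e3, h.e1⟩
  · have := h.np
    simp only
    linarith [this]
  · have h1 := h.i1
    have e : De p (rt y) = De p y := by
      simp only [De, rt]
      ring
    rw [e]
    simp only [rt]
    linarith [h1]

theorem hyp : PPF.Hyp QQ where
  tri := by
    rintro D0 G p y g N ⟨xp, x, r, N4, u, v, h⟩
    exact ⟨N4, u, v, h.tri⟩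
  rot := by
    rintro D0 G p y g N ⟨xp, x, r, N4, u, v, h⟩
    exact ⟨xp, rt x, rt r, N4, rt u, rt v, dt_rt _ _ _ _ _ _ _ _ _ _ _ _ h⟩

theorem clb : PPF.ClB QQ (10 ^ 21) := by
  intro G p y r1 r2 r3 t ph y2h y3h Dh hG hp h2 h3 hD S ⟨g0, hg0⟩ hS
  obtain ⟨D0, N, -, hs⟩ := hS g0 hg0
  have hQ : 0 < min (r1 ^ 2) (min (r2 ^ 2) (r3 ^ 2)) := by
    have := hs.r1p
    have := hs.r2p
    have := hs.r3p
    exact lt_min (by positivity) (lt_min (by positivity) (by positivity))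
  apply csu r1 r2 r3 t (min (r1 ^ 2) (min (r2 ^ 2) (r3 ^ 2))) ph y2h y3h Dh G p y hp h2 h3 hD hQ
    hs.r1p hs.r2p hs.r3p hs.tp
  intro g hg
  obtain ⟨D0, N, ⟨xp, x, r, N4, u, v, h⟩, hs⟩ := hS g hg
  refine ⟨D0, N, ⟨xp, x, r, N4, u, v, h, ?_⟩, hs⟩
  rcases h.tri.s4 with h4 | h4 | h4
  · have h5 : (N.1 : ℝ) ≤ N4 := by exact_mod_cast h4
    exact (min_le_left _ _).trans (hs.n1.trans h5)
  · have h5 : (N.2.1 : ℝ) ≤ N4 := by exact_mod_cast h4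
    exact ((min_le_right _ _).trans (min_le_left _ _)).trans (hs.n2.trans h5)
  · have h5 : (N.2.2 : ℝ) ≤ N4 := by exact_mod_cast h4
    exact ((min_le_right _ _).trans (min_le_right _ _)).trans (hs.n3.trans h5)

theorem cnts : CntS := by
  obtain ⟨C, hC0, hC⟩ := PPF.fin QQ hyp (10 ^ 21) (by positivity) clb
    (PPW.avmJ PPS.core) (fun ε hε => PPW.avaJ hε)
  refine ⟨C, hC0, fun X hX S hS => hC X hX S ?_⟩
  intro q hq
  obtain ⟨-, D0, xp, x, r, N, N4, u, v, hD, h, -⟩ := hS q hq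
  exact ⟨D0, N, hD, xp, x, r, N4, u, v, h⟩

/-- THEOREM A*: the second moment of the 3-torsion is at most `C X` -/
theorem masf : ∃ C : ℝ, 0 < C ∧ ∀ X : ℝ, 1 ≤ X →
    ∑ᶠ K ∈ IQ ⌊X⌋₊, ((Nat.card {c : ClassGroup (𝓞 K) // c ^ 3 = 1} : ℝ)) ^ 2 ≤ C * X :=
  mas cnts

end Pool.Agent.PPC
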