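import Mathlib

/-!
# PPC/Cpd: products of prime powers

PROOF of `cpd`.  Induction on `P` (`Finset.induction_on`); `l ^ s l` is coprime to the product over the other primes
(`IsCoprime.prod_right`, `IsCoprime.pow`, different primes), `IsCoprime.mul_dvd`.
PROOF of `cpf`.  `|n| = ∏ l ^ (factorization l)` over the prime factors (`Nat.factorization_prod_pow_eq_self`), and the exponents at
the other primes of `P` are `0` (`Finset.prod_subset`).
-/

set_option autoImplicit false

namespace Pool.Agent.PPC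

theorem cpd (P : Finset ℕ) (hP : ∀ l ∈ P, l.Prime) (s : ℕ → ℕ) (n : ℤ)
    (h : ∀ l ∈ P, (l : ℤ) ^ s l ∣ n) : (∏ l ∈ P, (l : ℤ) ^ s l) ∣ n := by
  apply Finset.prod_dvd_of_coprime
  · intro a ha b hb hab
    have h1 : Nat.Coprime a b := (Nat.coprime_primes (hP a ha) (hP b hb)).2 hab
    have h2 : IsCoprime (a : ℤ) (b : ℤ) := Nat.isCoprime_iff_coprime.2 h1
    exact h2.pow
  · exact h

theorem cpf (P : Finset ℕ) (hP : ∀ l ∈ P, l.Prime) (n : ℤ) (hn : n ≠ 0)
    (h : ∀ l : ℕ, l.Prime → (l : ℤ) ∣ n → l ∈ P) :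
    (∏ l ∈ P, (l : ℝ) ^ (n.natAbs.factorization l)) = |(n : ℝ)| := by
  have h0 : n.natAbs ≠ 0 := Int.natAbs_ne_zero.2 hn
  have h1 := Nat.factorization_prod_pow_eq_self h0
  have hs : n.natAbs.factorization.support ⊆ P := by
    intro l hl
    have hl' : l ∈ n.natAbs.primeFactors := by
      rwa [Nat.support_factorization] at hl
    have hlp := Nat.prime_of_mem_primeFactors hl'
    have hld := Nat.dvd_of_mem_primeFactors hl'
    exact h l hlp (Int.natCast_dvd.2 hld)
  rw [Finsupp.prod_of_support_subset _ hs _ (fun i _ => pow_zero i)] at h1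
  have h2 : ((∏ l ∈ P, l ^ (n.natAbs.factorization l) : ℕ) : ℝ) = ((n.natAbs : ℕ) : ℝ) := by
    rw [h1]
  rw [Nat.cast_prod] at h2
  simp only [Nat.cast_pow] at h2
  rw [h2, Nat.cast_natAbs, Int.cast_abs]

end Pool.Agent.PPC
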