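import Pool.Agent.PPC.DefsB

/-! # PPC: the sets of keys -/

set_option autoImplicit false

namespace Pool.Agent.PPC

open Pool.Agent.SMQ

/-- the cube roots of `y2 / y1` modulo `a` -/
def Rts (a : ℕ) (y1 y2 : ℤ) : Finset ℕ :=
  (Finset.range a).filter (fun t : ℕ => (a : ℤ) ∣ (t : ℤ) ^ 3 * y1 - y2)

theorem rts_card (a : ℕ) (y1 y2 : ℤ) : (Rts a y1 y2).card = PPS.rr a y1 y2 := rfl

/-- the keys `(c, t)`: `c ≤ k`, `t` a cube root modulo `l ^ (k - 2 c)` -/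
def K0 (l k : ℕ) (y1 y2 : ℤ) : Finset (ℕ × ℕ) :=
  ((Finset.range (k + 1)) ×ˢ (Finset.range (l ^ k))).filter
    (fun j => j.2 ∈ Rts (l ^ (k - 2 * j.1)) y1 y2)

/-- the keys of L0b: type A with `c = 0`, type B with `c = 1` -/
def K2 (l : ℕ) (y1 y2 : ℤ) : Finset (ℕ × ℕ) :=
  (Rts (l ^ 2) y1 y2).image (fun t => (0, t)) ∪ (Rts l y2 y1).image (fun t => (1, t))

end Pool.Agent.PPC
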