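import Pool.Agent.PPC.Kcr

/-!
# PPC/Ktt: primes dividing `p` and `Δ`

PROOF of `kt1`.  `l ∣ g1`: `h.tri.t1.gc`.  `l ∣ Δ = y1 y2 y3 - p ^ 3`, so by `kd` (second part) `l ∣ y2 g3 ^ 3 - y3 g2 ^ 3`; as
`l ∤ y2`, `l ∤ y3`: `l ∣ g2` iff `l ∣ g3`; not both by `h.e1.ta`.
PROOF of `kt2`.  `h.e1.tb` gives `l ∤ G`, `l ^ 2 ∤ y1`, `l ^ 2 ∤ y2`, `l ∤ y3`, `l ∣ g1, g2, g3`.  `l ^ 2 ∣ y1 y2 y3` and
`l ^ 3 ∤ y1 y2 y3` (`y1 = l a`, `y2 = l b`, `l ∤ a b y3`), `l ^ 3 ∣ p ^ 3`: so `Ex l 2 Δ`.  If `Dv (l ^ 2) g`, then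
`N3 Δ = y3 g1 g2 - p g3 ^ 2` is divisible by `l ^ 4`; and `N1 Δ = y1 g2 g3 - p g1 ^ 2` is divisible by `l ^ 5`; as `l ^ 3 ∤ Δ`,
`l ^ 2 ∣ N1` (even `l ^ 3 ∣ N1`), which contradicts `h.e1.nn` (`l ∣ y1`).
-/

set_option autoImplicit false

namespace Pool.Agent.PPC

open Pool.Agent.SMQ

theorem kt1 (D0 G : ℕ) (p xp : ℤ) (x y g r : V3) (N : ℕ × ℕ × ℕ) (N4 : ℕ) (u v : V3)
    (h : Dt D0 G p xp x y g r N N4 u v) (l : ℕ) (hl : l.Prime) (hp : (l : ℤ) ∣ p)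
    (h1 : (l : ℤ) ∣ y.1) (h2 : ¬ (l : ℤ) ∣ y.2.1) (h3 : ¬ (l : ℤ) ∣ y.2.2) :
    (l : ℤ) ∣ g.1 ∧ ¬ (l : ℤ) ∣ g.2.1 ∧ ¬ (l : ℤ) ∣ g.2.2 := by
  have hpr : Prime (l : ℤ) := Nat.prime_iff_prime_int.1 hl
  have hg1 : (l : ℤ) ∣ g.1 := h.tri.t1.gc (l : ℤ) hp h1
  have hDe : (l : ℤ) ∣ De p y := by
    unfold De
    apply dvd_sub
    · exact Dvd.dvd.mul_right (Dvd.dvd.mul_right h1 _) _
    · exact dvd_trans hp (dvd_pow_self _ (by norm_num))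
  have hkd : (l : ℤ) ∣ y.2.1 * g.2.2 ^ 3 - y.2.2 * g.2.1 ^ 3 :=
    dvd_trans hDe (kd D0 G p xp x y g r N N4 u v h).2.1
  have hta := h.e1.ta l hl hp h1 h2 h3
  refine ⟨hg1, ?_, ?_⟩
  · intro hg2
    apply hta
    refine ⟨hg2, ?_⟩
    have e : (l : ℤ) ∣ y.2.1 * g.2.2 ^ 3 := by
      have h4 : (l : ℤ) ∣ y.2.2 * g.2.1 ^ 3 :=
        Dvd.dvd.mul_left (dvd_trans hg2 (dvd_pow_self _ (by norm_num))) _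
      have := dvd_add hkd h4
      rwa [sub_add_cancel] at this
    exact hpr.dvd_of_dvd_pow ((hpr.dvd_or_dvd e).resolve_left h2)
  · intro hg3
    apply hta
    refine ⟨?_, hg3⟩
    have e : (l : ℤ) ∣ y.2.2 * g.2.1 ^ 3 := by
      have h4 : (l : ℤ) ∣ y.2.1 * g.2.2 ^ 3 :=
        Dvd.dvd.mul_left (dvd_trans hg3 (dvd_pow_self _ (by norm_num))) _
      have := dvd_sub h4 hkd
      have e2 : y.2.1 * g.2.2 ^ 3 - (y.2.1 * g.2.2 ^ 3 - y.2.2 * g.2.1 ^ 3) = y.2.2 * g.2.1 ^ 3 := by ring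
      rwa [e2] at this
    exact hpr.dvd_of_dvd_pow ((hpr.dvd_or_dvd e).resolve_left h3)

theorem kt2 (D0 G : ℕ) (p xp : ℤ) (x y g r : V3) (N : ℕ × ℕ × ℕ) (N4 : ℕ) (u v : V3)
    (h : Dt D0 G p xp x y g r N N4 u v) (l : ℕ) (hl : l.Prime) (hp : (l : ℤ) ∣ p)
    (h1 : (l : ℤ) ∣ y.1) (h2 : (l : ℤ) ∣ y.2.1) :
    Ex l 2 (De p y) ∧ Dv (l : ℤ) g ∧ ¬ Dv ((l : ℤ) ^ 2) g := by
  have hpr : Prime (l : ℤ) := Nat.prime_iff_prime_int.1 hl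
  have hl0 : (l : ℤ) ≠ 0 := hpr.ne_zero
  obtain ⟨_, hy1, hy2, hy3, hg1, hg2, hg3⟩ := h.e1.tb l hl hp h1 h2
  obtain ⟨a, ha⟩ := h1
  obtain ⟨b, hb⟩ := h2
  obtain ⟨q, hq⟩ := hp
  have ha' : ¬ (l : ℤ) ∣ a := by
    rintro ⟨c, hc⟩
    apply hy1
    exact ⟨c, by rw [ha, hc]; ring⟩
  have hb' : ¬ (l : ℤ) ∣ b := by
    rintro ⟨c, hc⟩
    apply hy2
    exact ⟨c, by rw [hb, hc]; ring⟩
  have hDe : De p y = (l : ℤ) ^ 2 * (a * b * y.2.2 - l * q ^ 3) := by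
    unfold De
    rw [ha, hb, hq]
    ring
  have hm : ¬ (l : ℤ) ∣ a * b * y.2.2 - l * q ^ 3 := by
    intro hd
    have h4 : (l : ℤ) ∣ a * b * y.2.2 := by
      have := dvd_add hd (dvd_mul_right (l : ℤ) (q ^ 3))
      rwa [sub_add_cancel] at this
    rcases hpr.dvd_or_dvd h4 with h5 | h5
    · rcases hpr.dvd_or_dvd h5 with h6 | h6
      · exact ha' h6
      · exact hb' h6
    · exact hy3 h5
  refine ⟨⟨⟨_, hDe⟩, ?_⟩, ⟨hg1, hg2, hg3⟩, ?_⟩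
  · rintro ⟨c, hc⟩
    apply hm
    rw [hDe] at hc
    have h4 : (l : ℤ) ^ 2 * (a * b * y.2.2 - l * q ^ 3) = (l : ℤ) ^ 2 * (l * c) := by
      rw [hc]
      ring
    exact ⟨c, mul_left_cancel₀ (pow_ne_zero 2 hl0) h4⟩
  · rintro ⟨⟨g1, e1⟩, ⟨g2, e2⟩, ⟨g3, e3⟩⟩
    have hi := h.tri.t1.hi
    have hi' : (N.1 : ℤ) * De p y = y.1 * g.2.1 * g.2.2 - p * g.1 ^ 2 := hi
    rw [hDe, e1, e2, e3, hq, ha] at hi'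
    have h5 : (l : ℤ) ^ 2 * ((N.1 : ℤ) * (a * b * y.2.2 - l * q ^ 3))
        = (l : ℤ) ^ 2 * ((l : ℤ) ^ 3 * (a * g2 * g3 - q * g1 ^ 2)) := by
      calc (l : ℤ) ^ 2 * ((N.1 : ℤ) * (a * b * y.2.2 - l * q ^ 3))
          = (N.1 : ℤ) * ((l : ℤ) ^ 2 * (a * b * y.2.2 - l * q ^ 3)) := by ring
        _ = _ := by rw [hi']; ring
    have h6 := mul_left_cancel₀ (pow_ne_zero 2 hl0) h5
    have hcop : IsCoprime ((l : ℤ) ^ 3) (a * b * y.2.2 - l * q ^ 3) := by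
      apply IsCoprime.pow_left
      rw [Prime.coprime_iff_not_dvd hpr]
      exact hm
    have h7 : (l : ℤ) ^ 3 ∣ (N.1 : ℤ) := hcop.dvd_of_dvd_mul_right ⟨_, h6⟩
    have h8 : (l : ℤ) ^ 2 ∣ (N.1 : ℤ) := dvd_trans (pow_dvd_pow _ (by norm_num)) h7
    have h9 : l ^ 2 ∣ N.1 := by exact_mod_cast h8
    exact h.e1.nn l hl (Or.inr (Or.inr ⟨a, ha⟩)) h9

end Pool.Agent.PPC
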