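import Pool.Agent.PPC.DefsB
import Pool.Agent.SMQ.Cub

/-!
# PPC/Rrt: at most three cube roots modulo a prime power

PROOF.  `n = 0`: `range 1` has one element.  `n ≥ 1`: the map `t ↦ (t : ZMod (l ^ n))` is injective on
`range (l ^ n)`; if `l ^ n ∣ t ^ 3 y1 - y2` then `t` is a unit (`l ∤ y2`) and `t ^ 3 = y2 / y1` in `ZMod (l ^ n)` (`y1` is a
unit); use `SMQ.cub` with `a = y2 / y1`.
-/

set_option autoImplicit false

namespace Pool.Agent.PPC

open Pool.Agent.SMQ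

theorem rrt (l n : ℕ) (hl : l.Prime) (y1 y2 : ℤ) (h1 : ¬ (l : ℤ) ∣ y1) (h2 : ¬ (l : ℤ) ∣ y2) :
    PPS.rr (l ^ n) y1 y2 ≤ 3 := by
  classical
  rcases Nat.eq_zero_or_pos n with hn | hn
  · subst hn
    unfold PPS.rr
    refine le_trans (Finset.card_filter_le _ _) ?_
    simp
  haveI : NeZero (l ^ n) := ⟨pow_ne_zero n hl.ne_zero⟩
  have hunit : ∀ y : ℤ, ¬ (l : ℤ) ∣ y → IsUnit ((y : ℤ) : ZMod (l ^ n)) := by
    intro y hy
    rw [ZMod.coe_int_isUnit_iff_isCoprime]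
    have hp : Prime (l : ℤ) := Nat.prime_iff_prime_int.mp hl
    have := (Prime.coprime_iff_not_dvd hp).mpr hy
    push_cast
    exact this.pow_left
  have hu1 := hunit y1 h1
  have hu2 := hunit y2 h2
  obtain ⟨e, he⟩ := hu1
  have key := SMQ.cub l n hl hn ((y2 : ZMod (l ^ n)) * ((e⁻¹ : (ZMod (l ^ n))ˣ) : ZMod (l ^ n)))
  unfold PPS.rr
  refine le_trans ?_ key
  refine Finset.card_le_card_of_injOn (fun t : ℕ => (t : ZMod (l ^ n))) ?_ ?_
  · intro t ht
    simp only [Finset.coe_filter, Set.mem_setOf_eq, Finset.mem_range, Finset.mem_univ, true_and] at ht ⊢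
    obtain ⟨_, hd⟩ := ht
    have hz : (t : ZMod (l ^ n)) ^ 3 * (y1 : ZMod (l ^ n)) = (y2 : ZMod (l ^ n)) := by
      have := (ZMod.intCast_zmod_eq_zero_iff_dvd ((t : ℤ) ^ 3 * y1 - y2) (l ^ n)).mpr (by exact_mod_cast hd)
      push_cast at this
      exact sub_eq_zero.mp this
    constructor
    · have h3 : IsUnit ((t : ZMod (l ^ n)) ^ 3 * (y1 : ZMod (l ^ n))) := by rw [hz]; exact hu2
      have h4 := isUnit_of_mul_isUnit_left h3
      exact (isUnit_pow_iff (by norm_num)).mp h4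
    · rw [← hz, ← he, mul_assoc, Units.mul_inv, mul_one]
  · intro a ha b hb hab
    simp only [Finset.coe_filter, Set.mem_setOf_eq, Finset.mem_range] at ha hb
    have hab' : ((a : ℕ) : ZMod (l ^ n)) = ((b : ℕ) : ZMod (l ^ n)) := hab
    rw [ZMod.natCast_eq_natCast_iff'] at hab'
    rw [Nat.mod_eq_of_lt ha.1, Nat.mod_eq_of_lt hb.1] at hab'
    exact hab'

end Pool.Agent.PPC
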