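import Pool.Agent.PPC.DefsB

/-!
# PPC/Tky: the keys `t = w2 / w1` modulo `l ^ n`

PROOF of `tk_ex`.  `w1` is prime to `l ^ n`; let `a w1 = 1` modulo `l ^ n` (`IsCoprime`, `Int.emod_emod_of_dvd`) and
`t = (a w2) mod l ^ n` as a natural number.  `t w1 = w2` modulo `l ^ n`.  `t ^ 3 y1 w1 ^ 3 = y1 w2 ^ 3 = y2 w1 ^ 3`, and
`w1 ^ 3` is prime to `l ^ n`.
PROOF of `tk_par`.  Trivial for `n = 0`.  Modulo `l ^ n` (`n ≥ 1`): `w2 = t w1`, so `l ∤ t`.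
`p w1 ^ 2 = y1 w2 w3 = y1 t w1 w3`, so `y1 t w3 = p w1` (`w1` is a unit); similarly `y1 t w3' = p w1'`.
`w1 w2' - w2 w1' = w1 t w1' - t w1 w1' = 0`.
`y1 t (w3 w1' - w1 w3') = p w1 w1' - w1 p w1' = 0` and `y1 t` is a unit.
`w2 w3' - w3 w2' = t (w1 w3' - w3 w1') = 0`.
-/

set_option autoImplicit false

namespace Pool.Agent.PPC

open Pool.Agent.SMQ

private lemma tky_cop (l n : ℕ) (hl : l.Prime) (w : ℤ) (hw : ¬ (l : ℤ) ∣ w) :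
    IsCoprime ((l : ℤ) ^ n) w := by
  have hp : Prime (l : ℤ) := Nat.prime_iff_prime_int.mp hl
  exact IsCoprime.pow_left ((Prime.coprime_iff_not_dvd hp).mpr hw)

theorem tk_ex (l n : ℕ) (hl : l.Prime) (y1 y2 w1 w2 : ℤ) (hw : ¬ (l : ℤ) ∣ w1)
    (h : (l : ℤ) ^ n ∣ y1 * w2 ^ 3 - y2 * w1 ^ 3) :
    ∃ t : ℕ, t < l ^ n ∧ (l : ℤ) ^ n ∣ t * w1 - w2 ∧ (l : ℤ) ^ n ∣ (t : ℤ) ^ 3 * y1 - y2 := by
  have hc := tky_cop l n hl w1 hw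
  obtain ⟨b, a, hab⟩ := hc
  -- b * l^n + a * w1 = 1
  have hlpos : (0 : ℤ) < (l : ℤ) ^ n := by
    have := hl.pos
    positivity
  have hr0 : 0 ≤ (a * w2) % ((l : ℤ) ^ n) := Int.emod_nonneg _ hlpos.ne'
  have hr1 : (a * w2) % ((l : ℤ) ^ n) < (l : ℤ) ^ n := Int.emod_lt_of_pos _ hlpos
  obtain ⟨t, ht⟩ := Int.eq_ofNat_of_zero_le hr0
  have hd := Int.emod_add_mul_ediv (a * w2) ((l : ℤ) ^ n)
  rw [ht] at hd hr1
  set c := (a * w2) / ((l : ℤ) ^ n) with hcdef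
  have h1 : (l : ℤ) ^ n ∣ (t : ℤ) * w1 - w2 := by
    refine ⟨-(c * w1) - b * w2, ?_⟩
    have e1 : (t : ℤ) = a * w2 - (l : ℤ) ^ n * c := by linarith
    have e2 : a * w1 = 1 - b * (l : ℤ) ^ n := by linarith
    rw [e1]
    linear_combination w2 * e2
  refine ⟨t, by exact_mod_cast hr1, h1, ?_⟩
  have hc3 : IsCoprime ((l : ℤ) ^ n) (w1 ^ 3) := (tky_cop l n hl w1 hw).pow_right
  apply hc3.dvd_of_dvd_mul_right
  obtain ⟨d, hd1⟩ := h1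
  obtain ⟨e, he⟩ := h
  refine ⟨y1 * d * ((t : ℤ) ^ 2 * w1 ^ 2 + t * w1 * w2 + w2 ^ 2) + e, ?_⟩
  linear_combination (y1 * ((t : ℤ) ^ 2 * w1 ^ 2 + t * w1 * w2 + w2 ^ 2)) * hd1 + he

theorem tk_par (l n : ℕ) (hl : l.Prime) (t : ℕ) (p y1 w1 w2 w3 w1' w2' w3' : ℤ)
    (hy : ¬ (l : ℤ) ∣ y1) (h1 : ¬ (l : ℤ) ∣ w1) (h2 : ¬ (l : ℤ) ∣ w2)
    (h1' : ¬ (l : ℤ) ∣ w1') (h2' : ¬ (l : ℤ) ∣ w2')
    (ht : (l : ℤ) ^ n ∣ t * w1 - w2) (ht' : (l : ℤ) ^ n ∣ t * w1' - w2')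
    (hm : (l : ℤ) ^ n ∣ y1 * w2 * w3 - p * w1 ^ 2)
    (hm' : (l : ℤ) ^ n ∣ y1 * w2' * w3' - p * w1' ^ 2) :
    (l : ℤ) ^ n ∣ w1 * w2' - w2 * w1' ∧ (l : ℤ) ^ n ∣ w2 * w3' - w3 * w2' ∧
      (l : ℤ) ^ n ∣ w3 * w1' - w1 * w3' := by
  have hp : Prime (l : ℤ) := Nat.prime_iff_prime_int.mp hl
  rcases Nat.eq_zero_or_pos n with h0 | h0
  · subst h0
    simp
  have hlt : ¬ (l : ℤ) ∣ (t : ℤ) := by
    intro h
    apply h2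
    have e1 : (l : ℤ) ∣ t * w1 - w2 := dvd_trans (dvd_pow_self _ h0.ne') ht
    have e2 : (l : ℤ) ∣ t * w1 := Dvd.dvd.mul_right h _
    have := dvd_sub e2 e1
    simpa using this
  obtain ⟨a, ha⟩ := ht
  obtain ⟨a', ha'⟩ := ht'
  obtain ⟨b, hb⟩ := hm
  obtain ⟨b', hb'⟩ := hm'
  -- A: l^n | y1 t w3 - p w1
  have A : (l : ℤ) ^ n ∣ y1 * t * w3 - p * w1 := by
    apply (tky_cop l n hl w1 h1).dvd_of_dvd_mul_left
    refine ⟨y1 * w3 * a + b, ?_⟩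
    linear_combination (y1 * w3) * ha + hb
  have A' : (l : ℤ) ^ n ∣ y1 * t * w3' - p * w1' := by
    apply (tky_cop l n hl w1' h1').dvd_of_dvd_mul_left
    refine ⟨y1 * w3' * a' + b', ?_⟩
    linear_combination (y1 * w3') * ha' + hb'
  have B : (l : ℤ) ^ n ∣ w1 * w2' - w2 * w1' := by
    refine ⟨w1' * a - w1 * a', ?_⟩
    linear_combination w1' * ha - w1 * ha'
  have C : (l : ℤ) ^ n ∣ w3 * w1' - w1 * w3' := by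
    have hyt : ¬ (l : ℤ) ∣ y1 * t := by
      intro h
      rcases hp.dvd_or_dvd h with h | h
      · exact hy h
      · exact hlt h
    apply (tky_cop l n hl (y1 * t) hyt).dvd_of_dvd_mul_left
    obtain ⟨c, hc⟩ := A
    obtain ⟨c', hc'⟩ := A'
    refine ⟨c * w1' - c' * w1, ?_⟩
    linear_combination w1' * hc - w1 * hc'
  refine ⟨B, ?_, C⟩
  obtain ⟨d, hd⟩ := C
  refine ⟨-(t * d) - a * w3' + a' * w3, ?_⟩
  linear_combination (-(t : ℤ)) * hd - w3' * ha + w3 * ha'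

end Pool.Agent.PPC
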