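import Pool.Agent.PPC.Lca
import Pool.Agent.PPC.DefsC
import Pool.Agent.PPC.Tky
import Pool.Agent.PPC.Ktt
import Pool.Agent.PPC.Rrt

/-!
# PPC/Lpo: primes dividing `p` and `Δ`

PROOF of `lpo`.  For `w = (g, u, v) ∈ Wi G p y`: `kt1`: `l ∣ g1`, `l ∤ g2`, `l ∤ g3`, so `¬ Dv l g`.  `kd` (second part): `l ^ k ∣ Δ`
divides `y2 g3 ^ 3 - y3 g2 ^ 3`, so `tk_ex` with `(y1, y2, w1, w2) := (y2, y3, g2, g3)`, `n = k`, gives `t ∈ Rts (l ^ k) y2 y3` with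
`l ^ k ∣ t g2 - g3`.  `lca` with `K = (Rts (l ^ k) y2 y3).image (fun t => (0, t))`, `m = k` (constant).  `hc`: `tk_par` with
`(p, y1, w1, w2, w3) := (p, y2, g2, g3, g1)`; `hm`: `N2 Δ = y2 g3 g1 - p g2 ^ 2` (`h.tri.t2.hi`) is divisible by `l ^ k`.
The bounds: `card ≤ 3` (`rrt`), `l ^ k / l ^ (0 + k) = 1`, `l ^ (2 k) / l ^ (0 + 2 k) = 1`.
PROOF of `lpt`.  If `Wi G p y` is empty: `lc_empty`.  Otherwise `kt2` gives `Ex l 2 (De p y)`, so `k = 2` (compare with `hk`).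
`lca` with `K = {(1, 0)}`, constant `key`, `m = 0`: `h1` from `kt2`; `hc`: `g'` and `g` are divisible by `l`, so `cr g' g` by `l ^ 2`.
The bounds: `1 ≤ 3 l`, `l ^ 2 / l ^ 1 = l`, `l ^ 4 / l ^ 3 = l`.
-/

set_option autoImplicit false

namespace Pool.Agent.PPC

open Pool.Agent.SMQ

private theorem lpo_a (G : ℕ) (p : ℤ) (y : V3) (l k : ℕ) (hl : l.Prime) (hp : (l : ℤ) ∣ p)
    (h1 : (l : ℤ) ∣ y.1) (h2 : ¬ (l : ℤ) ∣ y.2.1) (h3 : ¬ (l : ℤ) ∣ y.2.2)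
    (hk : Ex l k (De p y)) (w : W3) (hw : w ∈ Wi G p y) :
    ¬ (l : ℤ) ∣ w.1.2.1 ∧ ¬ (l : ℤ) ∣ w.1.2.2 ∧ dt w.2.1 w.1 = 0 ∧ dt w.2.2 w.1 = 0 ∧
      (l : ℤ) ^ k ∣ y.2.1 * w.1.2.2 * w.1.1 - p * w.1.2.1 ^ 2 ∧
      ∃ t : ℕ, t < l ^ k ∧ (l : ℤ) ^ k ∣ t * w.1.2.1 - w.1.2.2 ∧
        (l : ℤ) ^ k ∣ (t : ℤ) ^ 3 * y.2.1 - y.2.2 := by
  obtain ⟨D0, xp, x, r, N, N4, h⟩ := hw
  obtain ⟨-, hg2, hg3⟩ := kt1 D0 G p xp x y w.1 r N N4 w.2.1 w.2.2 h l hl hp h1 h2 h3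
  obtain ⟨-, hu, hv⟩ := kcr D0 G p xp x y w.1 r N N4 w.2.1 w.2.2 h
  obtain ⟨-, hd, -⟩ := kd D0 G p xp x y w.1 r N N4 w.2.1 w.2.2 h
  refine ⟨hg2, hg3, hu, hv, ?_, tk_ex l k hl y.2.1 y.2.2 w.1.2.1 w.1.2.2 hg2 (hk.1.trans hd)⟩
  have h5 := h.tri.t2.hi
  rw [← h5]
  have h6 : y.2.1 * y.2.2 * y.1 - p ^ 3 = De p y := by
    unfold De
    ring
  rw [h6]
  exact hk.1.mul_left _

private theorem lpo_k (l k : ℕ) (n : ℤ) (h : Ex l k n) (h2 : Ex l 2 n) : k = 2 := by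
  rcases lt_trichotomy k 2 with h3 | h3 | h3
  · exact absurd ((pow_dvd_pow (l : ℤ) (show k + 1 ≤ 2 by omega)).trans h2.1) h.2
  · exact h3
  · exact absurd ((pow_dvd_pow (l : ℤ) (show 2 + 1 ≤ k by omega)).trans h.1) h2.2

theorem lpo (G : ℕ) (p : ℤ) (y : V3) (l k : ℕ) (hl : l.Prime) (hp : (l : ℤ) ∣ p)
    (h1 : (l : ℤ) ∣ y.1) (h2 : ¬ (l : ℤ) ∣ y.2.1) (h3 : ¬ (l : ℤ) ∣ y.2.2)
    (hk : Ex l k (De p y)) : Lc l k (Wi G p y) 3 3 3 := by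
  classical
  have hfact := lpo_a G p y l k hl hp h1 h2 h3 hk
  set P : W3 → ℕ → Prop := fun w t => t < l ^ k ∧ (l : ℤ) ^ k ∣ t * w.1.2.1 - w.1.2.2 ∧
    (l : ℤ) ^ k ∣ (t : ℤ) ^ 3 * y.2.1 - y.2.2 with hP
  set τ : W3 → ℕ := fun w => if h : ∃ t, P w t then h.choose else 0 with hτ
  have hτs : ∀ w ∈ Wi G p y, P w (τ w) := by
    intro w hw
    have h5 : ∃ t, P w t := (hfact w hw).2.2.2.2.2
    have h6 : τ w = h5.choose := dif_pos h5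
    rw [h6]
    exact h5.choose_spec
  have hl0 : (l : ℝ) ≠ 0 := by exact_mod_cast hl.ne_zero
  have hmain := lca l k hl (Wi G p y) ((Rts (l ^ k) y.2.1 y.2.2).image (fun t => (0, t)))
    (fun w => (0, τ w)) (fun _ => k) (by
      intro w hw
      obtain ⟨h5, -, h6⟩ := hτs w hw
      refine Finset.mem_image_of_mem _ ?_
      unfold Rts
      rw [Finset.mem_filter, Finset.mem_range]
      refine ⟨h5, ?_⟩
      push_cast
      exact h6) (fun w hw => ⟨(hfact w hw).2.2.1, (hfact w hw).2.2.2.1⟩) (by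
      intro w hw
      dsimp only
      refine ⟨⟨by simp, by simp, by simp⟩, ?_⟩
      rintro ⟨-, h6, -⟩
      rw [zero_add, pow_one] at h6
      exact (hfact w hw).1 h6) (by
      intro w hw w' hw' he
      have he' : τ w = τ w' := (Prod.ext_iff.1 he).2
      obtain ⟨a1, a2, -, -, a3, -⟩ := hfact w hw
      obtain ⟨b1, b2, -, -, b3, -⟩ := hfact w' hw'
      have a4 := (hτs w hw).2.1
      have b4 := (hτs w' hw').2.1
      rw [← he'] at b4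
      have h7 := tk_par l k hl (τ w) p y.2.1 w'.1.2.1 w'.1.2.2 w'.1.1 w.1.2.1 w.1.2.2 w.1.1
        h2 b1 b2 a1 a2 b4 a4 b3 a3
      dsimp only
      rw [mul_zero, zero_add]
      exact h7)
  have hcard : (((Rts (l ^ k) y.2.1 y.2.2).image (fun t => ((0 : ℕ), t))).card : ℝ) ≤ 3 := by
    have h5 : (Rts (l ^ k) y.2.1 y.2.2).card ≤ 3 := by
      rw [rts_card]
      exact rrt l k hl y.2.1 y.2.2 h2 h3
    exact_mod_cast Finset.card_image_le.trans h5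
  have hone : ∀ (a b : ℕ), a = b → (l : ℝ) ^ a / (l : ℝ) ^ b = 1 := by
    rintro a b rfl
    exact div_self (pow_ne_zero _ hl0)
  refine lc_mono l k _ _ _ _ 3 3 3 hmain hcard ?_ ?_
  · rw [Finset.sum_congr rfl (g := fun _ => (1 : ℝ))]
    · rw [Finset.sum_const, nsmul_eq_mul, mul_one]
      exact hcard
    · intro j hj
      obtain ⟨t, -, rfl⟩ := Finset.mem_image.1 hj
      exact hone _ _ (by simp)
  · rw [Finset.sum_congr rfl (g := fun _ => (1 : ℝ))]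
    · rw [Finset.sum_const, nsmul_eq_mul, mul_one]
      exact hcard
    · intro j hj
      obtain ⟨t, -, rfl⟩ := Finset.mem_image.1 hj
      exact hone _ _ (by simp)

theorem lpt (G : ℕ) (p : ℤ) (y : V3) (l k : ℕ) (hl : l.Prime) (hp : (l : ℤ) ∣ p)
    (h1 : (l : ℤ) ∣ y.1) (h2 : (l : ℤ) ∣ y.2.1) (hk : Ex l k (De p y)) :
    Lc l k (Wi G p y) (3 * l) (3 * l) (3 * l) := by
  have hl1 : (1 : ℝ) ≤ l := by exact_mod_cast hl.one_le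
  have hl0 : (l : ℝ) ≠ 0 := by positivity
  have h3l : (0 : ℝ) ≤ 3 * l := by linarith
  by_cases hW : Wi G p y = ∅
  · exact lc_empty l k _ hW _ _ _ h3l h3l h3l
  obtain ⟨w0, hw0⟩ := Set.nonempty_iff_ne_empty.2 hW
  have hfact : ∀ w ∈ Wi G p y, Ex l 2 (De p y) ∧ Dv (l : ℤ) w.1 ∧ ¬ Dv ((l : ℤ) ^ 2) w.1 ∧
      dt w.2.1 w.1 = 0 ∧ dt w.2.2 w.1 = 0 := by
    rintro w ⟨D0, xp, x, r, N, N4, h⟩
    obtain ⟨a1, a2, a3⟩ := kt2 D0 G p xp x y w.1 r N N4 w.2.1 w.2.2 h l hl hp h1 h2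
    obtain ⟨-, hu, hv⟩ := kcr D0 G p xp x y w.1 r N N4 w.2.1 w.2.2 h
    exact ⟨a1, a2, a3, hu, hv⟩
  have hk2 : k = 2 := lpo_k l k _ hk (hfact w0 hw0).1
  subst hk2
  have hmain := lca l 2 hl (Wi G p y) {(1, 0)} (fun _ => (1, 0)) (fun _ => 0)
    (fun w _ => Finset.mem_singleton_self _)
    (fun w hw => ⟨(hfact w hw).2.2.2.1, (hfact w hw).2.2.2.2⟩) (by
      intro w hw
      dsimp only
      rw [pow_one]
      exact ⟨(hfact w hw).2.1, (hfact w hw).2.2.1⟩) (by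
      intro w hw w' hw' _
      obtain ⟨a1, a2, a3⟩ := (hfact w hw).2.1
      obtain ⟨b1, b2, b3⟩ := (hfact w' hw').2.1
      have hmul : ∀ {a b : ℤ}, (l : ℤ) ∣ a → (l : ℤ) ∣ b → (l : ℤ) ^ (2 * 1 + 0) ∣ a * b := by
        intro a b ha hb
        rw [mul_one, add_zero, pow_two]
        exact mul_dvd_mul ha hb
      exact ⟨dvd_sub (hmul b2 a3) (hmul b3 a2), dvd_sub (hmul b3 a1) (hmul b1 a3),
        dvd_sub (hmul b1 a2) (hmul b2 a1)⟩)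
  refine lc_mono l 2 _ _ _ _ _ _ _ hmain ?_ ?_ ?_
  · rw [Finset.card_singleton]
    push_cast
    linarith
  · rw [Finset.sum_singleton]
    dsimp only
    rw [add_zero, pow_one, pow_two, mul_div_assoc, div_self hl0, mul_one]
    linarith
  · rw [Finset.sum_singleton]
    dsimp only
    have h5 : (l : ℝ) ^ (2 * 2) / (l : ℝ) ^ (3 * 1 + 2 * 0) = l := by
      rw [div_eq_iff (pow_ne_zero _ hl0)]
      ring
    rw [h5]
    linarith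

end Pool.Agent.PPC
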