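import Pool.Agent.PPC.DefsB

/-!
# PPC/Kab: primes `l ≥ 5` with `l ∤ G p`, `l ∣ gcd g`

Put `D = D0 G ^ 2`.  `l ∤ p`, `l ∣ Δ`, so `l ∤ y1 y2 y3` (`l ∣ yᵢ` would give `l ∣ p ^ 3`).
PROOF of `kab2`.  By `rel2` (index `i`) `l ∣ yᵢ xp - xᵢ p`, so modulo `l`:
`4 Nᵢ ^ 3 p ^ 2 = (xᵢ ^ 2 + D yᵢ ^ 2) p ^ 2 = yᵢ ^ 2 (xp ^ 2 + D p ^ 2) = yᵢ ^ 2 4 N1 N2 N3` (`ny`, `np`).  If `l` divides one of
the `N`'s then `l` divides the right side, so `l ∣ Nᵢ` (`l ∤ 2 p`).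
PROOF of `kab3` (`l ∣ N1, N2, N3` implies `l ^ 3 ∣ Δ`).  (a) `l ∤ D0`: otherwise `xp ^ 2 = 4 N1 N2 N3 - D p ^ 2` gives `l ∣ xp`,
`l ^ 2 ∣ xp ^ 2`, `l ^ 3 ∣ N1 N2 N3`, so `l ^ 2 ∣ D0 (G p) ^ 2`, `l ^ 2 ∣ D0` (`l ∤ G p`), against `dq` (`l ≠ 2`).  So `l ∤ D`.
(b) Modulo `l ^ 3`: `xᵢ ^ 2 = - D yᵢ ^ 2`, `xp ^ 2 = - D p ^ 2`; so `(xᵢ p - xp yᵢ) (xᵢ p + xp yᵢ) = 0`.  The first factor is
divisible by `l` (`rel2`), the sum of the two factors is `2 xᵢ p`, a unit (`xᵢ ^ 2 = - D yᵢ ^ 2` is a unit), so the second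
factor is a unit and `l ^ 3 ∣ xᵢ p - xp yᵢ`.
(c) `h.i1` times `p ^ 2` modulo `l ^ 3`: `3 xp ^ 2 y1 y2 y3 = 3 xp ^ 2 p ^ 3 + D p ^ 2 Δ`, so `(3 xp ^ 2 - D p ^ 2) Δ = 0`, and
`3 xp ^ 2 - D p ^ 2 = - 4 D p ^ 2` is a unit; so `l ^ 3 ∣ Δ`.
PROOF of `kab`.  If `l` divides one of the `Nᵢ`, it divides all (`kab2`) and `l ^ 3 ∣ Δ` (`kab3`), against `h3`.  So `l` divides
no `Nᵢ`.  `l ^ 2 ∣ N1 Δ` (`h.tri.t1.hi`), so `l ^ 2 ∣ Δ`.  If `Dv (l ^ 2) g` then `l ^ 4 ∣ N1 Δ`, `l ^ 4 ∣ Δ`, against `h3`.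
-/

set_option autoImplicit false

namespace Pool.Agent.PPC

open Pool.Agent.SMQ

private theorem kab_a (l : ℕ) (hl : l.Prime) (h2 : ¬ (l : ℤ) ∣ 2) (D N1 N2 N3 p xp x1 y1 g1 : ℤ)
    (ny : 4 * N1 ^ 3 = x1 ^ 2 + D * y1 ^ 2) (np : 4 * (N1 * N2 * N3) = xp ^ 2 + D * p ^ 2)
    (rel2 : 2 * (N1 * g1) = y1 * xp - x1 * p) (hp : ¬ (l : ℤ) ∣ p) (hg : (l : ℤ) ∣ g1)
    (hN : (l : ℤ) ∣ N1 * N2 * N3) : (l : ℤ) ∣ N1 := by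
  have hlp : Prime (l : ℤ) := Nat.prime_iff_prime_int.1 hl
  have e : 4 * N1 ^ 3 * p ^ 2 = y1 ^ 2 * (4 * (N1 * N2 * N3)) - 4 * y1 * xp * N1 * g1 +
      4 * N1 ^ 2 * g1 * g1 := by
    rw [ny, np]
    linear_combination (x1 * p + y1 * xp - 2 * N1 * g1) * rel2
  have e2 : (l : ℤ) ∣ 4 * N1 ^ 3 * p ^ 2 := by
    rw [e]
    exact dvd_add (dvd_sub ((hN.mul_left 4).mul_left _) (hg.mul_left _)) (hg.mul_left _)
  have e3 : (l : ℤ) ∣ N1 ^ 3 := by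
    rcases hlp.dvd_or_dvd e2 with h | h
    · rcases hlp.dvd_or_dvd h with h' | h'
      · exfalso
        have : (4 : ℤ) = 2 * 2 := by norm_num
        rw [this] at h'
        rcases hlp.dvd_or_dvd h' with h'' | h'' <;> exact h2 h''
      · exact h'
    · exact absurd (hlp.dvd_of_dvd_pow h) hp
  exact hlp.dvd_of_dvd_pow e3

private theorem kab_2 (l G : ℕ) (hl : l.Prime) (h6 : ¬ l ∣ 6 * G) :
    ¬ (l : ℤ) ∣ 2 ∧ ¬ l ∣ G ∧ l ≠ 2 := by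
  refine ⟨?_, fun h => h6 (h.mul_left 6), ?_⟩
  · intro h
    apply h6
    have h' : l ∣ 2 := by exact_mod_cast h
    exact (h'.mul_left 3).mul_right G
  · rintro rfl
    exact h6 (Dvd.dvd.mul_right (by norm_num) G)

theorem kab2 (D0 G : ℕ) (p xp : ℤ) (x y g r : V3) (N : ℕ × ℕ × ℕ) (N4 : ℕ) (u v : V3)
    (h : Dt D0 G p xp x y g r N N4 u v) (l : ℕ) (hl : l.Prime) (h6 : ¬ l ∣ 6 * G)
    (hp : ¬ (l : ℤ) ∣ p) (hg : Dv (l : ℤ) g) (hN : l ∣ N.1 * N.2.1 * N.2.2) :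
    l ∣ N.1 ∧ l ∣ N.2.1 ∧ l ∣ N.2.2 := by
  obtain ⟨h2, -, -⟩ := kab_2 l G hl h6
  obtain ⟨g1, g2, g3⟩ := hg
  have hN' : (l : ℤ) ∣ (N.1 : ℤ) * N.2.1 * N.2.2 := by exact_mod_cast hN
  have hnp := h.np
  refine ⟨?_, ?_, ?_⟩
  · have := kab_a l hl h2 ((D0 : ℤ) * G ^ 2) N.1 N.2.1 N.2.2 p xp x.1 y.1 g.1
      (by rw [h.e1.ny]; ring) (by rw [hnp]; ring) h.e1.rel2 hp g1 hN'
    exact_mod_cast this
  · have := kab_a l hl h2 ((D0 : ℤ) * G ^ 2) N.2.1 N.2.2 N.1 p xp x.2.1 y.2.1 g.2.1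
      (by rw [h.e2.ny]; ring) (by linear_combination hnp) h.e2.rel2 hp g2
      (by
        have e : (N.2.1 : ℤ) * N.2.2 * N.1 = (N.1 : ℤ) * N.2.1 * N.2.2 := by ring
        rw [e]
        exact hN')
    exact_mod_cast this
  · have := kab_a l hl h2 ((D0 : ℤ) * G ^ 2) N.2.2 N.1 N.2.1 p xp x.2.2 y.2.2 g.2.2
      (by rw [h.e3.ny]; ring) (by linear_combination hnp) h.e3.rel2 hp g3
      (by
        have e : (N.2.2 : ℤ) * N.1 * N.2.1 = (N.1 : ℤ) * N.2.1 * N.2.2 := by ring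
        rw [e]
        exact hN')
    exact_mod_cast this

/-- `l ^ 3 ∣ xᵢ p - xp yᵢ` -/
private theorem kab_b (l : ℕ) (hl : l.Prime) (h2 : ¬ (l : ℤ) ∣ 2) (D N1 N2 N3 p xp x1 y1 g1 : ℤ)
    (ny : 4 * N1 ^ 3 = x1 ^ 2 + D * y1 ^ 2) (np : 4 * (N1 * N2 * N3) = xp ^ 2 + D * p ^ 2)
    (rel2 : 2 * (N1 * g1) = y1 * xp - x1 * p) (hp : ¬ (l : ℤ) ∣ p) (hD : ¬ (l : ℤ) ∣ D)
    (hy : ¬ (l : ℤ) ∣ y1) (h1 : (l : ℤ) ∣ N1) (hN : (l : ℤ) ^ 3 ∣ N1 * N2 * N3) :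
    (l : ℤ) ^ 3 ∣ x1 * p - xp * y1 := by
  have hlp : Prime (l : ℤ) := Nat.prime_iff_prime_int.1 hl
  have hN1 : (l : ℤ) ^ 3 ∣ N1 ^ 3 := pow_dvd_pow_of_dvd h1 3
  have e : (l : ℤ) ^ 3 ∣ (x1 * p - xp * y1) * (x1 * p + xp * y1) := by
    have e1 : (x1 * p - xp * y1) * (x1 * p + xp * y1) =
        p ^ 2 * (4 * N1 ^ 3) - y1 ^ 2 * (4 * (N1 * N2 * N3)) := by
      rw [ny, np]
      ring
    rw [e1]
    exact dvd_sub ((hN1.mul_left 4).mul_left _) ((hN.mul_left 4).mul_left _)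
  have hx : ¬ (l : ℤ) ∣ x1 := by
    intro hx
    have e1 : (l : ℤ) ∣ D * y1 ^ 2 := by
      have e2 : D * y1 ^ 2 = 4 * N1 ^ 3 - x1 * x1 := by rw [ny]; ring
      rw [e2]
      exact dvd_sub ((h1.pow (by norm_num)).mul_left 4) (hx.mul_left _)
    rcases hlp.dvd_or_dvd e1 with h | h
    · exact hD h
    · exact hy (hlp.dvd_of_dvd_pow h)
  have hf : (l : ℤ) ∣ x1 * p - xp * y1 := by
    have e1 : x1 * p - xp * y1 = N1 * (-(2 * g1)) := by linear_combination rel2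
    rw [e1]
    exact h1.mul_right _
  have hs : ¬ (l : ℤ) ∣ x1 * p + xp * y1 := by
    intro hs
    have e1 : (l : ℤ) ∣ 2 * (x1 * p) := by
      have e2 : 2 * (x1 * p) = (x1 * p - xp * y1) + (x1 * p + xp * y1) := by ring
      rw [e2]
      exact dvd_add hf hs
    rcases hlp.dvd_or_dvd e1 with h | h
    · exact h2 h
    · rcases hlp.dvd_or_dvd h with h' | h'
      · exact hx h'
      · exact hp h'
  exact ((hlp.coprime_iff_not_dvd.2 hs).pow_left (m := 3)).dvd_of_dvd_mul_right e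

theorem kab3 (D0 G : ℕ) (p xp : ℤ) (x y g r : V3) (N : ℕ × ℕ × ℕ) (N4 : ℕ) (u v : V3)
    (h : Dt D0 G p xp x y g r N N4 u v) (l : ℕ) (hl : l.Prime) (h6 : ¬ l ∣ 6 * G)
    (hp : ¬ (l : ℤ) ∣ p) (hd : (l : ℤ) ∣ De p y) (hg : Dv (l : ℤ) g) (h1 : l ∣ N.1)
    (h2 : l ∣ N.2.1) (h4 : l ∣ N.2.2) : (l : ℤ) ^ 3 ∣ De p y := by
  have hlp : Prime (l : ℤ) := Nat.prime_iff_prime_int.1 hl
  obtain ⟨l2, lG, ln2⟩ := kab_2 l G hl h6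
  have h1' : (l : ℤ) ∣ (N.1 : ℤ) := by exact_mod_cast h1
  have h2' : (l : ℤ) ∣ (N.2.1 : ℤ) := by exact_mod_cast h2
  have h4' : (l : ℤ) ∣ (N.2.2 : ℤ) := by exact_mod_cast h4
  have hN : (l : ℤ) ^ 3 ∣ (N.1 : ℤ) * N.2.1 * N.2.2 := by
    have e : (l : ℤ) ^ 3 = l * l * l := by ring
    rw [e]
    exact mul_dvd_mul (mul_dvd_mul h1' h2') h4'
  have hnp := h.np
  have lG' : ¬ (l : ℤ) ∣ (G : ℤ) := by exact_mod_cast lG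
  have hGp : ¬ (l : ℤ) ∣ (G : ℤ) * p := by
    intro hh
    rcases hlp.dvd_or_dvd hh with h' | h'
    · exact lG' h'
    · exact hp h'
  have hD0 : ¬ l ∣ D0 := by
    intro hD
    have hD' : (l : ℤ) ∣ (D0 : ℤ) := by exact_mod_cast hD
    have hx : (l : ℤ) ∣ xp ^ 2 := by
      have e : xp ^ 2 = 4 * ((N.1 : ℤ) * N.2.1 * N.2.2) - D0 * (G * p) ^ 2 := by rw [hnp]; ring
      rw [e]
      exact dvd_sub (((h1'.mul_right _).mul_right _).mul_left 4) (hD'.mul_right _)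
    have hx2 : (l : ℤ) ^ 2 ∣ xp ^ 2 := pow_dvd_pow_of_dvd (hlp.dvd_of_dvd_pow hx) 2
    have hD2 : (l : ℤ) ^ 2 ∣ D0 * (G * p) ^ 2 := by
      have e : (D0 : ℤ) * (G * p) ^ 2 = 4 * ((N.1 : ℤ) * N.2.1 * N.2.2) - xp ^ 2 := by
        rw [hnp]; ring
      rw [e]
      exact dvd_sub (((pow_dvd_pow _ (by norm_num)).trans hN).mul_left 4) hx2
    have hc : IsCoprime ((l : ℤ) ^ 2) (((G : ℤ) * p) ^ 2) :=
      (hlp.coprime_iff_not_dvd.2 hGp).pow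
    have : (l : ℤ) ^ 2 ∣ (D0 : ℤ) := hc.dvd_of_dvd_mul_right hD2
    exact h.dq l hl ln2 (by exact_mod_cast this)
  have hD : ¬ (l : ℤ) ∣ (D0 : ℤ) * G ^ 2 := by
    intro hh
    rcases hlp.dvd_or_dvd hh with h' | h'
    · exact hD0 (by exact_mod_cast h')
    · exact lG' (hlp.dvd_of_dvd_pow h')
  have hyy : ¬ (l : ℤ) ∣ y.1 * y.2.1 * y.2.2 := by
    intro hh
    apply hp
    have e : p ^ 3 = y.1 * y.2.1 * y.2.2 - De p y := by unfold De; ring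
    have : (l : ℤ) ∣ p ^ 3 := by
      rw [e]
      exact dvd_sub hh hd
    exact hlp.dvd_of_dvd_pow this
  have y1 : ¬ (l : ℤ) ∣ y.1 := fun hh => hyy ((hh.mul_right _).mul_right _)
  have y2 : ¬ (l : ℤ) ∣ y.2.1 := fun hh => hyy ((hh.mul_left _).mul_right _)
  have y3 : ¬ (l : ℤ) ∣ y.2.2 := fun hh => hyy (hh.mul_left _)
  have k1 := kab_b l hl l2 ((D0 : ℤ) * G ^ 2) N.1 N.2.1 N.2.2 p xp x.1 y.1 g.1
    (by rw [h.e1.ny]; ring) (by rw [hnp]; ring) h.e1.rel2 hp hD y1 h1' hN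
  have k2 := kab_b l hl l2 ((D0 : ℤ) * G ^ 2) N.2.1 N.2.2 N.1 p xp x.2.1 y.2.1 g.2.1
    (by rw [h.e2.ny]; ring) (by linear_combination hnp) h.e2.rel2 hp hD y2 h2'
    (by
      have e : (N.2.1 : ℤ) * N.2.2 * N.1 = (N.1 : ℤ) * N.2.1 * N.2.2 := by ring
      rw [e]
      exact hN)
  have k3 := kab_b l hl l2 ((D0 : ℤ) * G ^ 2) N.2.2 N.1 N.2.1 p xp x.2.2 y.2.2 g.2.2
    (by rw [h.e3.ny]; ring) (by linear_combination hnp) h.e3.rel2 hp hD y3 h4'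
    (by
      have e : (N.2.2 : ℤ) * N.1 * N.2.1 = (N.1 : ℤ) * N.2.1 * N.2.2 := by ring
      rw [e]
      exact hN)
  have hfin : (l : ℤ) ^ 3 ∣ (3 * xp ^ 2 - (D0 : ℤ) * G ^ 2 * p ^ 2) * De p y := by
    obtain ⟨a, ha⟩ := k1
    obtain ⟨b, hb⟩ := k2
    obtain ⟨c, hc⟩ := k3
    have hi := h.i1
    have hDe : De p y = y.1 * y.2.1 * y.2.2 - p ^ 3 := rfl
    rw [hDe] at hi ⊢
    refine ⟨-(y.2.2 * (xp * y.1 * b + a * x.2.1 * p) + y.1 * (xp * y.2.1 * c + b * x.2.2 * p) +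
      y.2.1 * (xp * y.2.2 * a + c * x.1 * p)), ?_⟩
    linear_combination p ^ 2 * hi - (y.2.2 * x.2.1 * p + y.2.1 * y.2.2 * xp) * ha -
      (y.2.2 * xp * y.1 + y.1 * x.2.2 * p) * hb - (y.1 * xp * y.2.1 + y.2.1 * x.1 * p) * hc
  have hu : ¬ (l : ℤ) ∣ 3 * xp ^ 2 - (D0 : ℤ) * G ^ 2 * p ^ 2 := by
    intro hh
    have e : 4 * ((D0 : ℤ) * G ^ 2 * p ^ 2) =
        3 * (4 * ((N.1 : ℤ) * N.2.1 * N.2.2)) - (3 * xp ^ 2 - (D0 : ℤ) * G ^ 2 * p ^ 2) := by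
      rw [hnp]; ring
    have e2 : (l : ℤ) ∣ 4 * ((D0 : ℤ) * G ^ 2 * p ^ 2) := by
      rw [e]
      exact dvd_sub ((((h1'.mul_right _).mul_right _).mul_left 4).mul_left 3) hh
    rcases hlp.dvd_or_dvd e2 with h' | h'
    · have e4 : (4 : ℤ) = 2 * 2 := by norm_num
      rw [e4] at h'
      rcases hlp.dvd_or_dvd h' with h'' | h'' <;> exact l2 h''
    · rcases hlp.dvd_or_dvd h' with h'' | h''
      · exact hD h''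
      · exact hp (hlp.dvd_of_dvd_pow h'')
  exact ((hlp.coprime_iff_not_dvd.2 hu).pow_left (m := 3)).dvd_of_dvd_mul_left hfin

theorem kab (D0 G : ℕ) (p xp : ℤ) (x y g r : V3) (N : ℕ × ℕ × ℕ) (N4 : ℕ) (u v : V3)
    (h : Dt D0 G p xp x y g r N N4 u v) (l : ℕ) (hl : l.Prime) (h6 : ¬ l ∣ 6 * G)
    (hp : ¬ (l : ℤ) ∣ p) (hd : (l : ℤ) ∣ De p y) (hg : Dv (l : ℤ) g)
    (h3 : ¬ (l : ℤ) ^ 3 ∣ De p y) :
    (l : ℤ) ^ 2 ∣ De p y ∧ ¬ Dv ((l : ℤ) ^ 2) g ∧ ¬ l ∣ N.1 ∧ ¬ l ∣ N.2.1 ∧ ¬ l ∣ N.2.2 := by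
  have hlp : Prime (l : ℤ) := Nat.prime_iff_prime_int.1 hl
  have hn : ¬ l ∣ N.1 * N.2.1 * N.2.2 := by
    intro hN
    obtain ⟨a1, a2, a3⟩ := kab2 D0 G p xp x y g r N N4 u v h l hl h6 hp hg hN
    exact h3 (kab3 D0 G p xp x y g r N N4 u v h l hl h6 hp hd hg a1 a2 a3)
  have n1 : ¬ l ∣ N.1 := fun hh => hn ((hh.mul_right _).mul_right _)
  have n2 : ¬ l ∣ N.2.1 := fun hh => hn ((hh.mul_left _).mul_right _)
  have n3 : ¬ l ∣ N.2.2 := fun hh => hn (hh.mul_left _)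
  have hc : IsCoprime (l : ℤ) (N.1 : ℤ) :=
    hlp.coprime_iff_not_dvd.2 (by exact_mod_cast n1)
  have hi : (N.1 : ℤ) * De p y = y.1 * g.2.1 * g.2.2 - p * g.1 ^ 2 := h.tri.t1.hi
  obtain ⟨g1, g2, g3⟩ := hg
  refine ⟨?_, ?_, n1, n2, n3⟩
  · have e : (l : ℤ) ^ 2 ∣ N.1 * De p y := by
      rw [hi]
      obtain ⟨a, ha⟩ := g1
      obtain ⟨b, hb⟩ := g2
      obtain ⟨c, hc⟩ := g3
      rw [ha, hb, hc]
      exact ⟨y.1 * b * c - p * a ^ 2, by ring⟩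
    exact (hc.pow_left (m := 2)).dvd_of_dvd_mul_left e
  · rintro ⟨a1, a2, a3⟩
    apply h3
    have e : (l : ℤ) ^ 3 ∣ N.1 * De p y := by
      rw [hi]
      obtain ⟨a, ha⟩ := a1
      obtain ⟨b, hb⟩ := a2
      obtain ⟨c, hc⟩ := a3
      rw [ha, hb, hc]
      exact ⟨l * (y.1 * b * c - p * a ^ 2), by ring⟩
    exact (hc.pow_left (m := 3)).dvd_of_dvd_mul_left e

end Pool.Agent.PPC
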