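import Pool.Agent.PPC.Kcr

/-!
# PPC/Ktz: primes dividing `Δ`, not `p`

PROOF of `kty`.  `l ∣ yᵢ` would give `l ∣ y1 y2 y3`, `l ∣ p ^ 3`.
PROOF of `ktw`.  `Nᵢ Δ = yᵢ gⱼ gₖ - p gᵢ ^ 2 = l ^ (2 c) (yᵢ wⱼ wₖ - p wᵢ ^ 2)` (`hi` of `h.tri.t1`, `t2`, `t3`) is divisible by
`l ^ k`.  If `2 c ≤ k` cancel `l ^ (2 c)`; otherwise `k - 2 c = 0`.
PROOF of `ktu`.  If `l ∣ w1`, the second congruence gives `l ∣ w2`, the third `l ∣ w3`; if `l ∣ w2`: the first gives `l ∣ w1`, the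
third `l ∣ w3`; if `l ∣ w3`: the first gives `l ∣ w1`, the second `l ∣ w2`; always a contradiction to `¬ Dv l w`.
`w3 (y1 w2 ^ 3 - y2 w1 ^ 3) = w2 ^ 2 (y1 w2 w3 - p w1 ^ 2) - w1 ^ 2 (y2 w3 w1 - p w2 ^ 2)` is divisible by `l ^ n`, and `w3` is a
unit.
-/

set_option autoImplicit false

namespace Pool.Agent.PPC

open Pool.Agent.SMQ

theorem kty (l : ℕ) (hl : l.Prime) (p : ℤ) (y : V3) (hp : ¬ (l : ℤ) ∣ p)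
    (hd : (l : ℤ) ∣ De p y) : ¬ (l : ℤ) ∣ y.1 ∧ ¬ (l : ℤ) ∣ y.2.1 ∧ ¬ (l : ℤ) ∣ y.2.2 := by
  have hpr : Prime (l : ℤ) := Nat.prime_iff_prime_int.1 hl
  have key : ¬ (l : ℤ) ∣ y.1 * y.2.1 * y.2.2 := by
    intro h
    apply hp
    have h2 := dvd_sub h hd
    have e : y.1 * y.2.1 * y.2.2 - De p y = p ^ 3 := by
      unfold De
      ring
    rw [e] at h2
    exact hpr.dvd_of_dvd_pow h2
  refine ⟨fun h => key ?_, fun h => key ?_, fun h => key ?_⟩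
  · exact Dvd.dvd.mul_right (Dvd.dvd.mul_right h _) _
  · exact Dvd.dvd.mul_right (Dvd.dvd.mul_left h _) _
  · exact Dvd.dvd.mul_left h _

private theorem Ktz_cancel (l : ℕ) (hl : l.Prime) (k c : ℕ) (n a b : ℤ) (hk : (l : ℤ) ^ k ∣ a)
    (h : n * a = ((l : ℤ) ^ c * (l : ℤ) ^ c) * b) : (l : ℤ) ^ (k - 2 * c) ∣ b := by
  have hl0 : (l : ℤ) ≠ 0 := (Nat.prime_iff_prime_int.1 hl).ne_zero
  rcases Nat.lt_or_ge k (2 * c) with hlt | hge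
  · have : k - 2 * c = 0 := by omega
    rw [this, pow_zero]
    exact one_dvd _
  · obtain ⟨t, ht⟩ := hk
    have e : (l : ℤ) ^ k = ((l : ℤ) ^ c * (l : ℤ) ^ c) * (l : ℤ) ^ (k - 2 * c) := by
      rw [← pow_add, ← pow_add]
      congr 1
      omega
    have h2 : ((l : ℤ) ^ c * (l : ℤ) ^ c) * b = ((l : ℤ) ^ c * (l : ℤ) ^ c) * ((l : ℤ) ^ (k - 2 * c) * (n * t)) := by
      rw [← h, ht, e]
      ring
    exact ⟨n * t, mul_left_cancel₀ (mul_ne_zero (pow_ne_zero _ hl0) (pow_ne_zero _ hl0)) h2⟩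

theorem ktw (D0 G : ℕ) (p xp : ℤ) (x y g r : V3) (N : ℕ × ℕ × ℕ) (N4 : ℕ) (u v : V3)
    (h : Dt D0 G p xp x y g r N N4 u v) (l : ℕ) (hl : l.Prime) (k c : ℕ)
    (hk : (l : ℤ) ^ k ∣ De p y) (w : V3)
    (hw : g = ((l : ℤ) ^ c * w.1, (l : ℤ) ^ c * w.2.1, (l : ℤ) ^ c * w.2.2)) :
    (l : ℤ) ^ (k - 2 * c) ∣ y.1 * w.2.1 * w.2.2 - p * w.1 ^ 2 ∧
      (l : ℤ) ^ (k - 2 * c) ∣ y.2.1 * w.2.2 * w.1 - p * w.2.1 ^ 2 ∧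
      (l : ℤ) ^ (k - 2 * c) ∣ y.2.2 * w.1 * w.2.1 - p * w.2.2 ^ 2 := by
  have g1 : g.1 = (l : ℤ) ^ c * w.1 := by rw [hw]
  have g2 : g.2.1 = (l : ℤ) ^ c * w.2.1 := by rw [hw]
  have g3 : g.2.2 = (l : ℤ) ^ c * w.2.2 := by rw [hw]
  refine ⟨?_, ?_, ?_⟩
  · apply Ktz_cancel l hl k c (N.1 : ℤ) (De p y) _ hk
    have e : (N.1 : ℤ) * De p y = y.1 * g.2.1 * g.2.2 - p * g.1 ^ 2 := h.tri.t1.hi
    rw [e, g1, g2, g3]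
    ring
  · apply Ktz_cancel l hl k c (N.2.1 : ℤ) (De p y) _ hk
    have e : (N.2.1 : ℤ) * De p y = y.2.1 * g.2.2 * g.1 - p * g.2.1 ^ 2 := by
      rw [← h.tri.t2.hi]
      unfold De
      ring
    rw [e, g1, g2, g3]
    ring
  · apply Ktz_cancel l hl k c (N.2.2 : ℤ) (De p y) _ hk
    have e : (N.2.2 : ℤ) * De p y = y.2.2 * g.1 * g.2.1 - p * g.2.2 ^ 2 := by
      rw [← h.tri.t3.hi]
      unfold De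
      ring
    rw [e, g1, g2, g3]
    ring

private theorem Ktz_sq (l : ℕ) (hl : l.Prime) (p a w : ℤ) (hp : ¬ (l : ℤ) ∣ p)
    (ha : (l : ℤ) ∣ a) (h : (l : ℤ) ∣ a - p * w ^ 2) : (l : ℤ) ∣ w := by
  have hpr : Prime (l : ℤ) := Nat.prime_iff_prime_int.1 hl
  have h2 := dvd_sub ha h
  rw [sub_sub_cancel] at h2
  exact hpr.dvd_of_dvd_pow ((hpr.dvd_or_dvd h2).resolve_left hp)

theorem ktu (l n : ℕ) (hl : l.Prime) (hn : 1 ≤ n) (p : ℤ) (y w : V3) (hp : ¬ (l : ℤ) ∣ p)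
    (hw : ¬ Dv (l : ℤ) w)
    (h1 : (l : ℤ) ^ n ∣ y.1 * w.2.1 * w.2.2 - p * w.1 ^ 2)
    (h2 : (l : ℤ) ^ n ∣ y.2.1 * w.2.2 * w.1 - p * w.2.1 ^ 2)
    (h3 : (l : ℤ) ^ n ∣ y.2.2 * w.1 * w.2.1 - p * w.2.2 ^ 2) :
    ¬ (l : ℤ) ∣ w.1 ∧ ¬ (l : ℤ) ∣ w.2.1 ∧ ¬ (l : ℤ) ∣ w.2.2 ∧
      (l : ℤ) ^ n ∣ y.1 * w.2.1 ^ 3 - y.2.1 * w.1 ^ 3 := by
  have hpr : Prime (l : ℤ) := Nat.prime_iff_prime_int.1 hl
  have hln : (l : ℤ) ∣ (l : ℤ) ^ n := dvd_pow_self _ (by omega)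
  have k1 := dvd_trans hln h1
  have k2 := dvd_trans hln h2
  have k3 := dvd_trans hln h3
  have a1 : ¬ (l : ℤ) ∣ w.1 := by
    intro a
    have b : (l : ℤ) ∣ w.2.1 := Ktz_sq l hl p _ _ hp (Dvd.dvd.mul_left a _) k2
    have c : (l : ℤ) ∣ w.2.2 := Ktz_sq l hl p _ _ hp (Dvd.dvd.mul_left b _) k3
    exact hw ⟨a, b, c⟩
  have a2 : ¬ (l : ℤ) ∣ w.2.1 := by
    intro b
    apply a1
    exact Ktz_sq l hl p _ _ hp (Dvd.dvd.mul_right (Dvd.dvd.mul_left b _) _) k1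
  have a3 : ¬ (l : ℤ) ∣ w.2.2 := by
    intro c
    apply a1
    exact Ktz_sq l hl p _ _ hp (Dvd.dvd.mul_left c _) k1
  refine ⟨a1, a2, a3, ?_⟩
  have hcop : IsCoprime ((l : ℤ) ^ n) w.2.2 := by
    apply IsCoprime.pow_left
    rw [Prime.coprime_iff_not_dvd hpr]
    exact a3
  have e : w.2.2 * (y.1 * w.2.1 ^ 3 - y.2.1 * w.1 ^ 3)
      = w.2.1 ^ 2 * (y.1 * w.2.1 * w.2.2 - p * w.1 ^ 2) - w.1 ^ 2 * (y.2.1 * w.2.2 * w.1 - p * w.2.1 ^ 2) := by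
    ring
  have h4 : (l : ℤ) ^ n ∣ w.2.2 * (y.1 * w.2.1 ^ 3 - y.2.1 * w.1 ^ 3) := by
    rw [e]
    exact dvd_sub (Dvd.dvd.mul_left h1 _) (Dvd.dvd.mul_left h2 _)
  exact hcop.dvd_of_dvd_mul_left h4

end Pool.Agent.PPC
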