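import Pool.Agent.PPC.Lca
import Pool.Agent.PPC.DefsC
import Pool.Agent.PPC.Tky
import Pool.Agent.PPC.Ktz
import Pool.Agent.PPC.Kab

/-!
# PPC/Lza: primes `l ∤ 6 G p` with `l ∥ Δ`

PROOF.  `yᵢ` are units (`kty`).  For `w = (g, u, v) ∈ Wi G p y`: `¬ Dv l g` (`kab`: otherwise `l ^ 2 ∣ Δ`; `l ^ 3 ∤ Δ` as
`l ^ 2 ∤ Δ`).  `ktw`, `ktu` with `k = 1`, `c = 0`, `g = a`: `g1, g2, g3` are units and `l ∣ y1 g2 ^ 3 - y2 g1 ^ 3`; `tk_ex` with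
`n = 1` gives `t ∈ Rts l y1 y2` with `l ∣ t g1 - g2`.  `lca` with `K = (Rts l y1 y2).image (fun t => (0, t))`, `m = 1` (constant):
`hc` from `tk_par`.  The three bounds are `card (Rts l y1 y2) = rr l y1 y2`, `l / l = 1`, `l ^ 2 / l ^ 2 = 1`.
-/

set_option autoImplicit false

namespace Pool.Agent.PPC

open Pool.Agent.SMQ

private theorem lza_uv (D G : ℕ) (p : ℤ) (y g : V3) (N : ℕ × ℕ × ℕ) (N4 : ℕ) (u v : V3)
    (h : Tri D G p y g N N4 u v) : dt u g = 0 ∧ dt v g = 0 := by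
  have hG : (G : ℤ) ≠ 0 := by
    have := h.hG
    exact_mod_cast (by omega : G ≠ 0)
  have c1 := h.t1.cr
  have c2 := h.t2.cr
  have c3 := h.t3.cr
  constructor
  · have : (G : ℤ) * dt u g = 0 := by
      unfold dt
      linear_combination u.1 * c1 + u.2.1 * c2 + u.2.2 * c3
    exact (mul_eq_zero.mp this).resolve_left hG
  · have : (G : ℤ) * dt v g = 0 := by
      unfold dt
      linear_combination v.1 * c1 + v.2.1 * c2 + v.2.2 * c3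
    exact (mul_eq_zero.mp this).resolve_left hG

theorem lza (G : ℕ) (p : ℤ) (y : V3) (l : ℕ) (hl : l.Prime) (h6 : ¬ l ∣ 6 * G)
    (hp : ¬ (l : ℤ) ∣ p) (hk : Ex l 1 (De p y)) :
    Lc l 1 (Wi G p y) ((PPS.rr l y.1 y.2.1 : ℕ) : ℝ) ((PPS.rr l y.1 y.2.1 : ℕ) : ℝ)
      ((PPS.rr l y.1 y.2.1 : ℕ) : ℝ) := by
  classical
  have hd : (l : ℤ) ∣ De p y := by simpa using hk.1
  have hd2 : ¬ (l : ℤ) ^ 2 ∣ De p y := hk.2
  have hd3 : ¬ (l : ℤ) ^ 3 ∣ De p y := fun h => hd2 (dvd_trans (pow_dvd_pow _ (by norm_num)) h)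
  obtain ⟨hy1, hy2, hy3⟩ := kty l hl p y hp hd
  have nDv : ∀ w ∈ Wi G p y, ¬ Dv (l : ℤ) w.1 := by
    rintro w ⟨D0, xp, x, r, N, N4, h⟩ hg
    exact hd2 (kab D0 G p xp x y w.1 r N N4 w.2.1 w.2.2 h l hl h6 hp hd hg hd3).1
  have cong : ∀ w ∈ Wi G p y,
      (l : ℤ) ^ 1 ∣ y.1 * w.1.2.1 * w.1.2.2 - p * w.1.1 ^ 2 ∧
      (l : ℤ) ^ 1 ∣ y.2.1 * w.1.2.2 * w.1.1 - p * w.1.2.1 ^ 2 ∧
      (l : ℤ) ^ 1 ∣ y.2.2 * w.1.1 * w.1.2.1 - p * w.1.2.2 ^ 2 := by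
    rintro w ⟨D0, xp, x, r, N, N4, h⟩
    have := ktw D0 G p xp x y w.1 r N N4 w.2.1 w.2.2 h l hl 1 0 hk.1 w.1 (by simp)
    simpa using this
  have units : ∀ w ∈ Wi G p y, ¬ (l : ℤ) ∣ w.1.1 ∧ ¬ (l : ℤ) ∣ w.1.2.1 ∧ ¬ (l : ℤ) ∣ w.1.2.2 ∧
      (l : ℤ) ^ 1 ∣ y.1 * w.1.2.1 ^ 3 - y.2.1 * w.1.1 ^ 3 := by
    intro w hw
    obtain ⟨c1, c2, c3⟩ := cong w hw
    exact ktu l 1 hl le_rfl p y w.1 hp (nDv w hw) c1 c2 c3
  have ext : ∀ w : W3, w ∈ Wi G p y → ∃ t : ℕ, t < l ^ 1 ∧ (l : ℤ) ^ 1 ∣ t * w.1.1 - w.1.2.1 ∧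
      (l : ℤ) ^ 1 ∣ (t : ℤ) ^ 3 * y.1 - y.2.1 := by
    intro w hw
    obtain ⟨u1, u2, u3, u4⟩ := units w hw
    exact tk_ex l 1 hl y.1 y.2.1 w.1.1 w.1.2.1 u1 u4
  choose! t ht1 ht2 ht3 using ext
  have hL := lca l 1 hl (Wi G p y) ((Rts l y.1 y.2.1).image (fun t => ((0 : ℕ), t)))
    (fun w => (0, t w)) (fun _ => 1) ?_ ?_ ?_ ?_
  · have hcard : ((Rts l y.1 y.2.1).image (fun t => ((0 : ℕ), t))).card = PPS.rr l y.1 y.2.1 := by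
      rw [← rts_card]
      exact Finset.card_image_of_injective _ (fun a b hab => by simpa using hab)
    have hl0 : (l : ℝ) ≠ 0 := by
      exact_mod_cast hl.ne_zero
    refine lc_mono l 1 _ _ _ _ _ _ _ hL ?_ ?_ ?_
    · rw [hcard]
    · have : ∀ j ∈ (Rts l y.1 y.2.1).image (fun t => ((0 : ℕ), t)),
          (l : ℝ) ^ 1 / (l : ℝ) ^ (j.1 + 1) = 1 := by
        intro j hj
        obtain ⟨a, _, rfl⟩ := Finset.mem_image.mp hj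
        simp [hl0]
      rw [Finset.sum_congr rfl this, Finset.sum_const, hcard]
      simp
    · have : ∀ j ∈ (Rts l y.1 y.2.1).image (fun t => ((0 : ℕ), t)),
          (l : ℝ) ^ (2 * 1) / (l : ℝ) ^ (3 * j.1 + 2 * 1) = 1 := by
        intro j hj
        obtain ⟨a, _, rfl⟩ := Finset.mem_image.mp hj
        simp [hl0]
      rw [Finset.sum_congr rfl this, Finset.sum_const, hcard]
      simp
  · intro w hw
    refine Finset.mem_image.mpr ⟨t w, ?_, rfl⟩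
    unfold Rts
    rw [Finset.mem_filter, Finset.mem_range]
    exact ⟨by simpa using ht1 w hw, by simpa using ht3 w hw⟩
  · rintro w ⟨D0, xp, x, r, N, N4, h⟩
    exact lza_uv _ _ _ _ _ _ _ _ _ h.tri
  · intro w hw
    refine ⟨by simp [Dv], ?_⟩
    simpa using nDv w hw
  · intro w hw w' hw' hkey
    have hkey' : t w = t w' := by simpa using hkey
    obtain ⟨u1, u2, u3, u4⟩ := units w hw
    obtain ⟨u1', u2', u3', u4'⟩ := units w' hw'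
    have := tk_par l 1 hl (t w) p y.1 w'.1.1 w'.1.2.1 w'.1.2.2 w.1.1 w.1.2.1 w.1.2.2 hy1
      u1' u2' u1 u2 (by rw [hkey']; exact ht2 w' hw') (ht2 w hw) (cong w' hw').1 (cong w hw).1
    obtain ⟨a1, a2, a3⟩ := this
    refine ⟨?_, ?_, ?_⟩
    · simpa [cr] using a2
    · simpa [cr] using a3
    · simpa [cr] using a1

end Pool.Agent.PPC
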