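import Pool.Agent.PPC.DefsB

/-!
# PPC/Kcr: first consequences of `Dt`

PROOF of `kcr`: the fields `cr` of `h.tri.t1`, `t2`, `t3` are the three equations (`cr u v` is the cross product);
`G * dt u g = dt u (cr u v) = 0` (`ring`) and `G ≥ 1` (`h.tri.hG`).
PROOF of `kev`: modulo 4: `x1 ^ 2 + D y1 ^ 2 = 0`, `x2 ^ 2 + D y2 ^ 2 = 0`.  If all of `x1, x2` are even, done.  If `x1` is odd then
`D y1 ^ 2 = 3` modulo 4, so `y1` is odd, `D = 3` modulo 4, and then `x2 = y2` modulo 2, `y1 x2 - y2 x1 = x2 - y2 = 0`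
modulo 2.  (Or: `Int.emod_emod_of_dvd` and a finite check: `decide` over `ZMod 4`.)
PROOF of `kd`: `h.e1.kk : 2 (y1 g2 ^ 3 - y2 g1 ^ 3) = Δ (y1 x2 - y2 x1)` and `kev` (with `D = D0 G ^ 2` and the fields `ny`):
`y1 x2 - y2 x1 = 2 z`, cancel `2`.  The same with `e2` and `e3`.
PROOF of `kex`: `g ≠ 0`: otherwise `N1 Δ = 0` (`h.tri.t1.hi`).  So some coordinate `z` of `g` is not `0` and
`l ^ n ∤ z` for large `n`; take the smallest `n` with `¬ Dv (l ^ n) g` (`Nat.find`); it is `c + 1`.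
PROOF of `ka0`: `h.tri.ka` with `n = l ^ c`: `l ^ c ∣ p ^ 2 Δ`, `l ∤ p`, so `l ^ c ∣ Δ`; if `c ≥ k + 1` this contradicts `hk`.
-/

set_option autoImplicit false

namespace Pool.Agent.PPC

open Pool.Agent.SMQ

private theorem kev4 : ∀ D x1 x2 y1 y2 : ZMod 4, x1 ^ 2 + D * y1 ^ 2 = 0 → x2 ^ 2 + D * y2 ^ 2 = 0 →
    2 * (y1 * x2 - y2 * x1) = 0 := by
  decide

theorem kcr (D0 G : ℕ) (p xp : ℤ) (x y g r : V3) (N : ℕ × ℕ × ℕ) (N4 : ℕ) (u v : V3)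
    (h : Dt D0 G p xp x y g r N N4 u v) :
    ((cr u v).1 = G * g.1 ∧ (cr u v).2.1 = G * g.2.1 ∧ (cr u v).2.2 = G * g.2.2) ∧
      dt u g = 0 ∧ dt v g = 0 := by
  have h1 := h.tri.t1.cr
  have h2 := h.tri.t2.cr
  have h3 := h.tri.t3.cr
  have hG : (G : ℤ) ≠ 0 := by
    have := h.tri.hG
    omega
  refine ⟨⟨h1.symm, h2.symm, h3.symm⟩, ?_, ?_⟩
  · have e : (G : ℤ) * dt u g = 0 := by
      have e1 : (G : ℤ) * dt u g = u.1 * (G * g.1) + u.2.1 * (G * g.2.1) + u.2.2 * (G * g.2.2) := by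
        unfold dt
        ring
      rw [e1, h1, h2, h3]
      ring
    exact (mul_eq_zero.1 e).resolve_left hG
  · have e : (G : ℤ) * dt v g = 0 := by
      have e1 : (G : ℤ) * dt v g = v.1 * (G * g.1) + v.2.1 * (G * g.2.1) + v.2.2 * (G * g.2.2) := by
        unfold dt
        ring
      rw [e1, h1, h2, h3]
      ring
    exact (mul_eq_zero.1 e).resolve_left hG

theorem kev (D N1 N2 x1 x2 y1 y2 : ℤ) (h1 : 4 * N1 ^ 3 = x1 ^ 2 + D * y1 ^ 2)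
    (h2 : 4 * N2 ^ 3 = x2 ^ 2 + D * y2 ^ 2) : 2 ∣ y1 * x2 - y2 * x1 := by
  have c4 : ((4 : ℤ) : ZMod 4) = 0 := by decide
  have e1 : ((x1 : ZMod 4)) ^ 2 + (D : ZMod 4) * (y1 : ZMod 4) ^ 2 = 0 := by
    have := congrArg (fun t : ℤ => (t : ZMod 4)) h1
    push_cast at this
    rw [← this]
    have : (4 : ZMod 4) = 0 := by decide
    rw [this, zero_mul]
  have e2 : ((x2 : ZMod 4)) ^ 2 + (D : ZMod 4) * (y2 : ZMod 4) ^ 2 = 0 := by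
    have := congrArg (fun t : ℤ => (t : ZMod 4)) h2
    push_cast at this
    rw [← this]
    have : (4 : ZMod 4) = 0 := by decide
    rw [this, zero_mul]
  have e3 := kev4 _ _ _ _ _ e1 e2
  have e4 : (((2 * (y1 * x2 - y2 * x1) : ℤ)) : ZMod 4) = 0 := by
    push_cast
    exact e3
  have e5 : ((4 : ℕ) : ℤ) ∣ 2 * (y1 * x2 - y2 * x1) := (ZMod.intCast_zmod_eq_zero_iff_dvd _ 4).1 e4
  obtain ⟨w, hw⟩ := e5
  refine ⟨w, ?_⟩
  push_cast at hw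
  linarith

private theorem kd1 (D0 G N1 N2 Δ x1 x2 y1 y2 g1 g2 : ℤ)
    (h1 : 4 * N1 ^ 3 = x1 ^ 2 + D0 * (G * y1) ^ 2) (h2 : 4 * N2 ^ 3 = x2 ^ 2 + D0 * (G * y2) ^ 2)
    (hk : 2 * (y1 * g2 ^ 3 - y2 * g1 ^ 3) = Δ * (y1 * x2 - y2 * x1)) :
    Δ ∣ y1 * g2 ^ 3 - y2 * g1 ^ 3 := by
  obtain ⟨z, hz⟩ := kev (D0 * G ^ 2) N1 N2 x1 x2 y1 y2 (by rw [h1]; ring) (by rw [h2]; ring)
  refine ⟨z, ?_⟩
  rw [hz] at hk
  linarith

theorem kd (D0 G : ℕ) (p xp : ℤ) (x y g r : V3) (N : ℕ × ℕ × ℕ) (N4 : ℕ) (u v : V3)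
    (h : Dt D0 G p xp x y g r N N4 u v) :
    De p y ∣ y.1 * g.2.1 ^ 3 - y.2.1 * g.1 ^ 3 ∧ De p y ∣ y.2.1 * g.2.2 ^ 3 - y.2.2 * g.2.1 ^ 3 ∧
      De p y ∣ y.2.2 * g.1 ^ 3 - y.1 * g.2.2 ^ 3 := by
  have a1 := h.e1.ny
  have a2 := h.e2.ny
  have a3 := h.e3.ny
  have k1 := h.e1.kk
  have k2 := h.e2.kk
  have k3 := h.e3.kk
  refine ⟨kd1 D0 G N.1 N.2.1 (De p y) x.1 x.2.1 y.1 y.2.1 g.1 g.2.1 a1 a2 ?_,
    kd1 D0 G N.2.1 N.2.2 (De p y) x.2.1 x.2.2 y.2.1 y.2.2 g.2.1 g.2.2 a2 a3 ?_,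
    kd1 D0 G N.2.2 N.1 (De p y) x.2.2 x.1 y.2.2 y.1 g.2.2 g.1 a3 a1 ?_⟩
  · rw [k1]
    unfold De
    ring
  · rw [k2]
    unfold De
    ring
  · rw [k3]
    unfold De
    ring

theorem kex (D0 G : ℕ) (p xp : ℤ) (x y g r : V3) (N : ℕ × ℕ × ℕ) (N4 : ℕ) (u v : V3)
    (h : Dt D0 G p xp x y g r N N4 u v) (l : ℕ) (hl : l.Prime) :
    ∃ c : ℕ, Dv ((l : ℤ) ^ c) g ∧ ¬ Dv ((l : ℤ) ^ (c + 1)) g := by
  classical
  have hl1 : 1 < l := hl.one_lt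
  have key : ∀ z : ℤ, z ≠ 0 → ∃ n : ℕ, ¬ (l : ℤ) ^ n ∣ z := by
    intro z hz
    refine ⟨z.natAbs, fun hd => ?_⟩
    have h1 : l ^ z.natAbs ∣ z.natAbs := by
      have := Int.natAbs_dvd_natAbs.2 hd
      rwa [Int.natAbs_pow, Int.natAbs_natCast] at this
    have h2 := Nat.le_of_dvd (Int.natAbs_pos.2 hz) h1
    have h3 : z.natAbs < l ^ z.natAbs := Nat.lt_pow_self hl1
    omega
  have hex : ∃ n : ℕ, ¬ Dv ((l : ℤ) ^ n) g := by
    by_cases c1 : g.1 = 0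
    · by_cases c2 : g.2.1 = 0
      · exfalso
        have hi := h.tri.t1.hi
        have hN := h.tri.t1.hN
        have hD := h.tri.hD
        rw [c1, c2] at hi
        have e : (N.1 : ℤ) * De p y = 0 := by
          unfold De
          rw [hi]
          ring
        rcases mul_eq_zero.1 e with h1 | h1
        · omega
        · exact hD h1
      · obtain ⟨n, hn⟩ := key _ c2
        exact ⟨n, fun hd => hn hd.2.1⟩
    · obtain ⟨n, hn⟩ := key _ c1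
      exact ⟨n, fun hd => hn hd.1⟩
  have h0 : Nat.find hex ≠ 0 := by
    intro h0
    have := Nat.find_spec hex
    rw [h0, pow_zero] at this
    exact this ⟨one_dvd _, one_dvd _, one_dvd _⟩
  refine ⟨Nat.find hex - 1, ?_, ?_⟩
  · have := Nat.find_min hex (m := Nat.find hex - 1) (by omega)
    exact not_not.1 this
  · have e : Nat.find hex - 1 + 1 = Nat.find hex := by omega
    rw [e]
    exact Nat.find_spec hex

theorem ka0 (D0 G : ℕ) (p xp : ℤ) (x y g r : V3) (N : ℕ × ℕ × ℕ) (N4 : ℕ) (u v : V3)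
    (h : Dt D0 G p xp x y g r N N4 u v) (l : ℕ) (hl : l.Prime) (hp : ¬ (l : ℤ) ∣ p) (k c : ℕ)
    (hk : Ex l k (De p y)) (hg : Dv ((l : ℤ) ^ c) g) : c ≤ k := by
  have h1 := h.tri.ka _ hg.1 hg.2.1 hg.2.2
  have hlp : Prime (l : ℤ) := Nat.prime_iff_prime_int.1 hl
  have hco : IsCoprime ((l : ℤ) ^ c) (p ^ 2) :=
    ((hlp.coprime_iff_not_dvd.2 hp).pow)
  have h2 : (l : ℤ) ^ c ∣ De p y := hco.dvd_of_dvd_mul_left h1
  by_contra hc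
  exact hk.2 ((pow_dvd_pow _ (by omega)).trans h2)

end Pool.Agent.PPC
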