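import Pool.Agent.PPC.DefsC
import Pool.Agent.PPC.Kcr
import Pool.Agent.PPC.Kab

/-!
# PPC/Kbb: the delicate type

PROOF of `kbt`.  `l` divides the coordinates of `cr u v = G g` (`kcr`), and `l ∤ N1, N2, N3` (`kab`).  By `q1` of `h.qf` and
`l ∤ N2 N3`, not both of `u1, v1` are divisible by `l`.  So there are integers `t` (`0 ≤ t < l`) and `s` with, modulo `l`,
`(u2, v2) = t (u1, v1)`, `(u3, v3) = s (u1, v1)` (e.g. if `l ∤ u1`: `t = u2 / u1`, and `u1 v2 = u2 v1`).  Put `n = N2 N3` (a unit).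
Modulo `l`: `q2`: `N3 N1 = t ^ 2 n`; `q3`: `N1 N2 = s ^ 2 n` (so `t`, `s` are units); `b1`: `r1 = 2 t s n`; `b2`: `r2 = 2 s n`.
`h.e1.rel5` with `l ∣ g1`: `2 n y1 = p r1 = 2 p t s n`, so `y1 = p t s`.  `h.e2.rel5`: `2 N3 N1 y2 = p r2`: `2 t ^ 2 n y2 = 2 p s n`, so
`t ^ 2 y2 = p s`.  Hence `t ^ 3 y2 = p t s = y1`, and `p t u3 = p t s u1 = y1 u1`, `p t v3 = y1 v1`.
PROOF of `kbm`.  `g' = l w'`.  Put `e = p t w1' + p t t w2' + y1 w3'`.  Modulo `l`: `p t (u'·w') = u1' e` and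
`p t (v'·w') = v1' e`; `u'·w' = v'·w' = 0`, and not both `u1', v1'` are `0`, so `l ∣ e`.  `p t (u·w') = u1 e = 0`, and `p t` is a unit
(`t ^ 3 y2 = y1`, `l ∤ y1`), so `l ∣ u·w'`, `l ^ 2 ∣ u·g'`; the same for `v`.
-/

set_option autoImplicit false

namespace Pool.Agent.PPC

open Pool.Agent.SMQ

/-- `(u, v)` is modulo `l` a multiple of `(p t, p t t, y1)` -/
def Kt (l t : ℕ) (p y1 : ℤ) (u v : V3) : Prop :=
  (l : ℤ) ∣ t * u.1 - u.2.1 ∧ (l : ℤ) ∣ t * v.1 - v.2.1 ∧ (l : ℤ) ∣ p * t * u.2.2 - y1 * u.1 ∧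
    (l : ℤ) ∣ p * t * v.2.2 - y1 * v.1 ∧ ¬ ((l : ℤ) ∣ u.1 ∧ (l : ℤ) ∣ v.1)

private theorem kbb_dvd (l : ℕ) (n : ℤ) : (l : ℤ) ∣ n ↔ ((n : ℤ) : ZMod l) = 0 :=
  (ZMod.intCast_zmod_eq_zero_iff_dvd n l).symm

/-- the algebra over a field -/
private theorem kbb_field {F : Type*} [Field F] (two : (2 : F) ≠ 0) (a b c p y1 y2 r1 r2 : F)
    (N1 N2 N3 u1 u2 u3 v1 v2 v3 : F) (n2 : N2 ≠ 0) (n3 : N3 ≠ 0)
    (c1 : u1 * v2 - u2 * v1 = 0) (c2 : u3 * v1 - u1 * v3 = 0)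
    (q1 : a * v1 ^ 2 + b * v1 * u1 + c * u1 ^ 2 = N2 * N3)
    (q2 : a * v2 ^ 2 + b * v2 * u2 + c * u2 ^ 2 = N3 * N1)
    (b1 : 2 * a * v2 * v3 + b * (v2 * u3 + u2 * v3) + 2 * c * u2 * u3 = r1)
    (b2 : 2 * a * v3 * v1 + b * (v3 * u1 + u3 * v1) + 2 * c * u3 * u1 = r2)
    (e1 : 2 * (N2 * N3 * y1) = p * r1) (e2 : 2 * (N3 * N1 * y2) = p * r2) :
    ∃ t : F, t ^ 3 * y2 - y1 = 0 ∧ t * u1 - u2 = 0 ∧ t * v1 - v2 = 0 ∧
      p * t * u3 - y1 * u1 = 0 ∧ p * t * v3 - y1 * v1 = 0 ∧ ¬ (u1 = 0 ∧ v1 = 0) := by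
  have hn : N2 * N3 ≠ 0 := mul_ne_zero n2 n3
  have hnot : ¬ (u1 = 0 ∧ v1 = 0) := by
    rintro ⟨h1, h2⟩
    apply hn
    rw [← q1, h1, h2]
    ring
  obtain ⟨t, s, hu2, hv2, hu3, hv3⟩ : ∃ t s : F, u2 = t * u1 ∧ v2 = t * v1 ∧ u3 = s * u1 ∧
      v3 = s * v1 := by
    by_cases hu : u1 = 0
    · have hv : v1 ≠ 0 := fun h => hnot ⟨hu, h⟩
      refine ⟨v2 / v1, v3 / v1, ?_, ?_, ?_, ?_⟩
      · field_simp
        linear_combination -c1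
      · field_simp
      · field_simp
        linear_combination c2
      · field_simp
    · refine ⟨u2 / u1, u3 / u1, ?_, ?_, ?_, ?_⟩
      · field_simp
      · field_simp
        linear_combination c1
      · field_simp
      · field_simp
        linear_combination -c2
  have t2 : t ^ 2 * (N2 * N3) = N3 * N1 := by
    rw [← q2, ← q1, hu2, hv2]
    ring
  have hr1 : r1 = 2 * (t * s) * (N2 * N3) := by
    rw [← b1, ← q1, hu2, hv2, hu3, hv3]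
    ring
  have hr2 : r2 = 2 * s * (N2 * N3) := by
    rw [← b2, ← q1, hu3, hv3]
    ring
  have hy1 : y1 = p * t * s := by
    have h0 : (2 * (N2 * N3)) * y1 = (2 * (N2 * N3)) * (p * t * s) := by
      rw [hr1] at e1
      linear_combination e1
    exact mul_left_cancel₀ (mul_ne_zero two hn) h0
  have hy2 : t ^ 2 * y2 = p * s := by
    have h0 : (2 * (N2 * N3)) * (t ^ 2 * y2) = (2 * (N2 * N3)) * (p * s) := by
      rw [hr2] at e2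
      linear_combination e2 + 2 * y2 * t2
    exact mul_left_cancel₀ (mul_ne_zero two hn) h0
  refine ⟨t, ?_, ?_, ?_, ?_, ?_, hnot⟩
  · rw [hy1]
    linear_combination t * hy2
  · rw [hu2]; ring
  · rw [hv2]; ring
  · rw [hy1, hu3]; ring
  · rw [hy1, hv3]; ring

theorem kbt (D0 G : ℕ) (p xp : ℤ) (x y g r : V3) (N : ℕ × ℕ × ℕ) (N4 : ℕ) (u v : V3)
    (h : Dt D0 G p xp x y g r N N4 u v) (l : ℕ) (hl : l.Prime) (h6 : ¬ l ∣ 6 * G)
    (hp : ¬ (l : ℤ) ∣ p) (hd : (l : ℤ) ∣ De p y) (hg : Dv (l : ℤ) g)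
    (h3 : ¬ (l : ℤ) ^ 3 ∣ De p y) : ∃ t ∈ Rts l y.2.1 y.1, Kt l t p y.1 u v := by
  have hfact : Fact l.Prime := ⟨hl⟩
  obtain ⟨-, -, -, k2, k3⟩ := kab D0 G p xp x y g r N N4 u v h l hl h6 hp hd hg h3
  obtain ⟨⟨w1, w2, w3⟩, -, -⟩ := kcr D0 G p xp x y g r N N4 u v h
  obtain ⟨a, b, c, hq⟩ := h.qf
  obtain ⟨g1, g2, g3⟩ := hg
  rw [kbb_dvd] at g1 g2 g3
  have two : (2 : ZMod l) ≠ 0 := by
    intro h2
    have h2' : ((2 : ℕ) : ZMod l) = 0 := by exact_mod_cast h2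
    rw [ZMod.natCast_eq_zero_iff] at h2'
    exact h6 (Dvd.dvd.mul_right (h2'.trans (by norm_num)) G)
  have n2 : ((N.2.1 : ℕ) : ZMod l) ≠ 0 := by
    rw [Ne, ZMod.natCast_eq_zero_iff]
    exact k2
  have n3 : ((N.2.2 : ℕ) : ZMod l) ≠ 0 := by
    rw [Ne, ZMod.natCast_eq_zero_iff]
    exact k3
  have cast : ∀ {m n : ℤ}, m = n → ((m : ℤ) : ZMod l) = ((n : ℤ) : ZMod l) := by
    intro m n hmn
    rw [hmn]
  have c1 : ((u.1 : ℤ) : ZMod l) * ((v.2.1 : ℤ) : ZMod l) -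
      ((u.2.1 : ℤ) : ZMod l) * ((v.1 : ℤ) : ZMod l) = 0 := by
    have := cast w3
    simp only [cr] at this
    push_cast at this
    rw [this, g3, mul_zero]
  have c2 : ((u.2.2 : ℤ) : ZMod l) * ((v.1 : ℤ) : ZMod l) -
      ((u.1 : ℤ) : ZMod l) * ((v.2.2 : ℤ) : ZMod l) = 0 := by
    have := cast w2
    simp only [cr] at this
    push_cast at this
    rw [this, g2, mul_zero]
  have q1 := cast hq.q1
  have q2 := cast hq.q2
  have b1 := cast hq.b1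
  have b2 := cast hq.b2
  have e1 := cast h.e1.rel5
  have e2 := cast h.e2.rel5
  push_cast at q1 q2 b1 b2 e1 e2
  rw [g1, mul_zero, zero_add] at e1
  rw [g2, mul_zero, zero_add] at e2
  obtain ⟨t, t1, t2, t3, t4, t5, t6⟩ := kbb_field two _ _ _ _ _ _ _ _ _ _ _ _ _ _ _ _ _
    n2 n3 c1 c2 q1 q2 b1 b2 e1 e2
  have ht : ((t.val : ℕ) : ZMod l) = t := ZMod.natCast_zmod_val t
  refine ⟨t.val, ?_, ?_, ?_, ?_, ?_, ?_⟩
  · unfold Rts
    rw [Finset.mem_filter, Finset.mem_range]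
    refine ⟨ZMod.val_lt t, ?_⟩
    rw [kbb_dvd]
    push_cast
    rw [ht]
    exact t1
  · rw [kbb_dvd]
    push_cast
    rw [ht]
    exact t2
  · rw [kbb_dvd]
    push_cast
    rw [ht]
    exact t3
  · rw [kbb_dvd]
    push_cast
    rw [ht]
    exact t4
  · rw [kbb_dvd]
    push_cast
    rw [ht]
    exact t5
  · rw [kbb_dvd, kbb_dvd]
    exact t6

theorem kbm (l t : ℕ) (hl : l.Prime) (p y1 y2 : ℤ) (hp : ¬ (l : ℤ) ∣ p) (h1 : ¬ (l : ℤ) ∣ y1)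
    (ht : (l : ℤ) ∣ (t : ℤ) ^ 3 * y2 - y1) (u v g' u' v' : V3) (hu : dt u' g' = 0)
    (hv : dt v' g' = 0) (hg : Dv (l : ℤ) g') (h : Kt l t p y1 u v) (h' : Kt l t p y1 u' v') :
    g' ∈ HB l u v := by
  have hfact : Fact l.Prime := ⟨hl⟩
  have hl0 : (l : ℤ) ≠ 0 := by exact_mod_cast hl.ne_zero
  obtain ⟨a1, ha1⟩ := hg.1
  obtain ⟨a2, ha2⟩ := hg.2.1
  obtain ⟨a3, ha3⟩ := hg.2.2
  have hdt : ∀ w : V3, dt w g' = l * (w.1 * a1 + w.2.1 * a2 + w.2.2 * a3) := by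
    intro w
    unfold dt
    rw [ha1, ha2, ha3]
    ring
  have hu' : u'.1 * a1 + u'.2.1 * a2 + u'.2.2 * a3 = 0 := by
    have := hu
    rw [hdt] at this
    rcases mul_eq_zero.1 this with h0 | h0
    · exact absurd h0 hl0
    · exact h0
  have hv' : v'.1 * a1 + v'.2.1 * a2 + v'.2.2 * a3 = 0 := by
    have := hv
    rw [hdt] at this
    rcases mul_eq_zero.1 this with h0 | h0
    · exact absurd h0 hl0
    · exact h0
  obtain ⟨x1, x2, x3, x4, -⟩ := h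
  obtain ⟨z1, z2, z3, z4, z5⟩ := h'
  rw [kbb_dvd] at hp h1 ht x1 x2 x3 x4 z1 z2 z3 z4
  rw [kbb_dvd, kbb_dvd] at z5
  push_cast at ht x1 x2 x3 x4 z1 z2 z3 z4
  have fu := congrArg (fun n : ℤ => (n : ZMod l)) hu'
  have fv := congrArg (fun n : ℤ => (n : ZMod l)) hv'
  push_cast at fu fv
  have hpt : ((p : ℤ) : ZMod l) * ((t : ℕ) : ZMod l) ≠ 0 := by
    refine mul_ne_zero hp ?_
    intro h0
    apply h1
    rw [h0] at ht
    linear_combination -ht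
  have he : ((p : ℤ) : ZMod l) * (t : ZMod l) * (a1 : ZMod l) +
      ((p : ℤ) : ZMod l) * (t : ZMod l) * (t : ZMod l) * (a2 : ZMod l) +
      (y1 : ZMod l) * (a3 : ZMod l) = 0 := by
    by_contra hne
    apply z5
    constructor
    · have : ((u'.1 : ℤ) : ZMod l) * (((p : ℤ) : ZMod l) * (t : ZMod l) * (a1 : ZMod l) +
          ((p : ℤ) : ZMod l) * (t : ZMod l) * (t : ZMod l) * (a2 : ZMod l) +
          (y1 : ZMod l) * (a3 : ZMod l)) = 0 := by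
        linear_combination ((p : ℤ) : ZMod l) * (t : ZMod l) * fu +
          ((p : ℤ) : ZMod l) * (t : ZMod l) * (a2 : ZMod l) * z1 - (a3 : ZMod l) * z3
      exact (mul_eq_zero.1 this).resolve_right hne
    · have : ((v'.1 : ℤ) : ZMod l) * (((p : ℤ) : ZMod l) * (t : ZMod l) * (a1 : ZMod l) +
          ((p : ℤ) : ZMod l) * (t : ZMod l) * (t : ZMod l) * (a2 : ZMod l) +
          (y1 : ZMod l) * (a3 : ZMod l)) = 0 := by
        linear_combination ((p : ℤ) : ZMod l) * (t : ZMod l) * fv +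
          ((p : ℤ) : ZMod l) * (t : ZMod l) * (a2 : ZMod l) * z2 - (a3 : ZMod l) * z4
      exact (mul_eq_zero.1 this).resolve_right hne
  have gu : ((u.1 : ℤ) : ZMod l) * a1 + ((u.2.1 : ℤ) : ZMod l) * a2 +
      ((u.2.2 : ℤ) : ZMod l) * a3 = 0 := by
    have : (((p : ℤ) : ZMod l) * (t : ZMod l)) * (((u.1 : ℤ) : ZMod l) * a1 +
        ((u.2.1 : ℤ) : ZMod l) * a2 + ((u.2.2 : ℤ) : ZMod l) * a3) = 0 := by
      linear_combination ((u.1 : ℤ) : ZMod l) * he -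
          ((p : ℤ) : ZMod l) * (t : ZMod l) * (a2 : ZMod l) * x1 + (a3 : ZMod l) * x3
    exact (mul_eq_zero.1 this).resolve_left hpt
  have gv : ((v.1 : ℤ) : ZMod l) * a1 + ((v.2.1 : ℤ) : ZMod l) * a2 +
      ((v.2.2 : ℤ) : ZMod l) * a3 = 0 := by
    have : (((p : ℤ) : ZMod l) * (t : ZMod l)) * (((v.1 : ℤ) : ZMod l) * a1 +
        ((v.2.1 : ℤ) : ZMod l) * a2 + ((v.2.2 : ℤ) : ZMod l) * a3) = 0 := by
      linear_combination ((v.1 : ℤ) : ZMod l) * he -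
          ((p : ℤ) : ZMod l) * (t : ZMod l) * (a2 : ZMod l) * x2 + (a3 : ZMod l) * x4
    exact (mul_eq_zero.1 this).resolve_left hpt
  have fin : ∀ w : V3, ((w.1 : ℤ) : ZMod l) * a1 + ((w.2.1 : ℤ) : ZMod l) * a2 +
      ((w.2.2 : ℤ) : ZMod l) * a3 = 0 → (l : ℤ) ^ 2 ∣ dt w g' := by
    intro w hw
    rw [hdt, pow_two]
    apply mul_dvd_mul_left
    rw [kbb_dvd]
    push_cast
    exact hw
  rw [mem_HB]
  exact ⟨hg, fin u gu, fin v gv⟩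

end Pool.Agent.PPC
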