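import Pool.Agent.PPC.Vcl

/-!
# PPC/Lpb: the local groups of type B

PROOF.  `du`, `dv`, `dc` (with `c = 1`, `pow_one`): by definition of `HB`.  `nc`: `h2`.  `ds`: `l ∣ g`, `l ∣ h`, so
`l ^ 2` divides the coordinates of `cr g h`.  `di`: not both `u` and `v` are divisible by `l` (otherwise `l ^ 2`
divides `cr u v = G g`, so `g`, as `l` does not divide `G`; `h2`).  Say `¬ Dv l u`.  Write `g = l w0`,
`h = l w`, `h' = l w'`: `dt (cr g h) h' = l ^ 3 dt (cr w0 w) w'`, `dt u w0 = 0`, `l ∣ dt u w`, `l ∣ dt u w'`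
(from `l ^ 2 ∣ dt u h`), and `vdb`.
-/

set_option autoImplicit false

namespace Pool.Agent.PPC

open Pool.Agent.SMQ

private theorem key (l : ℕ) (hl : l.Prime) (g u h h' : V3) (hu : dt u g = 0) (h1 : Dv (l : ℤ) g)
    (hnu : ¬ Dv (l : ℤ) u) (a : Dv (l : ℤ) h) (a' : Dv (l : ℤ) h')
    (b : (l : ℤ) ^ 2 ∣ dt u h) (b' : (l : ℤ) ^ 2 ∣ dt u h') :
    (l : ℤ) ^ 4 ∣ dt (cr g h) h' := by
  have hl0 : (l : ℤ) ≠ 0 := by exact_mod_cast hl.ne_zero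
  obtain ⟨⟨g1, hg1⟩, ⟨g2, hg2⟩, ⟨g3, hg3⟩⟩ := h1
  obtain ⟨⟨x1, hx1⟩, ⟨x2, hx2⟩, ⟨x3, hx3⟩⟩ := a
  obtain ⟨⟨z1, hz1⟩, ⟨z2, hz2⟩, ⟨z3, hz3⟩⟩ := a'
  have e0 : (l : ℤ) * dt u (g1, g2, g3) = 0 := by
    rw [← hu]; unfold dt; simp only [hg1, hg2, hg3]; ring
  have e0' : dt u (g1, g2, g3) = 0 := by
    rcases mul_eq_zero.mp e0 with h | h
    · exact absurd h hl0
    · exact h
  have e1 : dt u h = (l : ℤ) * dt u (x1, x2, x3) := by
    unfold dt; simp only [hx1, hx2, hx3]; ring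
  have e2 : dt u h' = (l : ℤ) * dt u (z1, z2, z3) := by
    unfold dt; simp only [hz1, hz2, hz3]; ring
  rw [e1, pow_two] at b
  rw [e2, pow_two] at b'
  have b1 := (mul_dvd_mul_iff_left hl0).mp b
  have b2 := (mul_dvd_mul_iff_left hl0).mp b'
  have key := vdb l hl u (g1, g2, g3) (x1, x2, x3) (z1, z2, z3) hnu
    (by rw [e0']; exact dvd_zero _) b1 b2
  have e3 : dt (cr g h) h' = (l : ℤ) ^ 3 * dt (cr (g1, g2, g3) (x1, x2, x3)) (z1, z2, z3) := by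
    unfold dt cr; simp only [hg1, hg2, hg3, hx1, hx2, hx3, hz1, hz2, hz3]; ring
  rw [e3, pow_succ]
  exact mul_dvd_mul (dvd_refl _) key

theorem lpb (l G : ℕ) (hl : l.Prime) (hG : ¬ l ∣ G) (g u v : V3)
    (hc : (cr u v).1 = G * g.1 ∧ (cr u v).2.1 = G * g.2.1 ∧ (cr u v).2.2 = G * g.2.2)
    (hu : dt u g = 0) (hv : dt v g = 0) (h1 : Dv (l : ℤ) g) (h2 : ¬ Dv ((l : ℤ) ^ 2) g) :
    LP l 2 1 4 (HB l u v) (g, u, v) := by
  have hcop : IsCoprime ((l : ℤ) ^ 2) (G : ℤ) := by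
    have : Nat.Coprime (l ^ 2) G := Nat.Coprime.pow_left 2 ((Nat.Prime.coprime_iff_not_dvd hl).mpr hG)
    have h := Nat.isCoprime_iff_coprime.mpr this
    push_cast at h
    exact h
  refine ⟨?_, ?_, ?_, ?_, ?_, ?_⟩
  · intro h hh
    exact hh.2.1
  · intro h hh
    exact hh.2.2
  · intro h hh
    rw [pow_one]
    exact hh.1
  · exact h2
  · intro h hh
    obtain ⟨a1, a2, a3⟩ := hh.1
    obtain ⟨b1, b2, b3⟩ := h1
    unfold cr Dv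
    simp only [pow_two]
    exact ⟨dvd_sub (mul_dvd_mul b2 a3) (mul_dvd_mul b3 a2),
      dvd_sub (mul_dvd_mul b3 a1) (mul_dvd_mul b1 a3),
      dvd_sub (mul_dvd_mul b1 a2) (mul_dvd_mul b2 a1)⟩
  · intro h hh h' hh'
    by_cases hnu : Dv (l : ℤ) u
    · by_cases hnv : Dv (l : ℤ) v
      · exfalso
        apply h2
        obtain ⟨a1, a2, a3⟩ := hnu
        obtain ⟨b1, b2, b3⟩ := hnv
        have k1 : (l : ℤ) ^ 2 ∣ (G : ℤ) * g.1 := by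
          rw [← hc.1, pow_two]
          exact dvd_sub (mul_dvd_mul a2 b3) (mul_dvd_mul a3 b2)
        have k2 : (l : ℤ) ^ 2 ∣ (G : ℤ) * g.2.1 := by
          rw [← hc.2.1, pow_two]
          exact dvd_sub (mul_dvd_mul a3 b1) (mul_dvd_mul a1 b3)
        have k3 : (l : ℤ) ^ 2 ∣ (G : ℤ) * g.2.2 := by
          rw [← hc.2.2, pow_two]
          exact dvd_sub (mul_dvd_mul a1 b2) (mul_dvd_mul a2 b1)
        exact ⟨hcop.dvd_of_dvd_mul_left k1, hcop.dvd_of_dvd_mul_left k2,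
          hcop.dvd_of_dvd_mul_left k3⟩
      · exact key l hl g v h h' hv h1 hnv hh.1 hh'.1 hh.2.2 hh'.2.2
    · exact key l hl g u h h' hu h1 hnu hh.1 hh'.1 hh.2.1 hh'.2.1

end Pool.Agent.PPC
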