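import Pool.Agent.PPC.Lca
import Pool.Agent.PPC.Lpb
import Pool.Agent.PPC.DefsC
import Pool.Agent.PPC.Tky
import Pool.Agent.PPC.Ktz
import Pool.Agent.PPC.Kab
import Pool.Agent.PPC.Kbb
import Pool.Agent.PPC.Rrt

/-!
# PPC/Lzb: primes `l ∤ 6 G p` with `l ^ 2 ∥ Δ`

PROOF.  `yᵢ` are units (`kty`).  `K = K2 l y1 y2` has at most `3 + 3` elements (`rrt` for `l ^ 2` and for `l = l ^ 1`).
`w = (g, u, v) ∈ Wi G p y`:
* `¬ Dv l g`: `ktw`, `ktu` with `k = 2`, `c = 0`, `a = g`, then `tk_ex` with `n = 2`: `t ∈ Rts (l ^ 2) y1 y2` and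
  `l ^ 2 ∣ t g1 - g2`.  `key w = (0, t)`, `H w = HA l 0 2 g`, `LP l 2 0 4` by `lpa` (`c = 0`, `m = 2`).
* `Dv l g`: `kbt` gives `t ∈ Rts l y2 y1` with `Kt l t p y1 u v`.  `key w = (1, t)`, `H w = HB l u v`, `LP l 2 1 4` by `lpb`
  (`kcr`; `¬ Dv (l ^ 2) g` by `kab`; `l ∤ G`).
`s = 2`, `c j = j.1`, `i = 4`; `l ^ 2 / l ^ 2 = 1`, `l ^ 4 / l ^ 4 = 1`, so all three bounds are `card K ≤ 6`.
Same key: for `(0, t)` `tk_par` (with `hm` from `ktw`); for `(1, t)` `kbm`.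
-/

set_option autoImplicit false

namespace Pool.Agent.PPC

open Pool.Agent.SMQ

/-- the relation between a key and a point -/
private structure LzbQ (G l : ℕ) (p : ℤ) (y : V3) (j : ℕ × ℕ) (w : W3) : Prop where
  mem : j ∈ K2 l y.1 y.2.1
  hc : (cr w.2.1 w.2.2).1 = G * w.1.1 ∧ (cr w.2.1 w.2.2).2.1 = G * w.1.2.1 ∧
    (cr w.2.1 w.2.2).2.2 = G * w.1.2.2
  du : dt w.2.1 w.1 = 0
  dv : dt w.2.2 w.1 = 0
  cs : (j.1 = 0 ∧ ¬ (l : ℤ) ∣ w.1.1 ∧ ¬ (l : ℤ) ∣ w.1.2.1 ∧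
      (l : ℤ) ^ 2 ∣ (j.2 : ℤ) * w.1.1 - w.1.2.1 ∧
      (l : ℤ) ^ 2 ∣ y.1 * w.1.2.1 * w.1.2.2 - p * w.1.1 ^ 2) ∨
    (j.1 = 1 ∧ Dv (l : ℤ) w.1 ∧ ¬ Dv ((l : ℤ) ^ 2) w.1 ∧ Kt l j.2 p y.1 w.2.1 w.2.2 ∧
      (l : ℤ) ∣ (j.2 : ℤ) ^ 3 * y.2.1 - y.1)

private theorem lzb_card (l : ℕ) (hl : l.Prime) (y1 y2 : ℤ) (h1 : ¬ (l : ℤ) ∣ y1)
    (h2 : ¬ (l : ℤ) ∣ y2) : ((K2 l y1 y2).card : ℝ) ≤ 6 := by
  have a := rrt l 2 hl y1 y2 h1 h2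
  have b := rrt l 1 hl y2 y1 h2 h1
  rw [← rts_card] at a b
  rw [pow_one] at b
  have c : (K2 l y1 y2).card ≤ 6 := by
    unfold K2
    refine (Finset.card_union_le _ _).trans ?_
    have d1 := Finset.card_image_le (s := Rts (l ^ 2) y1 y2) (f := fun t : ℕ => ((0 : ℕ), t))
    have d2 := Finset.card_image_le (s := Rts l y2 y1) (f := fun t : ℕ => ((1 : ℕ), t))
    omega
  exact_mod_cast c

private theorem lzb_pt (G : ℕ) (p : ℤ) (y : V3) (l : ℕ) (hl : l.Prime) (h6 : ¬ l ∣ 6 * G)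
    (hp : ¬ (l : ℤ) ∣ p) (hk : Ex l 2 (De p y)) (w : W3) (hw : w ∈ Wi G p y) :
    ∃ j : ℕ × ℕ, LzbQ G l p y j w := by
  obtain ⟨g, u, v⟩ := w
  obtain ⟨D0, xp, x, r, N, N4, h⟩ := hw
  simp only at h
  have hd : (l : ℤ) ∣ De p y := (dvd_pow_self (l : ℤ) (by norm_num : (2 : ℕ) ≠ 0)).trans hk.1
  have h3 : ¬ (l : ℤ) ^ 3 ∣ De p y := hk.2
  obtain ⟨hcc, hu, hv⟩ := kcr D0 G p xp x y g r N N4 u v h
  by_cases hg : Dv (l : ℤ) g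
  · obtain ⟨t, ht, hK⟩ := kbt D0 G p xp x y g r N N4 u v h l hl h6 hp hd hg h3
    obtain ⟨-, hn, -⟩ := kab D0 G p xp x y g r N N4 u v h l hl h6 hp hd hg h3
    have ht' := (Finset.mem_filter.mp ht).2
    exact ⟨(1, t), ⟨Finset.mem_union_right _ (Finset.mem_image.mpr ⟨t, ht, rfl⟩), hcc, hu, hv,
      Or.inr ⟨rfl, hg, hn, hK, ht'⟩⟩⟩
  · obtain ⟨m1, m2, m3⟩ := ktw D0 G p xp x y g r N N4 u v h l hl 2 0 hk.1 g (by simp)
    simp only [Nat.mul_zero, Nat.sub_zero] at m1 m2 m3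
    obtain ⟨n1, n2, n3, n4⟩ := ktu l 2 hl (by norm_num) p y g hp hg m1 m2 m3
    obtain ⟨t, htl, ht1, ht2⟩ := tk_ex l 2 hl y.1 y.2.1 g.1 g.2.1 n1 n4
    have ht : t ∈ Rts (l ^ 2) y.1 y.2.1 :=
      Finset.mem_filter.mpr ⟨Finset.mem_range.mpr htl, by push_cast; exact ht2⟩
    exact ⟨(0, t), ⟨Finset.mem_union_left _ (Finset.mem_image.mpr ⟨t, ht, rfl⟩), hcc, hu, hv,
      Or.inl ⟨rfl, n1, n2, ht1, m1⟩⟩⟩

theorem lzb (G : ℕ) (p : ℤ) (y : V3) (l : ℕ) (hl : l.Prime) (h6 : ¬ l ∣ 6 * G)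
    (hp : ¬ (l : ℤ) ∣ p) (hk : Ex l 2 (De p y)) : Lc l 2 (Wi G p y) 6 6 6 := by
  classical
  have hd : (l : ℤ) ∣ De p y := (dvd_pow_self (l : ℤ) (by norm_num : (2 : ℕ) ≠ 0)).trans hk.1
  obtain ⟨hy1, hy2, -⟩ := kty l hl p y hp hd
  have hG : ¬ l ∣ G := fun h => h6 (h.mul_left 6)
  have hl0 : (l : ℝ) ≠ 0 := by exact_mod_cast hl.ne_zero
  let key : W3 → ℕ × ℕ := fun w =>
    if h : ∃ j : ℕ × ℕ, LzbQ G l p y j w then Classical.choose h else (0, 0)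
  have hkey : ∀ w ∈ Wi G p y, LzbQ G l p y (key w) w := by
    intro w hw
    have h := lzb_pt G p y l hl h6 hp hk w hw
    have e : key w = Classical.choose h := dif_pos h
    rw [e]
    exact Classical.choose_spec h
  have hcard := lzb_card l hl y.1 y.2.1 hy1 hy2
  refine ⟨K2 l y.1 y.2.1, key, fun _ => 2, fun j => j.1, fun _ => 4,
    fun w => if (key w).1 = 0 then HA l 0 2 w.1 else HB l w.2.1 w.2.2, ?_, ?_, hcard, ?_, ?_⟩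
  · intro w hw
    have h := hkey w hw
    refine ⟨h.mem, ?_⟩
    rcases h.cs with ⟨j0, n1, n2, t1, m1⟩ | ⟨j1, d1, d2, -, -⟩
    · show LP l 2 (key w).1 4 (if (key w).1 = 0 then HA l 0 2 w.1 else HB l w.2.1 w.2.2) w
      rw [if_pos j0, j0]
      have := lpa l 0 2 hl w.1 w.2.1 w.2.2 h.du h.dv
        (by rw [pow_zero]; exact ⟨one_dvd _, one_dvd _, one_dvd _⟩)
        (fun hh => n1 (by have := hh.1; rwa [zero_add, pow_one] at this))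
      exact this
    · show LP l 2 (key w).1 4 (if (key w).1 = 0 then HA l 0 2 w.1 else HB l w.2.1 w.2.2) w
      have j0 : ¬ (key w).1 = 0 := by rw [j1]; norm_num
      rw [if_neg j0, j1]
      exact lpb l G hl hG w.1 w.2.1 w.2.2 h.hc h.du h.dv d1 d2
  · intro w hw w' hw' hkk
    have h := hkey w hw
    have h' := hkey w' hw'
    show w'.1 ∈ (if (key w).1 = 0 then HA l 0 2 w.1 else HB l w.2.1 w.2.2)
    rcases h.cs with ⟨j0, n1, n2, t1, m1⟩ | ⟨j1, d1, d2, kt, kr⟩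
    · rw [if_pos j0]
      rcases h'.cs with ⟨j0', n1', n2', t1', m1'⟩ | ⟨j1', -⟩
      · rw [← hkk] at t1'
        obtain ⟨a1, a2, a3⟩ := tk_par l 2 hl (key w).2 p y.1 w'.1.1 w'.1.2.1 w'.1.2.2 w.1.1
          w.1.2.1 w.1.2.2 hy1 n1' n2' n1 n2 t1' t1 m1' m1
        refine (mem_HA l 0 2 w.1 w'.1).mpr ⟨?_, ?_⟩
        · rw [pow_zero]; exact ⟨one_dvd _, one_dvd _, one_dvd _⟩
        · exact ⟨a2, a3, a1⟩
      · rw [← hkk, j0] at j1'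
        norm_num at j1'
    · have j0 : ¬ (key w).1 = 0 := by rw [j1]; norm_num
      rw [if_neg j0]
      rcases h'.cs with ⟨j0', -⟩ | ⟨j1', d1', d2', kt', -⟩
      · rw [← hkk, j1] at j0'
        norm_num at j0'
      · rw [← hkk] at kt'
        exact kbm l (key w).2 hl p y.1 y.2.1 hp hy1 kr w.2.1 w.2.2 w'.1 w'.2.1 w'.2.2 h'.du h'.dv
          d1' kt kt'
  · have e : ∑ j ∈ K2 l y.1 y.2.1, (l : ℝ) ^ 2 / (l : ℝ) ^ 2 = ((K2 l y.1 y.2.1).card : ℝ) := by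
      rw [div_self (pow_ne_zero 2 hl0), Finset.sum_const, nsmul_eq_mul, mul_one]
    exact e.trans_le hcard
  · have e : ∑ j ∈ K2 l y.1 y.2.1, (l : ℝ) ^ (2 * 2) / (l : ℝ) ^ 4 =
        ((K2 l y.1 y.2.1).card : ℝ) := by
      rw [show 2 * 2 = 4 from rfl, div_self (pow_ne_zero 4 hl0), Finset.sum_const, nsmul_eq_mul,
        mul_one]
    exact e.trans_le hcard

end Pool.Agent.PPC
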