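import Pool.Agent.PPC.DefsC
import Pool.Agent.PPC.Rrt

/-!
# PPC/Lsu: the sums over the keys `K0`

PROOF of `lsu`.  For a function `f` of the first coordinate `∑ j ∈ K0, f j.1 = ∑ c ∈ range (k + 1), n_c f c` with
`n_c = (Rts (l ^ (k - 2 c)) y1 y2).card ≤ 3` (`rrt`; the second coordinate is `< l ^ (k - 2 c) ≤ l ^ k`; `Finset.sum_filter`,
`Finset.sum_product`).  With `f = 1`: `card K0 ≤ 3 (k + 1) ≤ 3 (k + 1) l ^ (k / 2)`.
`f c = l ^ k / l ^ (c + (k - 2 c)) ≤ l ^ (k / 2)` because `k ≤ c + (k - 2 c) + k / 2` (`omega`), and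
`f c = l ^ (2 k) / l ^ (3 c + 2 (k - 2 c)) ≤ l ^ (k / 2)` because `2 k ≤ 3 c + 2 (k - 2 c) + k / 2` (`omega`; `l ≥ 1`).
-/

set_option autoImplicit false

namespace Pool.Agent.PPC

open Pool.Agent.SMQ

private theorem lsu_card (l k : ℕ) (hl : l.Prime) (y1 y2 : ℤ) (h1 : ¬ (l : ℤ) ∣ y1)
    (h2 : ¬ (l : ℤ) ∣ y2) : (K0 l k y1 y2).card ≤ 3 * (k + 1) := by
  have h := Finset.card_le_mul_card_image_of_maps_to (s := K0 l k y1 y2)
    (t := Finset.range (k + 1)) (f := fun j => j.1) (fun j hj => by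
      unfold K0 at hj
      rw [Finset.mem_filter, Finset.mem_product] at hj
      exact hj.1.1) 3 (fun c hc => by
      have h3 := rrt l (k - 2 * c) hl y1 y2 h1 h2
      rw [← rts_card] at h3
      refine le_trans (Finset.card_le_card_of_injOn (fun j => j.2) ?_ ?_) h3
      · intro j hj
        rw [Finset.mem_coe, Finset.mem_filter] at hj
        obtain ⟨hj1, hj2⟩ := hj
        unfold K0 at hj1
        rw [Finset.mem_filter] at hj1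
        have h4 := hj1.2
        rw [hj2] at h4
        exact h4
      · intro a ha b hb hab
        rw [Finset.mem_coe, Finset.mem_filter] at ha hb
        exact Prod.ext (ha.2.trans hb.2.symm) hab)
  rw [Finset.card_range] at h
  exact h

private theorem lsu_sum (l k : ℕ) (hl : l.Prime) (y1 y2 : ℤ) (h1 : ¬ (l : ℤ) ∣ y1)
    (h2 : ¬ (l : ℤ) ∣ y2) (f : ℕ × ℕ → ℝ) (hf : ∀ j : ℕ × ℕ, f j ≤ (l : ℝ) ^ (k / 2)) :
    ∑ j ∈ K0 l k y1 y2, f j ≤ ((3 * (k + 1) * l ^ (k / 2) : ℕ) : ℝ) := by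
  have h3 : ∑ j ∈ K0 l k y1 y2, f j ≤ (K0 l k y1 y2).card • ((l : ℝ) ^ (k / 2)) :=
    Finset.sum_le_card_nsmul _ _ _ (fun j _ => hf j)
  have h4 : ((K0 l k y1 y2).card : ℝ) ≤ 3 * ((k : ℝ) + 1) := by
    exact_mod_cast lsu_card l k hl y1 y2 h1 h2
  have h5 : (0 : ℝ) ≤ (l : ℝ) ^ (k / 2) := by positivity
  rw [nsmul_eq_mul] at h3
  push_cast
  exact h3.trans (mul_le_mul_of_nonneg_right h4 h5)

theorem lsu (l k : ℕ) (hl : l.Prime) (y1 y2 : ℤ) (h1 : ¬ (l : ℤ) ∣ y1) (h2 : ¬ (l : ℤ) ∣ y2) :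
    ((K0 l k y1 y2).card : ℝ) ≤ ((3 * (k + 1) * l ^ (k / 2) : ℕ) : ℝ) ∧
    ∑ j ∈ K0 l k y1 y2, (l : ℝ) ^ k / (l : ℝ) ^ (j.1 + (k - 2 * j.1)) ≤
      ((3 * (k + 1) * l ^ (k / 2) : ℕ) : ℝ) ∧
    ∑ j ∈ K0 l k y1 y2, (l : ℝ) ^ (2 * k) / (l : ℝ) ^ (3 * j.1 + 2 * (k - 2 * j.1)) ≤
      ((3 * (k + 1) * l ^ (k / 2) : ℕ) : ℝ) := by
  have hl1 : (1 : ℝ) ≤ (l : ℝ) := by exact_mod_cast hl.one_lt.le
  refine ⟨?_, ?_, ?_⟩
  · have h := lsu_sum l k hl y1 y2 h1 h2 (fun _ => 1) (fun _ => one_le_pow₀ hl1)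
    simpa using h
  · apply lsu_sum l k hl y1 y2 h1 h2
    intro j
    rw [div_le_iff₀ (by positivity), ← pow_add]
    exact pow_le_pow_right₀ hl1 (by omega)
  · apply lsu_sum l k hl y1 y2 h1 h2
    intro j
    rw [div_le_iff₀ (by positivity), ← pow_add]
    exact pow_le_pow_right₀ hl1 (by omega)

end Pool.Agent.PPC
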