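import Pool.Agent.PPC.Lca
import Pool.Agent.PPC.Lsu
import Pool.Agent.PPC.Tky
import Pool.Agent.PPC.Ktz

/-!
# PPC/Lzc: primes `l ∤ p`, general exponent

PROOF.  `yᵢ` are units (`kty`).  For `w = (g, u, v) ∈ Wi G p y`: `kex` gives `c` (exact exponent of `l` in `g`), `c ≤ k` (`ka0`);
let `m = k - 2 c`, `g = l ^ c a` with `¬ Dv l a` (`dv_fac`).  If `m ≥ 1`: `ktw`, `ktu` give that `a1, a2, a3` are units
and `l ^ m ∣ y1 a2 ^ 3 - y2 a1 ^ 3`, so `tk_ex` gives `t < l ^ m` with `l ^ m ∣ t a1 - a2` and `t ∈ Rts (l ^ m) y1 y2`.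
If `m = 0` take `t = 0 ∈ Rts 1 y1 y2`.  So: for every `w ∈ Wi` there is `j = (c, t) ∈ K0 l k y1 y2` with
`Dv (l ^ c) g`, `¬ Dv (l ^ (c + 1)) g` and (if `m ≥ 1`) the representation `g = l ^ c a` and the congruences.
Choose `key` (`Classical.choose`).  `lca` with `m c = k - 2 c`: `hu` is `kcr`; `hc`: if `key w = key w' = (c, t)`: for `m = 0` both
`g, g'` are divisible by `l ^ c`; for `m ≥ 1` `tk_par` (with `w3 = a3`, `hm` from `ktw`) gives `l ^ m ∣ cr a' a`, so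
`l ^ (2 c + m) ∣ cr g' g`.  Then `lc_mono` with `lsu`.
-/

set_option autoImplicit false

namespace Pool.Agent.PPC

open Pool.Agent.SMQ

/-- the properties of the key `j = (c, t)` of the point `w` -/
private def Lzc_P (l k : ℕ) (p : ℤ) (y : V3) (w : W3) (j : ℕ × ℕ) : Prop :=
  j ∈ K0 l k y.1 y.2.1 ∧ Dv ((l : ℤ) ^ j.1) w.1 ∧ ¬ Dv ((l : ℤ) ^ (j.1 + 1)) w.1 ∧
    ∃ a : V3, w.1 = ((l : ℤ) ^ j.1 * a.1, (l : ℤ) ^ j.1 * a.2.1, (l : ℤ) ^ j.1 * a.2.2) ∧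
      (1 ≤ k - 2 * j.1 → ¬ (l : ℤ) ∣ a.1 ∧ ¬ (l : ℤ) ∣ a.2.1 ∧
        (l : ℤ) ^ (k - 2 * j.1) ∣ (j.2 : ℤ) * a.1 - a.2.1 ∧
        (l : ℤ) ^ (k - 2 * j.1) ∣ y.1 * a.2.1 * a.2.2 - p * a.1 ^ 2)

private lemma Lzc_mem (l k : ℕ) (hl : l.Prime) (y1 y2 : ℤ) (c t : ℕ) (hc : c ≤ k)
    (ht : t < l ^ (k - 2 * c)) (h : (l : ℤ) ^ (k - 2 * c) ∣ (t : ℤ) ^ 3 * y1 - y2) :
    (c, t) ∈ K0 l k y1 y2 := by
  unfold K0 Rts
  rw [Finset.mem_filter, Finset.mem_product, Finset.mem_range, Finset.mem_range,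
    Finset.mem_filter, Finset.mem_range]
  refine ⟨⟨by simp only; omega, ?_⟩, ht, ?_⟩
  · exact lt_of_lt_of_le ht (Nat.pow_le_pow_right hl.pos (by omega))
  · push_cast
    exact h

private lemma Lzc_ex (G : ℕ) (p : ℤ) (y : V3) (l k : ℕ) (hl : l.Prime) (hp : ¬ (l : ℤ) ∣ p)
    (hk : Ex l k (De p y)) (w : W3) (hw : w ∈ Wi G p y) :
    ∃ j : ℕ × ℕ, Lzc_P l k p y w j := by
  obtain ⟨D0, xp, x, r, N, N4, h⟩ := hw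
  obtain ⟨c, hc1, hc2⟩ := kex D0 G p xp x y w.1 r N N4 w.2.1 w.2.2 h l hl
  have hck : c ≤ k := ka0 D0 G p xp x y w.1 r N N4 w.2.1 w.2.2 h l hl hp k c hk hc1
  obtain ⟨a, ha, hna⟩ := dv_fac l c w.1 hc1 hc2
  by_cases hm : 1 ≤ k - 2 * c
  · obtain ⟨k1, k2, k3⟩ := ktw D0 G p xp x y w.1 r N N4 w.2.1 w.2.2 h l hl k c hk.1 a ha
    obtain ⟨u1, u2, u3, u4⟩ := ktu l (k - 2 * c) hl hm p y a hp hna k1 k2 k3
    obtain ⟨t, ht1, ht2, ht3⟩ := tk_ex l (k - 2 * c) hl y.1 y.2.1 a.1 a.2.1 u1 u4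
    exact ⟨(c, t), Lzc_mem l k hl y.1 y.2.1 c t hck ht1 ht3, hc1, hc2, a, ha,
      fun _ => ⟨u1, u2, ht2, k1⟩⟩
  · have e : k - 2 * c = 0 := by omega
    refine ⟨(c, 0), Lzc_mem l k hl y.1 y.2.1 c 0 hck ?_ ?_, hc1, hc2, a, ha, fun h => absurd h hm⟩
    · rw [e]
      simp
    · rw [e]
      simp

private lemma Lzc_cr (l c m : ℕ) (g g' a a' : V3)
    (hg : g = ((l : ℤ) ^ c * a.1, (l : ℤ) ^ c * a.2.1, (l : ℤ) ^ c * a.2.2))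
    (hg' : g' = ((l : ℤ) ^ c * a'.1, (l : ℤ) ^ c * a'.2.1, (l : ℤ) ^ c * a'.2.2))
    (h : Dv ((l : ℤ) ^ m) (cr a' a)) : Dv ((l : ℤ) ^ (2 * c + m)) (cr g' g) := by
  have e : cr g' g = ((l : ℤ) ^ (2 * c) * (cr a' a).1, (l : ℤ) ^ (2 * c) * (cr a' a).2.1,
      (l : ℤ) ^ (2 * c) * (cr a' a).2.2) := by
    rw [hg, hg']
    unfold cr
    simp only [Prod.mk.injEq]
    refine ⟨?_, ?_, ?_⟩ <;> ring
  rw [e, pow_add]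
  exact ⟨mul_dvd_mul_left _ h.1, mul_dvd_mul_left _ h.2.1, mul_dvd_mul_left _ h.2.2⟩

theorem lzc (G : ℕ) (p : ℤ) (y : V3) (l k : ℕ) (hl : l.Prime) (hp : ¬ (l : ℤ) ∣ p)
    (hk : Ex l k (De p y)) (h1 : 1 ≤ k) :
    Lc l k (Wi G p y) ((3 * (k + 1) * l ^ (k / 2) : ℕ) : ℝ) ((3 * (k + 1) * l ^ (k / 2) : ℕ) : ℝ)
      ((3 * (k + 1) * l ^ (k / 2) : ℕ) : ℝ) := by
  obtain ⟨hy1, hy2, _⟩ := kty l hl p y hp ((dvd_pow_self (l : ℤ) (by omega)).trans hk.1)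
  have hs := lsu l k hl y.1 y.2.1 hy1 hy2
  choose! key hkey using Lzc_ex G p y l k hl hp hk
  refine lc_mono l k _ _ _ _ _ _ _ (lca l k hl (Wi G p y) (K0 l k y.1 y.2.1) key
    (fun c => k - 2 * c) (fun w hw => (hkey w hw).1) ?_
    (fun w hw => ⟨(hkey w hw).2.1, (hkey w hw).2.2.1⟩) ?_) hs.1 hs.2.1 hs.2.2
  · rintro w ⟨D0, xp, x, r, N, N4, h⟩
    exact (kcr D0 G p xp x y w.1 r N N4 w.2.1 w.2.2 h).2
  · intro w hw w' hw' he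
    obtain ⟨_, _, _, a, ha, hm⟩ := hkey w hw
    obtain ⟨_, _, _, a', ha', hm'⟩ := hkey w' hw'
    rw [← he] at ha' hm'
    apply Lzc_cr l _ _ w.1 w'.1 a a' ha ha'
    by_cases h0 : 1 ≤ k - 2 * (key w).1
    · obtain ⟨b1, b2, b3, b4⟩ := hm h0
      obtain ⟨c1, c2, c3, c4⟩ := hm' h0
      obtain ⟨d1, d2, d3⟩ := tk_par l (k - 2 * (key w).1) hl (key w).2 p y.1 a'.1 a'.2.1 a'.2.2
        a.1 a.2.1 a.2.2 hy1 c1 c2 b1 b2 c3 b3 c4 b4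
      exact ⟨d2, d3, d1⟩
    · have e : k - 2 * (key w).1 = 0 := by omega
      simp only [e, pow_zero]
      exact ⟨one_dvd _, one_dvd _, one_dvd _⟩

end Pool.Agent.PPC
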