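import Pool.Agent.PPC.Rot
import Pool.Agent.PPC.Lzc
import Pool.Agent.PPC.Lza
import Pool.Agent.PPC.Lzb
import Pool.Agent.PPC.Lpo

/-!
# PPC/Lal: all primes dividing `Δ`

PROOF.  Let `k = (De p y).natAbs.factorization l ≥ 1`; `Ex l k (De p y)`.  Unfold `om1`, `PPW.om`.
Case `l ∣ p`: `l ∣ y1 y2 y3`.  If `nu ≤ 1` exactly one `yᵢ` is divisible by `l`: `lpo`, directly (`i = 1`) or after one or two
rotations (`lc_rot`; `De p (rt y) = De p y`).  If `nu ≥ 2`: `lpt`, directly if `l ∣ y1, y2`; after one rotation if `l ∣ y2, y3`; after two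
rotations if `l ∣ y3, y1`.
Case `l ∤ p`: if `l ∣ 6 G` or `3 ≤ k`: `lzc`; if `k = 2`: `lzb`; otherwise `k = 1`: `lza`.
-/

set_option autoImplicit false

namespace Pool.Agent.PPC

open Pool.Agent.SMQ

private theorem lal_ex (l : ℕ) (hl : l.Prime) (n : ℤ) (hn : n ≠ 0) :
    Ex l (n.natAbs.factorization l) n := by
  have h0 : n.natAbs ≠ 0 := Int.natAbs_ne_zero.2 hn
  constructor
  · have h1 : l ^ (n.natAbs.factorization l) ∣ n.natAbs := Nat.ordProj_dvd _ _
    have h2 : ((l ^ (n.natAbs.factorization l) : ℕ) : ℤ) ∣ n := Int.natCast_dvd.2 h1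
    rwa [Nat.cast_pow] at h2
  · intro h
    rw [← Nat.cast_pow] at h
    have h1 : l ^ (n.natAbs.factorization l + 1) ∣ n.natAbs := Int.natCast_dvd.1 h
    exact Nat.pow_succ_factorization_not_dvd h0 hl h1

private theorem lal_rt (p : ℤ) (y : V3) : De p (rt y) = De p y := by
  unfold De rt
  simp only
  ring

theorem lal (G : ℕ) (p : ℤ) (y : V3) (l : ℕ) (hl : l.Prime) (hd : (l : ℤ) ∣ De p y)
    (hD : De p y ≠ 0) :
    Lc l ((De p y).natAbs.factorization l) (Wi G p y) (om1 G l p y : ℝ) (om1 G l p y : ℝ)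
      (om1 G l p y : ℝ) := by
  have hex := lal_ex l hl _ hD
  have hk1 : 1 ≤ (De p y).natAbs.factorization l := by
    have h0 : (De p y).natAbs ≠ 0 := Int.natAbs_ne_zero.2 hD
    exact (hl.dvd_iff_one_le_factorization h0).1 (Int.natCast_dvd.1 hd)
  unfold om1
  generalize (De p y).natAbs.factorization l = k at hex hk1 ⊢
  have hex1 : Ex l k (De p (rt y)) := by rw [lal_rt]; exact hex
  have hex2 : Ex l k (De p (rt (rt y))) := by rw [lal_rt]; exact hex1
  have hlz : Prime (l : ℤ) := Nat.prime_iff_prime_int.1 hl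
  unfold PPW.om
  by_cases hp : (l : ℤ) ∣ p
  · rw [if_pos hp]
    have hyyy : (l : ℤ) ∣ y.1 * y.2.1 * y.2.2 := by
      have h1 : (l : ℤ) ∣ p ^ 3 := Dvd.dvd.pow hp (by norm_num)
      have h2 : y.1 * y.2.1 * y.2.2 = De p y + p ^ 3 := by unfold De; ring
      rw [h2]
      exact dvd_add hd h1
    by_cases h1 : (l : ℤ) ∣ y.1 <;> by_cases h2 : (l : ℤ) ∣ y.2.1 <;>
      by_cases h3 : (l : ℤ) ∣ y.2.2
    · have hnu : ¬ PPW.nu l y.1 y.2.1 y.2.2 ≤ 1 := by
        unfold PPW.nu; rw [if_pos h1, if_pos h2, if_pos h3]; norm_num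
      rw [if_neg hnu]
      push_cast
      exact lpt G p y l k hl hp h1 h2 hex
    · have hnu : ¬ PPW.nu l y.1 y.2.1 y.2.2 ≤ 1 := by
        unfold PPW.nu; rw [if_pos h1, if_pos h2, if_neg h3]; norm_num
      rw [if_neg hnu]
      push_cast
      exact lpt G p y l k hl hp h1 h2 hex
    · have hnu : ¬ PPW.nu l y.1 y.2.1 y.2.2 ≤ 1 := by
        unfold PPW.nu; rw [if_pos h1, if_neg h2, if_pos h3]; norm_num
      rw [if_neg hnu]
      push_cast
      exact lc_rot G p y l k _ _ _ (lc_rot G p (rt y) l k _ _ _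
        (lpt G p (rt (rt y)) l k hl hp h3 h1 hex2))
    · have hnu : PPW.nu l y.1 y.2.1 y.2.2 ≤ 1 := by
        unfold PPW.nu; rw [if_pos h1, if_neg h2, if_neg h3]
      rw [if_pos hnu]
      exact_mod_cast lpo G p y l k hl hp h1 h2 h3 hex
    · have hnu : ¬ PPW.nu l y.1 y.2.1 y.2.2 ≤ 1 := by
        unfold PPW.nu; rw [if_neg h1, if_pos h2, if_pos h3]; norm_num
      rw [if_neg hnu]
      push_cast
      exact lc_rot G p y l k _ _ _ (lpt G p (rt y) l k hl hp h2 h3 hex1)
    · have hnu : PPW.nu l y.1 y.2.1 y.2.2 ≤ 1 := by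
        unfold PPW.nu; rw [if_neg h1, if_pos h2, if_neg h3]
      rw [if_pos hnu]
      have h := lpo G p (rt y) l k hl hp h2 h3 h1 hex1
      exact_mod_cast lc_rot G p y l k _ _ _ h
    · have hnu : PPW.nu l y.1 y.2.1 y.2.2 ≤ 1 := by
        unfold PPW.nu; rw [if_neg h1, if_neg h2, if_pos h3]
      rw [if_pos hnu]
      have h := lpo G p (rt (rt y)) l k hl hp h3 h1 h2 hex2
      exact_mod_cast lc_rot G p y l k _ _ _ (lc_rot G p (rt y) l k _ _ _ h)
    · exfalso
      rcases hlz.dvd_or_dvd hyyy with h | h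
      · rcases hlz.dvd_or_dvd h with h | h
        · exact h1 h
        · exact h2 h
      · exact h3 h
  · rw [if_neg hp]
    by_cases h6 : l ∣ 6 * G ∨ 3 ≤ k
    · rw [if_pos h6]
      exact lzc G p y l k hl hp hex hk1
    · rw [if_neg h6]
      push Not at h6
      obtain ⟨h6a, h6b⟩ := h6
      by_cases hk2 : k = 2
      · rw [if_pos hk2]
        subst hk2
        exact_mod_cast lzb G p y l hl h6a hp hex
      · rw [if_neg hk2]
        have hk : k = 1 := by omega
        subst hk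
        exact lza G p y l hl h6a hp hex

end Pool.Agent.PPC
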