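import Pool.Agent.PPC.DefsB

/-!
# PPC/Kaa: a prime divisor of `gcd g` divides `Δ`

PROOF of `kaa`.  Suppose `l` divides the coordinates of `g` and not `Δ`.  The fields `hi` of `h.tri.t1`, `t2`, `t3`
(`Nᵢ Δ = yᵢ gⱼ gₖ - p gᵢ ^ 2`) give `l ^ 2 ∣ Nᵢ Δ`, so `l ^ 2 ∣ Nᵢ` for all `i`.  By the fields `nn`, `l` divides none of
`D0, G, y1, y2, y3`.  Put `D = D0 G ^ 2` (prime to `l`).
(1) `h.e1.kk`, `e2.kk`, `e3.kk`: `l ^ 3` divides the left sides, so `l ^ 3 ∣ y1 x2 - y2 x1`, `l ^ 3 ∣ y3 x1 - y1 x3`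
    (`l ∤ Δ`).
(2) `h.e1.rel2`: `y1 xp - x1 p = 2 N1 g1` is divisible by `l ^ 3`.
(3) `x1 ^ 2 + D y1 ^ 2 = 4 N1 ^ 3` is divisible by `l ^ 3`.
(4) `h.i1 : x1 x2 y3 + x2 x3 y1 + x3 x1 y2 = 3 xp ^ 2 p + D Δ`, times `y1 ^ 2`, modulo `l ^ 3`: with `y1 x2 = y2 x1`,
    `y1 x3 = y3 x1`, `y1 xp = x1 p` the left side is `3 x1 ^ 2 y1 y2 y3` and `3 xp ^ 2 p y1 ^ 2 = 3 x1 ^ 2 p ^ 3`; so
    `3 x1 ^ 2 Δ = D Δ y1 ^ 2`, and with (3) `-4 D y1 ^ 2 Δ = 0` modulo `l ^ 3`.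
So `l ^ 3 ∣ 4 (D y1 ^ 2 Δ)` and `l ^ 3` is prime to `D y1 ^ 2 Δ`, so `l ^ 3 ∣ 4`, impossible (`l ^ 3 ≥ 8`).
-/

set_option autoImplicit false

namespace Pool.Agent.PPC

open Pool.Agent.SMQ

private theorem kaa_alg (m D Δ p xp x1 x2 x3 y1 y2 y3 : ℤ) (hΔ : Δ = y1 * y2 * y3 - p ^ 3)
    (h1 : m ∣ y1 * x2 - y2 * x1) (h2 : m ∣ y3 * x1 - y1 * x3) (h3 : m ∣ y1 * xp - x1 * p)
    (h4 : m ∣ x1 ^ 2 + D * y1 ^ 2)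
    (h5 : x1 * x2 * y3 + x2 * x3 * y1 + x3 * x1 * y2 = 3 * (xp ^ 2 * p) + D * Δ) :
    m ∣ 4 * (D * y1 ^ 2 * Δ) := by
  obtain ⟨a, ha⟩ := h1
  obtain ⟨b, hb⟩ := h2
  obtain ⟨c, hc⟩ := h3
  obtain ⟨d, hd⟩ := h4
  subst hΔ
  refine ⟨3 * (y1 * y2 * y3 - p ^ 3) * d + (y1 * x1 * y3 + y1 ^ 2 * x3) * a -
    2 * y1 * y2 * x1 * b - 3 * p * (y1 * xp + x1 * p) * c, ?_⟩
  linear_combination 3 * (y1 * y2 * y3 - p ^ 3) * hd - y1 ^ 2 * h5 +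
    (y1 * x1 * y3 + y1 ^ 2 * x3) * ha - 2 * y1 * y2 * x1 * hb -
    3 * p * (y1 * xp + x1 * p) * hc

private theorem sq_dvd (l N1 : ℕ) (Δ p y1 g1 g2 g3 : ℤ) (hco : IsCoprime ((l : ℤ)) Δ)
    (hi : (N1 : ℤ) * Δ = y1 * g2 * g3 - p * g1 ^ 2) (h1 : (l : ℤ) ∣ g1) (h2 : (l : ℤ) ∣ g2)
    (h3 : (l : ℤ) ∣ g3) : l ^ 2 ∣ N1 := by
  have e : (l : ℤ) ^ 2 ∣ N1 * Δ := by
    rw [hi]
    obtain ⟨a, rfl⟩ := h1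
    obtain ⟨b, rfl⟩ := h2
    obtain ⟨c, rfl⟩ := h3
    exact ⟨y1 * b * c - p * a ^ 2, by ring⟩
  have e2 : (l : ℤ) ^ 2 ∣ N1 := (hco.pow_left (m := 2)).dvd_of_dvd_mul_right e
  exact_mod_cast e2

theorem kaa (D0 G : ℕ) (p xp : ℤ) (x y g r : V3) (N : ℕ × ℕ × ℕ) (N4 : ℕ) (u v : V3)
    (h : Dt D0 G p xp x y g r N N4 u v) (l : ℕ) (hl : l.Prime) (hg : Dv (l : ℤ) g) :
    (l : ℤ) ∣ De p y := by
  by_contra hΔ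
  have hlp : Prime (l : ℤ) := Nat.prime_iff_prime_int.1 hl
  have hco : IsCoprime (l : ℤ) (De p y) := hlp.coprime_iff_not_dvd.2 hΔ
  have hco3 : IsCoprime ((l : ℤ) ^ 3) (De p y) := hco.pow_left
  obtain ⟨g1, g2, g3⟩ := hg
  have s1 : l ^ 2 ∣ N.1 := sq_dvd l N.1 (De p y) p y.1 g.1 g.2.1 g.2.2 hco
    (by have := h.tri.t1.hi; unfold De; exact this) g1 g2 g3
  have s2 : l ^ 2 ∣ N.2.1 := sq_dvd l N.2.1 (De p y) p y.2.1 g.2.1 g.2.2 g.1 hco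
    (by
      have := h.tri.t2.hi
      unfold De
      rw [← this]
      ring) g2 g3 g1
  have s3 : l ^ 2 ∣ N.2.2 := sq_dvd l N.2.2 (De p y) p y.2.2 g.2.2 g.1 g.2.1 hco
    (by
      have := h.tri.t3.hi
      unfold De
      rw [← this]
      ring) g3 g1 g2
  have nD : ¬ l ∣ D0 := fun hd => h.e1.nn l hl (Or.inl hd) s1
  have nG : ¬ l ∣ G := fun hd => h.e1.nn l hl (Or.inr (Or.inl hd)) s1
  have n1 : ¬ (l : ℤ) ∣ y.1 := fun hd => h.e1.nn l hl (Or.inr (Or.inr hd)) s1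
  have c3 : ∀ z w : ℤ, (l : ℤ) ∣ z → (l : ℤ) ∣ w → ∀ a b : ℤ,
      (l : ℤ) ^ 3 ∣ 2 * (a * z ^ 3 - b * w ^ 3) := by
    intro z w hz hw a b
    obtain ⟨z', rfl⟩ := hz
    obtain ⟨w', rfl⟩ := hw
    exact ⟨2 * (a * z' ^ 3 - b * w' ^ 3), by ring⟩
  have k1 : (l : ℤ) ^ 3 ∣ y.1 * x.2.1 - y.2.1 * x.1 := by
    have e := c3 g.2.1 g.1 g2 g1 y.1 y.2.1
    rw [h.e1.kk] at e
    have e' : (l : ℤ) ^ 3 ∣ De p y * (y.1 * x.2.1 - y.2.1 * x.1) := by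
      unfold De
      exact e
    exact hco3.dvd_of_dvd_mul_left e'
  have k2 : (l : ℤ) ^ 3 ∣ y.2.2 * x.1 - y.1 * x.2.2 := by
    have e := c3 g.1 g.2.2 g1 g3 y.2.2 y.1
    rw [h.e3.kk] at e
    have e' : (l : ℤ) ^ 3 ∣ De p y * (y.2.2 * x.1 - y.1 * x.2.2) := by
      have e0 : De p y * (y.2.2 * x.1 - y.1 * x.2.2) =
          (y.2.2 * y.1 * y.2.1 - p ^ 3) * (y.2.2 * x.1 - y.1 * x.2.2) := by
        unfold De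
        ring
      rw [e0]
      exact e
    exact hco3.dvd_of_dvd_mul_left e'
  have s1' : (l : ℤ) ^ 2 ∣ (N.1 : ℤ) := by exact_mod_cast s1
  have k3 : (l : ℤ) ^ 3 ∣ y.1 * xp - x.1 * p := by
    rw [← h.e1.rel2]
    obtain ⟨a, ha⟩ := s1'
    obtain ⟨b, hb⟩ := g1
    rw [ha, hb]
    exact ⟨2 * a * b, by ring⟩
  have k4 : (l : ℤ) ^ 3 ∣ x.1 ^ 2 + ((D0 : ℤ) * G ^ 2) * y.1 ^ 2 := by
    have e : x.1 ^ 2 + ((D0 : ℤ) * G ^ 2) * y.1 ^ 2 = 4 * (N.1 : ℤ) ^ 3 := by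
      rw [h.e1.ny]
      ring
    rw [e]
    obtain ⟨a, ha⟩ := s1'
    rw [ha]
    exact ⟨4 * (l : ℤ) ^ 3 * a ^ 3, by ring⟩
  have k5 := kaa_alg ((l : ℤ) ^ 3) ((D0 : ℤ) * G ^ 2) (De p y) p xp x.1 x.2.1 x.2.2 y.1 y.2.1 y.2.2
    rfl k1 k2 k3 k4 h.i1
  have cD : IsCoprime (l : ℤ) (D0 : ℤ) := by
    refine hlp.coprime_iff_not_dvd.2 (fun hd => nD ?_)
    exact_mod_cast hd
  have cG : IsCoprime (l : ℤ) (G : ℤ) := by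
    refine hlp.coprime_iff_not_dvd.2 (fun hd => nG ?_)
    exact_mod_cast hd
  have cy : IsCoprime (l : ℤ) y.1 := hlp.coprime_iff_not_dvd.2 n1
  have cAll : IsCoprime ((l : ℤ) ^ 3) ((D0 : ℤ) * G ^ 2 * y.1 ^ 2 * De p y) :=
    (((cD.mul_right (cG.pow_right (n := 2))).mul_right (cy.pow_right (n := 2))).mul_right hco).pow_left
  have k6 : (l : ℤ) ^ 3 ∣ 4 := cAll.dvd_of_dvd_mul_right k5
  have k7 : l ^ 3 ∣ 4 := by exact_mod_cast k6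
  have k8 := Nat.le_of_dvd (by norm_num) k7
  have k9 : 2 ^ 3 ≤ l ^ 3 := Nat.pow_le_pow_left hl.two_le 3
  omega

end Pool.Agent.PPC
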