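import Pool.Agent.PPC.Lca
import Pool.Agent.PPC.Kcr
import Pool.Agent.PPC.Kaa
import Pool.Agent.PPD.Sxc

/-!
# PPC/Lgg: primes `l ≥ 5` dividing the content `G`, not `Δ`

PROOF.  `PPD.sx_cl` gives `cl : V3 → Fin (12 l)`.  For `w = (g, u, v) ∈ Wi G p y`: `¬ Dv l g` (`kaa`), and `l ∣ Sx p y g`:
`PPD.sx_id` with `D = D0 G ^ 2` (`h.e1.ny`, `h.tri.t1.hi`, `h.e1.xx`) gives `D0 G ^ 2 Δ ^ 4 = - Sx`, and `l ∣ G`.
`lca` with `k = 0`, `K = (Finset.range (12 l)).image (fun t => (0, t))`, `key w = (0, cl w.1)`, `m = 1` (constant); `hc` is the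
property of `cl`.  The bounds: `12 l`; `l ^ 0 / l ^ 1` summed over `12 l` keys is `12`; `l ^ 0 / l ^ 2` summed is `12 / l`.
-/

set_option autoImplicit false

namespace Pool.Agent.PPC

open Pool.Agent.SMQ

private theorem lgg_loc (G : ℕ) (p : ℤ) (y : V3) (l : ℕ) (hl : l.Prime) (hG : l ∣ G)
    (hd : ¬ (l : ℤ) ∣ De p y) (w : W3) (hw : w ∈ Wi G p y) :
    ¬ ((l : ℤ) ∣ w.1.1 ∧ (l : ℤ) ∣ w.1.2.1 ∧ (l : ℤ) ∣ w.1.2.2) ∧
      (l : ℤ) ∣ PPD.Sx p y.1 y.2.1 y.2.2 w.1.1 w.1.2.1 w.1.2.2 ∧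
      dt w.2.1 w.1 = 0 ∧ dt w.2.2 w.1 = 0 := by
  obtain ⟨D0, xp, x, r, N, N4, h⟩ := hw
  refine ⟨?_, ?_, ?_⟩
  · intro hg
    exact hd (kaa D0 G p xp x y w.1 r N N4 w.2.1 w.2.2 h l hl hg)
  · refine PPD.sx_dvd ((D0 : ℤ) * (G : ℤ) ^ 2) N.1 p x.1 y.1 y.2.1 y.2.2 w.1.1 w.1.2.1 w.1.2.2
      h.tri.t1.hy ?_ h.tri.t1.hi h.e1.xx l ?_
    · have h1 := h.e1.ny
      linear_combination h1
    · exact Dvd.dvd.mul_left (dvd_pow (Int.natCast_dvd_natCast.2 hG) two_ne_zero) _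
  · have h1 := kcr D0 G p xp x y w.1 r N N4 w.2.1 w.2.2 h
    exact h1.2

theorem lgg (G : ℕ) (p : ℤ) (y : V3) (l : ℕ) (hl : l.Prime) (h5 : 5 ≤ l) (hG : l ∣ G)
    (hd : ¬ (l : ℤ) ∣ De p y) : Lc l 0 (Wi G p y) (12 * l) 12 (12 / l) := by
  obtain ⟨c, hc⟩ := PPD.sx_cl l hl h5 p y hd
  have hloc := lgg_loc G p y l hl hG hd
  have hinj : Function.Injective (fun t : ℕ => ((0, t) : ℕ × ℕ)) := by
    intro a b hab
    simpa using hab
  have hl0 : (0 : ℝ) < (l : ℝ) := by exact_mod_cast hl.pos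
  have hcard : ((Finset.range (12 * l)).image (fun t : ℕ => ((0, t) : ℕ × ℕ))).card = 12 * l := by
    rw [Finset.card_image_of_injective _ hinj, Finset.card_range]
  have key := lca l 0 hl (Wi G p y) ((Finset.range (12 * l)).image (fun t : ℕ => ((0, t) : ℕ × ℕ)))
    (fun w => (0, (c w.1 : ℕ))) (fun _ => 1) ?_ ?_ ?_ ?_
  · refine lc_mono l 0 _ _ _ _ _ _ _ key ?_ ?_ ?_
    · rw [hcard]
      push_cast
      exact le_refl _
    · rw [Finset.sum_image (fun a _ b _ hab => hinj hab)]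
      simp only [Finset.sum_const, Finset.card_range, nsmul_eq_mul]
      push_cast
      rw [pow_one, pow_zero]
      apply le_of_eq
      field_simp
    · rw [Finset.sum_image (fun a _ b _ hab => hinj hab)]
      simp only [Finset.sum_const, Finset.card_range, nsmul_eq_mul]
      push_cast
      rw [pow_zero]
      apply le_of_eq
      field_simp
  · intro w hw
    rw [Finset.mem_image]
    exact ⟨(c w.1 : ℕ), Finset.mem_range.2 (c w.1).2, rfl⟩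
  · intro w hw
    exact (hloc w hw).2.2
  · intro w hw
    refine ⟨?_, ?_⟩
    · show Dv ((l : ℤ) ^ 0) w.1
      rw [pow_zero]
      exact ⟨one_dvd _, one_dvd _, one_dvd _⟩
    · show ¬ Dv ((l : ℤ) ^ (0 + 1)) w.1
      rw [zero_add, pow_one]
      exact (hloc w hw).1
  · intro w hw w' hw' he
    show Dv ((l : ℤ) ^ (2 * 0 + 1)) (cr w'.1 w.1)
    rw [mul_zero, zero_add, pow_one]
    have he' : c w'.1 = c w.1 := by
      apply Fin.ext
      have := congrArg Prod.snd he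
      exact this.symm
    exact hc w'.1 w.1 (hloc w' hw').1 (hloc w hw).1 (hloc w' hw').2.1 (hloc w hw).2.1 he'

end Pool.Agent.PPC
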