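import Pool.Agent.PPC.Gsm
import Pool.Agent.PPC.Lal
import Pool.Agent.PPC.Lgg
import Pool.Agent.PPC.Cpd

/-!
# PPC/Csu: THE CLASS THEOREM

PROOF.  `De p y ≠ 0` (`hD`: `|De| ≥ Dh > 0`).  Let `A` be the set of the
prime factors of `|De p y|`, `B = (G1p G).filter (l ∤ Δ)` (see `WJ`), `P = A ∪ B` (disjoint), `k l = (De p y).natAbs.factorization l`
(`0` on `B`).  `gsm` with `a = b = d = om1 G l p y` on `A` and `(a, b, d) = (12 l, 12, 12 / l)` on `B`: `hLc` from `lal` and `lgg`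
(`l ∈ G1p G`: `l` prime, `l ∣ G`, `5 ≤ l`); `hk` from `cpf`; `ha`, `hb`: all quantities in `Aa`, `Bb` are nonnegative.
-/

set_option autoImplicit false

namespace Pool.Agent.PPC

open Pool.Agent.SMQ

theorem csu (r1 r2 r3 t Q ph y2h y3h Dh : ℝ) (G : ℕ) (p : ℤ) (y : V3) (hp : PPR.Dy ph p)
    (h2 : PPR.Dy y2h y.2.1) (h3 : PPR.Dy y3h y.2.2) (hD : PPR.Dy Dh (De p y)) (hQ : 0 < Q)
    (hr1 : 0 < r1) (hr2 : 0 < r2) (hr3 : 0 < r3) (ht : 0 < t)
    (T : Finset V3) (hT : ∀ g ∈ T, ∃ (D0 : ℕ) (N : ℕ × ℕ × ℕ), Pt Q D0 G p y g N ∧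
      PPR.Sh r1 r2 r3 t p y.1 y.2.1 y.2.2 g.1 g.2.1 g.2.2 N.1 N.2.1 N.2.2) :
    (T.card : ℝ) ≤ 10 ^ 21 * (PPW.WJ 1 G p y.1 y.2.1 y.2.2 +
      PPW.WJ 2 G p y.1 y.2.1 y.2.2 * PPR.Aa r1 r2 r3 t Q ph y2h y3h Dh +
      PPW.WJ 3 G p y.1 y.2.1 y.2.2 * PPR.Bb r1 r2 r3 t ph y2h y3h Dh) := by
  classical
  have hph : 0 < ph := hp.1
  have hy2 : 0 < y2h := h2.1
  have hy3 : 0 < y3h := h3.1
  have hDh : 0 < Dh := hD.1
  have hD0 : De p y ≠ 0 := by
    intro h0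
    have h1 := hD.2.1
    rw [h0] at h1
    simp at h1
    linarith
  have hmm : 0 ≤ PPR.mm t ph Dh := le_min (sq_nonneg _) (by positivity)
  have hL2 : 0 ≤ PPR.Lc (r1 * r2 * r3) t r2 y2h Dh := le_min (by positivity) (by positivity)
  have hL3 : 0 ≤ PPR.Lc (r1 * r2 * r3) t r3 y3h Dh := le_min (by positivity) (by positivity)
  have hLm := le_min hL2 hL3
  have ha : 0 ≤ PPR.Aa r1 r2 r3 t Q ph y2h y3h Dh := by
    unfold PPR.Aa
    positivity
  have hb : 0 ≤ PPR.Bb r1 r2 r3 t ph y2h y3h Dh := by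
    unfold PPR.Bb
    positivity
  set A : Finset ℕ := (De p y).natAbs.primeFactors with hA
  set B : Finset ℕ := (PPW.G1p G).filter (fun l : ℕ => ¬ (l : ℤ) ∣ De p y) with hB
  have hAd : ∀ l ∈ A, (l : ℤ) ∣ De p y := fun l hl =>
    Int.natCast_dvd.2 (Nat.dvd_of_mem_primeFactors hl)
  have hBd : ∀ l ∈ B, ¬ (l : ℤ) ∣ De p y := fun l hl => (Finset.mem_filter.1 hl).2
  have hBG : ∀ l ∈ B, l.Prime ∧ 5 ≤ l ∧ l ∣ G := by
    intro l hl
    have h1 := (Finset.mem_filter.1 hl).1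
    have h4 := Finset.mem_filter.1 h1
    exact ⟨Nat.prime_of_mem_primeFactors h4.1, h4.2.1, Nat.dvd_of_mem_primeFactors h4.1⟩
  have hdisj : Disjoint A B := by
    rw [Finset.disjoint_left]
    intro l hl hl'
    exact hBd l hl' (hAd l hl)
  have hPr : ∀ l ∈ A ∪ B, l.Prime := by
    intro l hl
    rcases Finset.mem_union.1 hl with h | h
    · exact Nat.prime_of_mem_primeFactors h
    · exact (hBG l h).1
  have hPd : ∀ l : ℕ, l.Prime → (l : ℤ) ∣ De p y → l ∈ A ∪ B := by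
    intro l hl hd
    exact Finset.mem_union_left _ (Nat.mem_primeFactors.2 ⟨hl, Int.natCast_dvd.1 hd,
      Int.natAbs_ne_zero.2 hD0⟩)
  have key := gsm r1 r2 r3 t Q ph y2h y3h Dh G p y hp h2 h3 hD hQ ha hb (A ∪ B) hPr hPd
    (fun l => (De p y).natAbs.factorization l)
    (fun l => if (l : ℤ) ∣ De p y then (om1 G l p y : ℝ) else 12 * (l : ℝ))
    (fun l => if (l : ℤ) ∣ De p y then (om1 G l p y : ℝ) else 12)
    (fun l => if (l : ℤ) ∣ De p y then (om1 G l p y : ℝ) else 12 / (l : ℝ))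
    (cpf (A ∪ B) hPr (De p y) hD0 hPd) ?_ T hT
  · have hW : (PPW.Wt G p y.1 y.2.1 y.2.2 : ℝ) = ∏ l ∈ A, (om1 G l p y : ℝ) := by
      rw [← Nat.cast_prod]
      rfl
    have hp1 : ∀ f : ℕ → ℝ, ∏ l ∈ A ∪ B, (if (l : ℤ) ∣ De p y then (om1 G l p y : ℝ) else f l) =
        (PPW.Wt G p y.1 y.2.1 y.2.2 : ℝ) * ∏ l ∈ B, f l := by
      intro f
      rw [Finset.prod_union hdisj, hW]
      congr 1
      · exact Finset.prod_congr rfl fun l hl => if_pos (hAd l hl)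
      · exact Finset.prod_congr rfl fun l hl => if_neg (hBd l hl)
    have f1 : ∀ l : ℕ, PPW.fj 1 l = 12 * (l : ℝ) := fun l => by unfold PPW.fj; norm_num
    have f2 : ∀ l : ℕ, PPW.fj 2 l = 12 := fun l => by unfold PPW.fj; norm_num
    have f3 : ∀ l : ℕ, PPW.fj 3 l = 12 / (l : ℝ) := fun l => by unfold PPW.fj; norm_num
    have e1 : PPW.WJ 1 G p y.1 y.2.1 y.2.2 = (PPW.Wt G p y.1 y.2.1 y.2.2 : ℝ) *
        ∏ l ∈ B, (12 * (l : ℝ)) := by
      unfold PPW.WJ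
      simp only [f1]
      rfl
    have e2 : PPW.WJ 2 G p y.1 y.2.1 y.2.2 = (PPW.Wt G p y.1 y.2.1 y.2.2 : ℝ) *
        ∏ l ∈ B, (12 : ℝ) := by
      unfold PPW.WJ
      simp only [f2]
      rfl
    have e3 : PPW.WJ 3 G p y.1 y.2.1 y.2.2 = (PPW.Wt G p y.1 y.2.1 y.2.2 : ℝ) *
        ∏ l ∈ B, (12 / (l : ℝ)) := by
      unfold PPW.WJ
      simp only [f3]
      rfl
    rw [e1, e2, e3, ← hp1, ← hp1, ← hp1]
    exact key
  · intro l hl
    rcases Finset.mem_union.1 hl with h | h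
    · simp only [if_pos (hAd l h)]
      exact lal G p y l (hPr l hl) (hAd l h) hD0
    · simp only [if_neg (hBd l h)]
      have h0 : (De p y).natAbs.factorization l = 0 := by
        apply Nat.factorization_eq_zero_of_not_dvd
        intro h1
        exact hBd l h (Int.natCast_dvd.2 h1)
      rw [h0]
      exact lgg G p y l (hBG l h).1 (hBG l h).2.1 (hBG l h).2.2 (hBd l h)

end Pool.Agent.PPC
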