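import Pool.Agent.PPC.Defs
import Pool.Agent.PPW.DefsJ

/-!
# PPC: local classes

A point is `w = (g, u, v)` with `u × v = G g`.  `LP l s c i H w`: the local group `H` of the class of `w` at
the prime `l`: `c` is the exponent of `l` in `gcd g`, `l ^ s ∣ u·h, v·h, g × h`, `l ^ i ∣ det (g, h, h')` for
`h, h' ∈ H`.  `Lc`: a classification of the points at `l` (`k` is the exponent of `l` in `Δ`) with the
bounds `a, b, d` for the number of classes, the sum of `l ^ (k - s)` and the sum of `l ^ (2 k - i)`.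
-/

set_option autoImplicit false

namespace Pool.Agent.PPC

open Pool.Agent.SMQ

/-- `m` divides all coordinates -/
def Dv (m : ℤ) (h : V3) : Prop := m ∣ h.1 ∧ m ∣ h.2.1 ∧ m ∣ h.2.2

theorem dv_zero (m : ℤ) : Dv m (0 : V3) := ⟨dvd_zero _, dvd_zero _, dvd_zero _⟩

theorem dv_add (m : ℤ) (a b : V3) (ha : Dv m a) (hb : Dv m b) : Dv m (a + b) :=
  ⟨dvd_add ha.1 hb.1, dvd_add ha.2.1 hb.2.1, dvd_add ha.2.2 hb.2.2⟩

theorem dv_neg (m : ℤ) (a : V3) (ha : Dv m a) : Dv m (-a) :=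
  ⟨ha.1.neg_right, ha.2.1.neg_right, ha.2.2.neg_right⟩

theorem cr_add_left (a b c : V3) : cr (a + b) c = cr a c + cr b c := by
  unfold cr
  simp only [Prod.fst_add, Prod.snd_add, Prod.mk_add_mk, Prod.mk.injEq]
  refine ⟨?_, ?_, ?_⟩ <;> ring

theorem cr_neg_left (a c : V3) : cr (-a) c = - cr a c := by
  unfold cr
  simp only [Prod.fst_neg, Prod.snd_neg, Prod.neg_mk, Prod.mk.injEq]
  refine ⟨?_, ?_, ?_⟩ <;> ring

theorem cr_zero_left (c : V3) : cr 0 c = 0 := by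
  unfold cr
  simp

theorem dt_add_right (a b c : V3) : dt a (b + c) = dt a b + dt a c := by
  unfold dt
  simp only [Prod.fst_add, Prod.snd_add]
  ring

theorem dt_neg_right (a b : V3) : dt a (-b) = - dt a b := by
  unfold dt
  simp only [Prod.fst_neg, Prod.snd_neg]
  ring

theorem dt_zero_right (a : V3) : dt a 0 = 0 := by
  unfold dt
  simp

/-- the group of a class of type A: the vectors `h` divisible by `l ^ c` with `h × g` divisible by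
`l ^ (2 c + m)` -/
def HA (l c m : ℕ) (g : V3) : AddSubgroup V3 where
  carrier := {h | Dv ((l : ℤ) ^ c) h ∧ Dv ((l : ℤ) ^ (2 * c + m)) (cr h g)}
  zero_mem' := ⟨dv_zero _, by rw [cr_zero_left]; exact dv_zero _⟩
  add_mem' := by
    rintro a b ⟨ha, ha'⟩ ⟨hb, hb'⟩
    exact ⟨dv_add _ _ _ ha hb, by rw [cr_add_left]; exact dv_add _ _ _ ha' hb'⟩
  neg_mem' := by
    rintro a ⟨ha, ha'⟩
    exact ⟨dv_neg _ _ ha, by rw [cr_neg_left]; exact dv_neg _ _ ha'⟩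

theorem mem_HA (l c m : ℕ) (g h : V3) :
    h ∈ HA l c m g ↔ Dv ((l : ℤ) ^ c) h ∧ Dv ((l : ℤ) ^ (2 * c + m)) (cr h g) := Iff.rfl

/-- the group of a class of type B -/
def HB (l : ℕ) (u v : V3) : AddSubgroup V3 where
  carrier := {h | Dv (l : ℤ) h ∧ (l : ℤ) ^ 2 ∣ dt u h ∧ (l : ℤ) ^ 2 ∣ dt v h}
  zero_mem' := ⟨dv_zero _, by rw [dt_zero_right]; exact dvd_zero _,
    by rw [dt_zero_right]; exact dvd_zero _⟩
  add_mem' := by
    rintro a b ⟨ha, ha1, ha2⟩ ⟨hb, hb1, hb2⟩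
    exact ⟨dv_add _ _ _ ha hb, by rw [dt_add_right]; exact dvd_add ha1 hb1,
      by rw [dt_add_right]; exact dvd_add ha2 hb2⟩
  neg_mem' := by
    rintro a ⟨ha, ha1, ha2⟩
    exact ⟨dv_neg _ _ ha, by rw [dt_neg_right]; exact ha1.neg_right,
      by rw [dt_neg_right]; exact ha2.neg_right⟩

theorem mem_HB (l : ℕ) (u v h : V3) :
    h ∈ HB l u v ↔ Dv (l : ℤ) h ∧ (l : ℤ) ^ 2 ∣ dt u h ∧ (l : ℤ) ^ 2 ∣ dt v h := Iff.rfl

/-- points `(g, u, v)` -/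
abbrev W3 := V3 × V3 × V3

/-- the local group `H` of the class of the point `w` at `l` -/
structure LP (l s c i : ℕ) (H : AddSubgroup V3) (w : W3) : Prop where
  du : ∀ h ∈ H, (l : ℤ) ^ s ∣ dt w.2.1 h
  dv : ∀ h ∈ H, (l : ℤ) ^ s ∣ dt w.2.2 h
  dc : ∀ h ∈ H, Dv ((l : ℤ) ^ c) h
  nc : ¬ Dv ((l : ℤ) ^ (c + 1)) w.1
  ds : ∀ h ∈ H, Dv ((l : ℤ) ^ s) (cr w.1 h)
  di : ∀ h ∈ H, ∀ h' ∈ H, (l : ℤ) ^ i ∣ dt (cr w.1 h) h'

/-- a classification of the points of `S` at the prime `l` -/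
def Lc (l k : ℕ) (S : Set W3) (a b d : ℝ) : Prop :=
  ∃ (K : Finset (ℕ × ℕ)) (key : W3 → ℕ × ℕ) (s c i : ℕ × ℕ → ℕ) (H : W3 → AddSubgroup V3),
    (∀ w ∈ S, key w ∈ K ∧ LP l (s (key w)) (c (key w)) (i (key w)) (H w) w) ∧
    (∀ w ∈ S, ∀ w' ∈ S, key w = key w' → w'.1 ∈ H w) ∧
    (K.card : ℝ) ≤ a ∧ ∑ j ∈ K, (l : ℝ) ^ k / (l : ℝ) ^ s j ≤ b ∧
    ∑ j ∈ K, (l : ℝ) ^ (2 * k) / (l : ℝ) ^ i j ≤ d

/-- the points for fixed `G, p, y` -/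
def Wi (G : ℕ) (p : ℤ) (y : V3) : Set W3 :=
  {w | ∃ (D0 : ℕ) (xp : ℤ) (x r : V3) (N : ℕ × ℕ × ℕ) (N4 : ℕ),
    Dt D0 G p xp x y w.1 r N N4 w.2.1 w.2.2}

/-- `l ^ k` divides `Δ` exactly -/
def Ex (l k : ℕ) (n : ℤ) : Prop := (l : ℤ) ^ k ∣ n ∧ ¬ (l : ℤ) ^ (k + 1) ∣ n

/-- the local factor `ω` -/
noncomputable def om1 (G l : ℕ) (p : ℤ) (y : V3) : ℕ :=
  PPW.om G l ((De p y).natAbs.factorization l) p y.1 y.2.1 y.2.2

end Pool.Agent.PPC
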