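import Pool.Agent.PPC.Defs

/-!
# PPC/Dja: from `U1` and `Ux1` to `Dt1`

The integers of `U1`, `Ux1` are `G` times those of `Dt1`.
PROOF.  `ny`, `ng`: the same.  `rel2`, `rel3`, `rel5`: cancel `G`.  `kk`: `G ^ 4` times the claim (`mul_left_cancel₀`).  `xx`: `G ^ 6` times
the claim.  `nn`, `nd`: `l ∣ G` or `l ∣ y1` implies `l ∣ G y1`.
`ta`: let `s` be the exponent of `l` in `G` (`l ^ s ∣ G`, `¬ l ^ (s + 1) ∣ G`; `Nat.exists_eq_pow_mul_and_not_dvd`).  `l ∣ p`, `l ∣ y1` give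
`l ^ (s + 1) ∣ G p, G y1`; `l ∤ y2` gives `¬ l ^ (s + 1) ∣ G y2` (write `G = l ^ s G'`), the same for `y3`; `l ∣ g2, g3` would give
`l ^ (s + 1) ∣ G g2, G g3`, against `h'.ta`.
`tb`: `l ∤ y3` by `co`.  With `s` as before `h.lo l s` gives `s = 0` (so `l ∤ G`), `¬ l ^ 2 ∣ G y1`, `¬ l ^ 2 ∣ G y2`, `l ∣ G gᵢ`, so
`l ∣ gᵢ`.
-/

set_option autoImplicit false

namespace Pool.Agent.PPC

open Pool.Agent.SMQ

private theorem Dja_exp (G l : ℕ) (hG : 1 ≤ G) (hl : l.Prime) : ∃ s : ℕ,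
    (l : ℤ) ^ s ∣ (G : ℤ) ∧ (∀ a : ℤ, (l : ℤ) ∣ a → (l : ℤ) ^ (s + 1) ∣ (G : ℤ) * a) ∧
    (∀ a : ℤ, ¬ (l : ℤ) ∣ a → ¬ (l : ℤ) ^ (s + 1) ∣ (G : ℤ) * a) ∧ (s = 0 → ¬ l ∣ G) := by
  obtain ⟨s, G', hG', hGe⟩ := Nat.exists_eq_pow_mul_and_not_dvd (n := G) (by omega) l hl.ne_one
  have hGz : (G : ℤ) = (l : ℤ) ^ s * (G' : ℤ) := by
    rw [hGe]
    push_cast
    ring
  have hlp : Prime (l : ℤ) := Nat.prime_iff_prime_int.mp hl
  refine ⟨s, ⟨G', hGz⟩, ?_, ?_, ?_⟩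
  · rintro a ⟨b, rfl⟩
    refine ⟨(G' : ℤ) * b, ?_⟩
    rw [hGz, pow_succ]
    ring
  · intro a ha hdvd
    rw [hGz, pow_succ, mul_assoc] at hdvd
    rw [mul_dvd_mul_iff_left (pow_ne_zero s hlp.ne_zero)] at hdvd
    rcases hlp.dvd_or_dvd hdvd with h1 | h1
    · exact hG' (by exact_mod_cast h1)
    · exact ha h1
  · intro hs h1
    subst hs
    rw [pow_zero, one_mul] at hGe
    rw [hGe] at h1
    exact hG' h1

theorem dja (D G N1 N2 N3 N4 : ℕ) (p xp x1 x2 x3 y1 y2 y3 g1 g2 g3 r1 r2 r3 : ℤ)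
    (a1 a2 a3 b1 b2 b3 : ℤ) (hG : 1 ≤ G)
    (h : SMI.U1 D N1 N2 N3 N4 (G * p) xp x1 x2 x3 (G * y1) (G * y2) (G * y3)
      (G * g1) (G * g2) (G * g3) r1 r2 r3 a1 a2 a3 b1 b2 b3)
    (h' : Ux1 D N1 N2 N3 (G * p) xp (G * y1) (G * y2) (G * y3) (G * g1) (G * g2) (G * g3) r1)
    (co : ∀ l : ℕ, l.Prime → (l : ℤ) ∣ p → (l : ℤ) ∣ y1 → (l : ℤ) ∣ y2 → ¬ (l : ℤ) ∣ y3) :
    Dt1 D G N1 N2 N3 p xp x1 x2 x3 y1 y2 y3 g1 g2 g3 r1 r2 r3 := by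
  have hGz : (G : ℤ) ≠ 0 := by
    have : (1 : ℤ) ≤ (G : ℤ) := by exact_mod_cast hG
    omega
  refine ⟨h.ny, h.ng, ?_, ?_, ?_, ?_, ?_, ?_, ?_, ?_, ?_⟩
  · apply mul_left_cancel₀ hGz
    linear_combination h.rel2
  · apply mul_left_cancel₀ hGz
    linear_combination h.rel3
  · apply mul_left_cancel₀ hGz
    linear_combination h'.rel5
  · apply mul_left_cancel₀ (pow_ne_zero 4 hGz)
    linear_combination h.kk
  · apply mul_left_cancel₀ (pow_ne_zero 6 hGz)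
    linear_combination h.xx
  · intro l hl hc
    apply h.nn l hl
    rcases hc with h1 | h1 | h1
    · exact Or.inl h1
    · exact Or.inr (Dvd.dvd.mul_right (Int.natCast_dvd_natCast.mpr h1) _)
    · exact Or.inr (Dvd.dvd.mul_left h1 _)
  · intro l hl hN hc
    apply h'.nd l hl hN
    rcases hc with h1 | h1
    · exact Dvd.dvd.mul_right (Int.natCast_dvd_natCast.mpr h1) _
    · exact Dvd.dvd.mul_left h1 _
  · intro l hl hp hy1 hy2 hy3 hg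
    obtain ⟨s, hs, hA, hB, _⟩ := Dja_exp G l hG hl
    exact h'.ta l s hl (hA p hp) (hA y1 hy1) (Dvd.dvd.mul_right hs _) (Dvd.dvd.mul_right hs _)
      (hB y2 hy2) (hB y3 hy3) ⟨hA g2 hg.1, hA g3 hg.2⟩
  · intro l hl hp hy1 hy2
    have hy3 := co l hl hp hy1 hy2
    obtain ⟨s, hs, hA, hB, hC⟩ := Dja_exp G l hG hl
    obtain ⟨h1, h2, h3, h4, h5, h6⟩ := h.lo l s hl (hA p hp) (hA y1 hy1) (hA y2 hy2) (hB y3 hy3)
    have hlG := hC h1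
    have hlp : Prime (l : ℤ) := Nat.prime_iff_prime_int.mp hl
    have key : ∀ a : ℤ, (l : ℤ) ∣ (G : ℤ) * a → (l : ℤ) ∣ a := by
      intro a ha
      rcases hlp.dvd_or_dvd ha with h7 | h7
      · exact absurd (Int.natCast_dvd_natCast.mp h7) hlG
      · exact h7
    exact ⟨hlG, fun h7 => h2 (Dvd.dvd.mul_left h7 _), fun h7 => h3 (Dvd.dvd.mul_left h7 _), hy3,
      key _ h4, key _ h5, key _ h6⟩

end Pool.Agent.PPC
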