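import Pool.Agent.SMI.Defs
import Pool.Agent.SMI.Rct
import Pool.Agent.SMI.Rlo
import Pool.Agent.SMI.Rka
import Pool.Agent.SMI.Rt1

/-!
# PPC/Rtj: from `Uq` to `Tri`, with the primitivity of the reduced `(p, y)`

The proof is the one of `SMI.rti` (helper46).
-/

set_option autoImplicit false

namespace Pool.Agent.PPC

open Pool.Agent.SMQ Pool.Agent.SMI

theorem rtj (D : ℕ) (p xp : ℤ) (x y g r : V3) (N : ℕ × ℕ × ℕ) (N4 : ℕ) (u v : V3)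
    (h : Uq D p xp x y g r N N4 u v) (hp : p ≠ 0) (hD : De p y ≠ 0) (h4 : N.1 ≤ N4) :
    ∃ (G : ℕ) (p' : ℤ) (y' g' : V3), p = G * p' ∧ y.1 = G * y'.1 ∧ y.2.1 = G * y'.2.1 ∧
      y.2.2 = G * y'.2.2 ∧ g.1 = G * g'.1 ∧ g.2.1 = G * g'.2.1 ∧ g.2.2 = G * g'.2.2 ∧
      Tri (G ^ 2 * D) G p' y' g' N N4 u v ∧
      ∀ l : ℕ, l.Prime → (l : ℤ) ∣ p' → (l : ℤ) ∣ y'.1 → (l : ℤ) ∣ y'.2.1 → ¬ (l : ℤ) ∣ y'.2.2 := by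
  obtain ⟨y1, y2, y3⟩ := y
  obtain ⟨g1, g2, g3⟩ := g
  obtain ⟨N1, N2, N3⟩ := N
  obtain ⟨x1, x2, x3⟩ := x
  obtain ⟨r1, r2, r3⟩ := r
  obtain ⟨u1, u2, u3⟩ := u
  obtain ⟨v1, v2, v3⟩ := v
  have e1 : U1 D N1 N2 N3 N4 p xp x1 x2 x3 y1 y2 y3 g1 g2 g3 r1 r2 r3 u1 u2 u3 v1 v2 v3 := h.e1
  have e2 : U1 D N2 N3 N1 N4 p xp x2 x3 x1 y2 y3 y1 g2 g3 g1 r2 r3 r1 u2 u3 u1 v2 v3 v1 := h.e2
  have e3 : U1 D N3 N1 N2 N4 p xp x3 x1 x2 y3 y1 y2 g3 g1 g2 r3 r1 r2 u3 u1 u2 v3 v1 v2 := h.e3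
  have hnp : 4 * ((N1 : ℤ) * N2 * N3) = xp ^ 2 + (D : ℤ) * p ^ 2 := h.np
  have hzz : (3 * ((N1 : ℤ) * N2 * N3) - (D : ℤ) * p ^ 2) * (y1 * y2 * y3 - p ^ 3) =
    xp * ((N1 : ℤ) * g1 * y2 * y3 + (N2 : ℤ) * g2 * y3 * y1 + (N3 : ℤ) * g3 * y1 * y2) -
    ((N1 : ℤ) * N2 * g1 * g2 * y3 + (N2 : ℤ) * N3 * g2 * g3 * y1 +
      (N3 : ℤ) * N1 * g3 * g1 * y2) := h.zz
  have hD' : y1 * y2 * y3 - p ^ 3 ≠ 0 := hD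
  obtain ⟨G, p', z1, z2, z3, k1, k2, k3, hG, rfl, rfl, rfl, rfl, rfl, rfl, rfl, hl⟩ :=
    rct p y1 y2 y3 g1 g2 g3 hp e1.gc e2.gc e3.gc
  have hGz : (G : ℤ) ≠ 0 := by
    have : G ≠ 0 := by omega
    exact_mod_cast this
  have hp' : p' ≠ 0 := by
    intro h0
    apply hp
    rw [h0, mul_zero]
  have hNN1 := e1.hN
  have hNN2 := e2.hN
  have hNN3 := e3.hN
  have b1 : r1 ^ 2 ≤ 4 * ((N1 : ℤ) ^ 2 * N2 * N3) := by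
    rw [e1.ng]
    have : 0 ≤ (D : ℤ) * (G * k1) ^ 2 := by positivity
    linarith
  have b2 : r2 ^ 2 ≤ 4 * ((N2 : ℤ) ^ 2 * N3 * N1) := by
    rw [e2.ng]
    have : 0 ≤ (D : ℤ) * (G * k2) ^ 2 := by positivity
    linarith
  have b3 : r3 ^ 2 ≤ 4 * ((N3 : ℤ) ^ 2 * N1 * N2) := by
    rw [e3.ng]
    have : 0 ≤ (D : ℤ) * (G * k3) ^ 2 := by positivity
    linarith
  have t1 := rt1 D G N1 N2 N3 N4 p' xp x1 x2 x3 z1 z2 z3 k1 k2 k3 r1 r2 r3 u1 u2 u3 v1 v2 v3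
    hG hNN2 hNN3 e1 b2 b3
  have t2 := rt1 D G N2 N3 N1 N4 p' xp x2 x3 x1 z2 z3 z1 k2 k3 k1 r2 r3 r1 u2 u3 u1 v2 v3 v1
    hG hNN3 hNN1 e2 b3 b1
  have t3 := rt1 D G N3 N1 N2 N4 p' xp x3 x1 x2 z3 z1 z2 k3 k1 k2 r3 r1 r2 u3 u1 u2 v3 v1 v2
    hG hNN1 hNN2 e3 b1 b2
  refine ⟨G, p', (z1, z2, z3), (k1, k2, k3), rfl, rfl, rfl, rfl, rfl, rfl, rfl, ?_, hl⟩
  refine ⟨hG, hp', ?_, ?_, Or.inl h4, t1, t2, t3, ?_, ?_⟩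
  · show z1 * z2 * z3 - p' ^ 3 ≠ 0
    intro h0
    apply hD'
    calc (G : ℤ) * z1 * (G * z2) * (G * z3) - (G * p') ^ 3
        = (G : ℤ) ^ 3 * (z1 * z2 * z3 - p' ^ 3) := by ring
      _ = 0 := by rw [h0, mul_zero]
  · show ((G ^ 2 * D : ℕ) : ℤ) * p' ^ 2 ≤ 4 * (N1 : ℤ) * N2 * N3
    push_cast
    nlinarith [sq_nonneg xp]
  · intro l hlp hlp' hlD
    have hlD' : (l : ℤ) ∣ z1 * z2 * z3 - p' ^ 3 := hlD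
    have hpr : Prime (l : ℤ) := Nat.prime_iff_prime_int.1 hlp
    have h5 : (l : ℤ) ∣ z1 * z2 * z3 := by
      have h6 : (l : ℤ) ∣ p' ^ 3 := dvd_pow hlp' (by norm_num)
      have := dvd_add hlD' h6
      rwa [sub_add_cancel] at this
    show ((l : ℤ) ∣ z1 ∧ ¬ (l : ℤ) ∣ z2 ∧ ¬ (l : ℤ) ∣ z3) ∨
      ((l : ℤ) ∣ z2 ∧ ¬ (l : ℤ) ∣ z1 ∧ ¬ (l : ℤ) ∣ z3) ∨
      ((l : ℤ) ∣ z3 ∧ ¬ (l : ℤ) ∣ z1 ∧ ¬ (l : ℤ) ∣ z2) ∨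
      ((l : ℤ) ∣ k1 ∧ (l : ℤ) ∣ k2 ∧ (l : ℤ) ∣ k3 ∧ ¬ (l : ℤ) ^ 3 ∣ z1 * z2 * z3 - p' ^ 3)
    by_cases c1 : (l : ℤ) ∣ z1
    · by_cases c2 : (l : ℤ) ∣ z2
      · have c3 : ¬ (l : ℤ) ∣ z3 := hl l hlp hlp' c1 c2
        obtain ⟨a1, a2, a3, a4⟩ := rlo G hG p' z1 z2 z3 k1 k2 k3 e1.lo l hlp hlp' c1 c2 c3
        exact Or.inr (Or.inr (Or.inr ⟨a1, a2, a3, a4⟩))
      · by_cases c3 : (l : ℤ) ∣ z3
        · obtain ⟨a1, a2, a3, a4⟩ := rlo G hG p' z3 z1 z2 k3 k1 k2 e3.lo l hlp hlp' c3 c1 c2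
          refine Or.inr (Or.inr (Or.inr ⟨a2, a3, a1, ?_⟩))
          rwa [show z1 * z2 * z3 = z3 * z1 * z2 by ring]
        · exact Or.inl ⟨c1, c2, c3⟩
    · by_cases c2 : (l : ℤ) ∣ z2
      · by_cases c3 : (l : ℤ) ∣ z3
        · obtain ⟨a1, a2, a3, a4⟩ := rlo G hG p' z2 z3 z1 k2 k3 k1 e2.lo l hlp hlp' c2 c3 c1
          refine Or.inr (Or.inr (Or.inr ⟨a3, a1, a2, ?_⟩))
          rwa [show z1 * z2 * z3 = z2 * z3 * z1 by ring]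
        · exact Or.inr (Or.inl ⟨c2, c1, c3⟩)
      · have c3 : (l : ℤ) ∣ z3 := by
          rcases hpr.dvd_or_dvd h5 with h6 | h6
          · rcases hpr.dvd_or_dvd h6 with h7 | h7
            · exact absurd h7 c1
            · exact absurd h7 c2
          · exact h6
        exact Or.inr (Or.inr (Or.inl ⟨c3, c1, c2⟩))
  · intro n n1 n2 n3
    show n ∣ p' ^ 2 * (z1 * z2 * z3 - p' ^ 3)
    apply rka D G N1 N2 N3 p' xp z1 z2 z3 k1 k2 k3 hNN1 hG _ t1.hi _ n n1 n2 n3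
    · apply mul_left_cancel₀ (pow_ne_zero 3 hGz)
      linear_combination hzz
    · intro l hlp hll
      apply e1.nn l hlp
      rcases hll with h5 | h5
      · exact Or.inl h5
      · right
        exact Dvd.dvd.mul_right (by exact_mod_cast h5) z1

end Pool.Agent.PPC
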