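import Pool.Agent.PPC.Defs
import Pool.Agent.PPC.Rtj
import Pool.Agent.PPC.Dja

/-!
# PPC/Dti: from `Uq` and `Ux` to `Dt`

PROOF.  `rtj` gives `G, p', y', g'`, `Tri` and the primitivity.  Destructure all triples and substitute.  `np`: `h.np`.  `i1`: `h'.i1` is `G`
times the claim (`De (G p') (G y') = G ^ 3 De p' y'`).  `dq`, `qf`: the same.  `e1, e2, e3`: `dja` (the primitivity is symmetric in the
three `yᵢ`).
-/

set_option autoImplicit false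

namespace Pool.Agent.PPC

open Pool.Agent.SMQ

theorem dti (D : ℕ) (p xp : ℤ) (x y g r : V3) (N : ℕ × ℕ × ℕ) (N4 : ℕ) (u v : V3)
    (h : SMI.Uq D p xp x y g r N N4 u v) (h' : Ux D p xp x y g r N u v) (hp : p ≠ 0)
    (hD : De p y ≠ 0) (h4 : N.1 ≤ N4) :
    ∃ (G : ℕ) (p' : ℤ) (y' g' : V3), p = G * p' ∧ y.1 = G * y'.1 ∧ y.2.1 = G * y'.2.1 ∧
      y.2.2 = G * y'.2.2 ∧ g.1 = G * g'.1 ∧ g.2.1 = G * g'.2.1 ∧ g.2.2 = G * g'.2.2 ∧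
      Dt D G p' xp x y' g' r N N4 u v := by
  obtain ⟨G, p', y', g', hp', hy1, hy2, hy3, hg1, hg2, hg3, tri, prim⟩ :=
    rtj D p xp x y g r N N4 u v h hp hD h4
  refine ⟨G, p', y', g', hp', hy1, hy2, hy3, hg1, hg2, hg3, ?_⟩
  obtain ⟨y1, y2, y3⟩ := y
  obtain ⟨g1, g2, g3⟩ := g
  obtain ⟨z1, z2, z3⟩ := y'
  obtain ⟨k1, k2, k3⟩ := g'
  obtain ⟨N1, N2, N3⟩ := N
  obtain ⟨x1, x2, x3⟩ := x
  obtain ⟨r1, r2, r3⟩ := r
  obtain ⟨u1, u2, u3⟩ := u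
  obtain ⟨v1, v2, v3⟩ := v
  simp only at hy1 hy2 hy3 hg1 hg2 hg3 prim
  subst hp' hy1 hy2 hy3 hg1 hg2 hg3
  have hG : 1 ≤ G := tri.hG
  have hGz : (G : ℤ) ≠ 0 := by
    have : G ≠ 0 := by omega
    exact_mod_cast this
  have e1 := h.e1
  have e2 := h.e2
  have e3 := h.e3
  have f1 := h'.e1
  have f2 := h'.e2
  have f3 := h'.e3
  simp only at e1 e2 e3 f1 f2 f3
  refine ⟨tri, h.np, ?_, h'.dq, h'.qf, ?_, ?_, ?_⟩
  · have hi := h'.i1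
    simp only [De] at hi ⊢
    apply mul_left_cancel₀ hGz
    linear_combination hi
  · exact dja D G N1 N2 N3 N4 p' xp x1 x2 x3 z1 z2 z3 k1 k2 k3 r1 r2 r3 u1 u2 u3 v1 v2 v3 hG e1 f1
      prim
  · exact dja D G N2 N3 N1 N4 p' xp x2 x3 x1 z2 z3 z1 k2 k3 k1 r2 r3 r1 u2 u3 u1 v2 v3 v1 hG e2 f2
      (fun l hl a b c d => prim l hl a d b c)
  · exact dja D G N3 N1 N2 N4 p' xp x3 x1 x2 z3 z1 z2 k3 k1 k2 r3 r1 r2 u3 u1 u2 v3 v1 v2 hG e3 f3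
      (fun l hl a b c d => prim l hl a c d b)

end Pool.Agent.PPC
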