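import Pool.Agent.PPC.Cpd
import Pool.Agent.PPC.Kcr
import Pool.Agent.PPC.Kaa
import Pool.Agent.SMQ.Crs

/-!
# PPC/Gcl: the global class

Notation: `S = ∏ l ^ s l`, `I = ∏ l ^ i l`, `κ = ∏ l ^ c l` (products over `P`, positive integers), `Δ = De p y`, `H∞ = ⨅ l ∈ P, H l`.

PROOF of `gcl`.  `Λ = {k | ∃ h, (∀ l ∈ P, h ∈ H l) ∧ S k = cr g0 h (coordinatewise)}`, an additive subgroup (`cr g0` is additive).
* `mem`: for `g ∈ T`, `S` divides the coordinates of `cr g0 g` (`ds`, `cpd`), `cr g0 g = S k'`; `k = k'` if `Δ > 0`, `k = - k'` if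
  `Δ < 0`; `Δ k = |Δ| / S * S k'`.
* `orth`: `S dt k g0 = dt (cr g0 h) g0 = 0`.
* `lb2`, `lb3`: let `k ∈ Λ`, `k ≠ 0`, `S k = cr g0 h`.  `S` divides `dt u h` and `dt v h` (`du`, `dv`, `cpd`): `dt u h = S a`,
  `dt v h = S b`.  As `G g0 = cr u v` (`kcr`), `G cr g0 h = (dt u h) v - (dt v h) u` (the identity `(u × v) × h = (u·h) v - (v·h) u`), so
  `G k = a v - b u`.  `(a, b) ≠ 0` as `k ≠ 0`, `G ≥ 1`.  The fields `lb` of `h0.tri.t2` and `t3` with `s = - b`, `t = a` give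
  `√N4 (G |g0_2|) ≤ √N2 (|G k3| √N3 + |G k1| √N1)`; divide by `G`, and `Q ≤ N4`.
* `det`: `S k = cr g0 h`, `S k' = cr g0 h'`: `S ^ 2 cr k k' = cr (cr g0 h) (cr g0 h') = (dt (cr g0 h) h') g0`, and `I` divides
  `dt (cr g0 h) h'` (`di`, `cpd`): `= I n`; so `cr k k' = n (I / S ^ 2) g0`.
* `fib`: let `g, g' ∈ T`, `cr g0 g = cr g0 g'`, `d = g' - g ∈ H l` for all `l ∈ P`, `cr g0 d = 0`, `κ ∣ d` (`dc`, `cpd`), `κ ∣ g0` (`hg0`, `dc`).
  `g0 = κ w0`, and `w0` is primitive: if a prime `l` divides `w0` then it divides `g0`, so `l ∣ Δ` (`kaa`), `l ∈ P` (`hPd`), and then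
  `l ^ (c l + 1)` divides `κ w0` (`l ^ c l ∣ κ`), against `nc`; use `SMQ.pr_of` (an integer `n` dividing `w0` has no prime factor; `w0 ≠ 0`).
  `d = κ d'`, `cr w0 d' = 0`, so `d' = n w0` (`SMQ.par` with `w = 0`), `d = n g0`.
-/

set_option autoImplicit false

namespace Pool.Agent.PPC

open Pool.Agent.SMQ

private theorem gcl_cr_add (a b c : V3) : cr a (b + c) = cr a b + cr a c := by
  unfold cr
  simp only [Prod.fst_add, Prod.snd_add, Prod.mk_add_mk, Prod.mk.injEq]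
  refine ⟨?_, ?_, ?_⟩ <;> ring

private theorem gcl_cr_neg (a b : V3) : cr a (-b) = - cr a b := by
  unfold cr
  simp only [Prod.fst_neg, Prod.snd_neg, Prod.neg_mk, Prod.mk.injEq]
  refine ⟨?_, ?_, ?_⟩ <;> ring

private theorem gcl_cr_zero (a : V3) : cr a 0 = 0 := by
  unfold cr
  simp

/-- the lattice -/
private def gclL (P : Finset ℕ) (H : ℕ → AddSubgroup V3) (S : ℤ) (g0 : V3) : AddSubgroup V3 where
  carrier := {k | ∃ h : V3, (∀ l ∈ P, h ∈ H l) ∧ S * k.1 = (cr g0 h).1 ∧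
    S * k.2.1 = (cr g0 h).2.1 ∧ S * k.2.2 = (cr g0 h).2.2}
  zero_mem' := ⟨0, fun l _ => (H l).zero_mem, by simp [gcl_cr_zero], by simp [gcl_cr_zero],
    by simp [gcl_cr_zero]⟩
  add_mem' := by
    rintro a b ⟨h, hh, h1, h2, h3⟩ ⟨h', hh', h1', h2', h3'⟩
    refine ⟨h + h', fun l hl => (H l).add_mem (hh l hl) (hh' l hl), ?_, ?_, ?_⟩
    · rw [gcl_cr_add, Prod.fst_add, Prod.fst_add, ← h1, ← h1']; ring
    · rw [gcl_cr_add, Prod.snd_add, Prod.snd_add, Prod.fst_add, Prod.fst_add, ← h2, ← h2']; ring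
    · rw [gcl_cr_add, Prod.snd_add, Prod.snd_add, Prod.snd_add, Prod.snd_add, ← h3, ← h3']; ring
  neg_mem' := by
    rintro a ⟨h, hh, h1, h2, h3⟩
    refine ⟨-h, fun l hl => (H l).neg_mem (hh l hl), ?_, ?_, ?_⟩
    · rw [gcl_cr_neg, Prod.fst_neg, Prod.fst_neg, ← h1]; ring
    · rw [gcl_cr_neg, Prod.snd_neg, Prod.snd_neg, Prod.fst_neg, Prod.fst_neg, ← h2]; ring
    · rw [gcl_cr_neg, Prod.snd_neg, Prod.snd_neg, Prod.snd_neg, Prod.snd_neg, ← h3]; ring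

private theorem gcl_mem (P : Finset ℕ) (H : ℕ → AddSubgroup V3) (S : ℤ) (g0 k : V3) :
    k ∈ gclL P H S g0 ↔ ∃ h : V3, (∀ l ∈ P, h ∈ H l) ∧ S * k.1 = (cr g0 h).1 ∧
    S * k.2.1 = (cr g0 h).2.1 ∧ S * k.2.2 = (cr g0 h).2.2 := Iff.rfl

/-- the bound for a vector of the lattice -/
private theorem gcl_lb (G N1 N2 N3 N4 : ℕ) (Q : ℝ) (hQ : Q ≤ (N4 : ℝ)) (hG : 1 ≤ G)
    (g k1 k3 c1 c3 : ℤ) (e1 : c1 = G * k1) (e3 : c3 = G * k3)
    (h : √(N4 : ℝ) * ((G : ℝ) * |(g : ℝ)|) ≤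
      √(N2 : ℝ) * (|(c3 : ℝ)| * √(N3 : ℝ) + |(c1 : ℝ)| * √(N1 : ℝ))) :
    √Q * |(g : ℝ)| ≤ √(N2 : ℝ) * (|(k1 : ℝ)| * √(N1 : ℝ) + |(k3 : ℝ)| * √(N3 : ℝ)) := by
  have hG' : (0 : ℝ) < (G : ℝ) := by exact_mod_cast hG
  subst e1 e3
  push_cast at h
  rw [abs_mul, abs_mul, abs_of_pos hG'] at h
  have h1 : √Q ≤ √(N4 : ℝ) := Real.sqrt_le_sqrt hQ
  have h2 : (G : ℝ) * (√(N4 : ℝ) * |(g : ℝ)|) ≤
      G * (√(N2 : ℝ) * (|(k1 : ℝ)| * √(N1 : ℝ) + |(k3 : ℝ)| * √(N3 : ℝ))) := by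
    calc (G : ℝ) * (√(N4 : ℝ) * |(g : ℝ)|) = √(N4 : ℝ) * ((G : ℝ) * |(g : ℝ)|) := by ring
      _ ≤ _ := h
      _ = _ := by ring
  have h3 := le_of_mul_le_mul_left h2 hG'
  exact le_trans (mul_le_mul_of_nonneg_right h1 (abs_nonneg _)) h3

theorem gcl (D0 G : ℕ) (p xp : ℤ) (x y g0 r : V3) (N : ℕ × ℕ × ℕ) (N4 : ℕ) (u v : V3)
    (h0 : Dt D0 G p xp x y g0 r N N4 u v) (Q : ℝ) (hQ : Q ≤ (N4 : ℝ)) (P : Finset ℕ)
    (hP : ∀ l ∈ P, l.Prime) (hPd : ∀ l : ℕ, l.Prime → (l : ℤ) ∣ De p y → l ∈ P)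
    (s c i : ℕ → ℕ) (H : ℕ → AddSubgroup V3)
    (hL : ∀ l ∈ P, LP l (s l) (c l) (i l) (H l) (g0, u, v)) (hg0 : ∀ l ∈ P, g0 ∈ H l)
    (T : Finset V3) (hT : ∀ g ∈ T, ∀ l ∈ P, g ∈ H l) :
    ∃ Λ : AddSubgroup V3, PPR.Cls (De p y : ℝ) (|(De p y : ℝ)| / ∏ l ∈ P, (l : ℝ) ^ s l)
      ((∏ l ∈ P, (l : ℝ) ^ i l) / (∏ l ∈ P, (l : ℝ) ^ s l) ^ 2) Q g0 N.1 N.2.1 N.2.2 Λ T := by
  classical
  have hS0 : (∏ l ∈ P, (l : ℤ) ^ s l) ≠ 0 :=
    Finset.prod_ne_zero_iff.mpr (fun l hl => pow_ne_zero _ (by exact_mod_cast (hP l hl).ne_zero))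
  have hK0 : (∏ l ∈ P, (l : ℤ) ^ c l) ≠ 0 :=
    Finset.prod_ne_zero_iff.mpr (fun l hl => pow_ne_zero _ (by exact_mod_cast (hP l hl).ne_zero))
  have hSp : 0 < (∏ l ∈ P, (l : ℤ) ^ s l) :=
    Finset.prod_pos (fun l hl => pow_pos (by exact_mod_cast (hP l hl).pos) _)
  have hSR : (∏ l ∈ P, (l : ℝ) ^ s l) = (((∏ l ∈ P, (l : ℤ) ^ s l) : ℤ) : ℝ) := by push_cast; rfl
  have hIR : (∏ l ∈ P, (l : ℝ) ^ i l) = (((∏ l ∈ P, (l : ℤ) ^ i l) : ℤ) : ℝ) := by push_cast; rfl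
  rw [hSR, hIR]
  have hcr := kcr D0 G p xp x y g0 r N N4 u v h0
  obtain ⟨⟨cg1, cg2, cg3⟩, -, -⟩ := hcr
  have hG := h0.tri.hG
  have hGz : (G : ℤ) ≠ 0 := by exact_mod_cast (by omega : G ≠ 0)
  -- divisibility by the product
  have dS : ∀ h : V3, (∀ l ∈ P, h ∈ H l) → (∏ l ∈ P, (l : ℤ) ^ s l) ∣ (cr g0 h).1 ∧
      (∏ l ∈ P, (l : ℤ) ^ s l) ∣ (cr g0 h).2.1 ∧ (∏ l ∈ P, (l : ℤ) ^ s l) ∣ (cr g0 h).2.2 := by
    intro h hh
    exact ⟨cpd P hP s _ fun l hl => ((hL l hl).ds h (hh l hl)).1,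
      cpd P hP s _ fun l hl => ((hL l hl).ds h (hh l hl)).2.1,
      cpd P hP s _ fun l hl => ((hL l hl).ds h (hh l hl)).2.2⟩
  have dK : ∀ h : V3, (∀ l ∈ P, h ∈ H l) → Dv (∏ l ∈ P, (l : ℤ) ^ c l) h := by
    intro h hh
    exact ⟨cpd P hP c _ fun l hl => ((hL l hl).dc h (hh l hl)).1,
      cpd P hP c _ fun l hl => ((hL l hl).dc h (hh l hl)).2.1,
      cpd P hP c _ fun l hl => ((hL l hl).dc h (hh l hl)).2.2⟩
  generalize hSd : (∏ l ∈ P, (l : ℤ) ^ s l) = S at *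
  -- the representation `G k = a v - b u`
  have rep : ∀ k ∈ gclL P H S g0, ∃ a b : ℤ, (G : ℤ) * k.1 = a * v.1 - b * u.1 ∧
      (G : ℤ) * k.2.1 = a * v.2.1 - b * u.2.1 ∧ (G : ℤ) * k.2.2 = a * v.2.2 - b * u.2.2 := by
    intro k hk
    obtain ⟨h, hh, h1, h2, h3⟩ := (gcl_mem P H S g0 k).mp hk
    obtain ⟨a, ha⟩ : S ∣ dt u h := by
      rw [← hSd]; exact cpd P hP s _ fun l hl => (hL l hl).du h (hh l hl)
    obtain ⟨b, hb⟩ : S ∣ dt v h := by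
      rw [← hSd]; exact cpd P hP s _ fun l hl => (hL l hl).dv h (hh l hl)
    refine ⟨a, b, ?_, ?_, ?_⟩
    · apply mul_left_cancel₀ hS0
      have e : (G : ℤ) * (cr g0 h).1 = dt u h * v.1 - dt v h * u.1 := by
        have : (G : ℤ) * (cr g0 h).1 = (G * g0.2.1) * h.2.2 - (G * g0.2.2) * h.2.1 := by
          unfold cr; ring
        rw [this, ← cg2, ← cg3]
        unfold cr dt; ring
      calc S * ((G : ℤ) * k.1) = G * (S * k.1) := by ring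
        _ = G * (cr g0 h).1 := by rw [h1]
        _ = _ := by rw [e, ha, hb]; ring
    · apply mul_left_cancel₀ hS0
      have e : (G : ℤ) * (cr g0 h).2.1 = dt u h * v.2.1 - dt v h * u.2.1 := by
        have : (G : ℤ) * (cr g0 h).2.1 = (G * g0.2.2) * h.1 - (G * g0.1) * h.2.2 := by
          unfold cr; ring
        rw [this, ← cg1, ← cg3]
        unfold cr dt; ring
      calc S * ((G : ℤ) * k.2.1) = G * (S * k.2.1) := by ring
        _ = G * (cr g0 h).2.1 := by rw [h2]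
        _ = _ := by rw [e, ha, hb]; ring
    · apply mul_left_cancel₀ hS0
      have e : (G : ℤ) * (cr g0 h).2.2 = dt u h * v.2.2 - dt v h * u.2.2 := by
        have : (G : ℤ) * (cr g0 h).2.2 = (G * g0.1) * h.2.1 - (G * g0.2.1) * h.1 := by
          unfold cr; ring
        rw [this, ← cg1, ← cg2]
        unfold cr dt; ring
      calc S * ((G : ℤ) * k.2.2) = G * (S * k.2.2) := by ring
        _ = G * (cr g0 h).2.2 := by rw [h3]
        _ = _ := by rw [e, ha, hb]; ring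
  have nz : ∀ k : V3, k ≠ 0 → ∀ a b : ℤ, (G : ℤ) * k.1 = a * v.1 - b * u.1 →
      (G : ℤ) * k.2.1 = a * v.2.1 - b * u.2.1 → (G : ℤ) * k.2.2 = a * v.2.2 - b * u.2.2 →
      (-b ≠ 0 ∨ a ≠ 0) := by
    intro k hk a b e1 e2 e3
    by_contra hcon
    push Not at hcon
    obtain ⟨hb, ha⟩ := hcon
    have hb' : b = 0 := by omega
    subst ha hb'
    apply hk
    have z1 : k.1 = 0 := by
      rcases mul_eq_zero.mp (show (G : ℤ) * k.1 = 0 by rw [e1]; ring) with h | h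
      · exact absurd h hGz
      · exact h
    have z2 : k.2.1 = 0 := by
      rcases mul_eq_zero.mp (show (G : ℤ) * k.2.1 = 0 by rw [e2]; ring) with h | h
      · exact absurd h hGz
      · exact h
    have z3 : k.2.2 = 0 := by
      rcases mul_eq_zero.mp (show (G : ℤ) * k.2.2 = 0 by rw [e3]; ring) with h | h
      · exact absurd h hGz
      · exact h
    exact Prod.ext z1 (Prod.ext z2 z3)
  refine ⟨gclL P H S g0, ?_, ?_, ?_, ?_, ?_, ?_⟩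
  · -- mem
    intro g hg
    have hgH := hT g hg
    obtain ⟨⟨k1, hk1⟩, ⟨k2, hk2⟩, ⟨k3, hk3⟩⟩ := dS g hgH
    have hSR0 : (S : ℝ) ≠ 0 := by exact_mod_cast hS0
    rcases lt_or_gt_of_ne h0.tri.hD with hD | hD
    · refine ⟨(-k1, -k2, -k3), (gcl_mem P H S g0 _).mpr ⟨-g, fun l hl =>
        (H l).neg_mem (hgH l hl), ?_, ?_, ?_⟩, ?_, ?_, ?_⟩
      · rw [gcl_cr_neg, Prod.fst_neg, hk1]; ring
      · rw [gcl_cr_neg, Prod.snd_neg, Prod.fst_neg, hk2]; ring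
      · rw [gcl_cr_neg, Prod.snd_neg, Prod.snd_neg, hk3]; ring
      all_goals
        have hDR : (De p y : ℝ) < 0 := by exact_mod_cast hD
        rw [abs_of_neg hDR]
      · rw [hk1]; push_cast; field_simp
      · rw [hk2]; push_cast; field_simp
      · rw [hk3]; push_cast; field_simp
    · refine ⟨(k1, k2, k3), (gcl_mem P H S g0 _).mpr ⟨g, hgH, hk1.symm, hk2.symm, hk3.symm⟩,
        ?_, ?_, ?_⟩
      all_goals
        have hDR : 0 < (De p y : ℝ) := by exact_mod_cast hD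
        rw [abs_of_pos hDR]
      · rw [hk1]; push_cast; field_simp
      · rw [hk2]; push_cast; field_simp
      · rw [hk3]; push_cast; field_simp
  · -- orth
    intro k hk
    obtain ⟨h, hh, h1, h2, h3⟩ := (gcl_mem P H S g0 k).mp hk
    apply mul_left_cancel₀ hS0
    have : S * dt k g0 = (S * k.1) * g0.1 + (S * k.2.1) * g0.2.1 + (S * k.2.2) * g0.2.2 := by
      unfold dt; ring
    rw [this, h1, h2, h3]
    unfold cr; ring
  · -- lb2
    intro k hk hk0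
    obtain ⟨a, b, e1, e2, e3⟩ := rep k hk
    have hnz := nz k hk0 a b e1 e2 e3
    have hlb := h0.tri.t2.lb (-b) a hnz
    exact gcl_lb G N.1 N.2.1 N.2.2 N4 Q hQ hG g0.2.1 k.1 k.2.2 _ _
      (by rw [e1]; ring) (by rw [e3]; ring) hlb
  · -- lb3
    intro k hk hk0
    obtain ⟨a, b, e1, e2, e3⟩ := rep k hk
    have hnz := nz k hk0 a b e1 e2 e3
    have hlb := h0.tri.t3.lb (-b) a hnz
    have := gcl_lb G N.2.1 N.2.2 N.1 N4 Q hQ hG g0.2.2 k.2.1 k.1 _ _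
      (by rw [e2]; ring) (by rw [e1]; ring) hlb
    refine this.trans (le_of_eq ?_)
    ring
  · -- det
    intro k hk k' hk'
    obtain ⟨h, hh, h1, h2, h3⟩ := (gcl_mem P H S g0 k).mp hk
    obtain ⟨h', hh', h1', h2', h3'⟩ := (gcl_mem P H S g0 k').mp hk'
    obtain ⟨n, hn⟩ : (∏ l ∈ P, (l : ℤ) ^ i l) ∣ dt (cr g0 h) h' :=
      cpd P hP i _ fun l hl => (hL l hl).di h (hh l hl) h' (hh' l hl)
    have hSR0 : (S : ℝ) ≠ 0 := by exact_mod_cast hS0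
    refine ⟨n, ?_, ?_⟩
    · have e : S ^ 2 * (cr k k').2.1 = n * ((∏ l ∈ P, (l : ℤ) ^ i l) * g0.2.1) := by
        have t1 : S ^ 2 * (cr k k').2.1 = (S * k.2.2) * (S * k'.1) - (S * k.1) * (S * k'.2.2) := by
          unfold cr; ring
        have t2 : dt (cr g0 h) h' * g0.2.1 = (cr (cr g0 h) (cr g0 h')).2.1 := by
          unfold dt cr; ring
        rw [t1, h3, h1', h1, h3']
        calc (cr g0 h).2.2 * (cr g0 h').1 - (cr g0 h).1 * (cr g0 h').2.2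
            = (cr (cr g0 h) (cr g0 h')).2.1 := by
              unfold cr; ring
          _ = dt (cr g0 h) h' * g0.2.1 := t2.symm
          _ = _ := by rw [hn]; ring
      have eR : (S : ℝ) ^ 2 * ((cr k k').2.1 : ℝ) =
          n * ((((∏ l ∈ P, (l : ℤ) ^ i l) : ℤ) : ℝ) * g0.2.1) := by exact_mod_cast e
      rw [div_mul_eq_mul_div, mul_div_assoc', eq_div_iff (pow_ne_zero 2 hSR0), ← eR]
      ring
    · have e : S ^ 2 * (cr k k').2.2 = n * ((∏ l ∈ P, (l : ℤ) ^ i l) * g0.2.2) := by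
        have t1 : S ^ 2 * (cr k k').2.2 = (S * k.1) * (S * k'.2.1) - (S * k.2.1) * (S * k'.1) := by
          unfold cr; ring
        have t2 : dt (cr g0 h) h' * g0.2.2 = (cr (cr g0 h) (cr g0 h')).2.2 := by
          unfold dt cr; ring
        rw [t1, h1, h2', h2, h1']
        calc (cr g0 h).1 * (cr g0 h').2.1 - (cr g0 h).2.1 * (cr g0 h').1
            = (cr (cr g0 h) (cr g0 h')).2.2 := by
              unfold cr; ring
          _ = dt (cr g0 h) h' * g0.2.2 := t2.symm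
          _ = _ := by rw [hn]; ring
      have eR : (S : ℝ) ^ 2 * ((cr k k').2.2 : ℝ) =
          n * ((((∏ l ∈ P, (l : ℤ) ^ i l) : ℤ) : ℝ) * g0.2.2) := by exact_mod_cast e
      rw [div_mul_eq_mul_div, mul_div_assoc', eq_div_iff (pow_ne_zero 2 hSR0), ← eR]
      ring
  · -- fib
    intro g hg g' hg' hcc
    have hcK : ∀ l ∈ P, (l : ℤ) ^ c l ∣ ∏ l ∈ P, (l : ℤ) ^ c l := fun l hl =>
      Finset.dvd_prod_of_mem (fun l : ℕ => (l : ℤ) ^ c l) hl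
    generalize hKd : (∏ l ∈ P, (l : ℤ) ^ c l) = κ at *
    obtain ⟨⟨w1, hw1⟩, ⟨w2, hw2⟩, ⟨w3, hw3⟩⟩ := dK g0 hg0
    have hdm : ∀ l ∈ P, (g' - g) ∈ H l := fun l hl => (H l).sub_mem (hT g' hg' l hl) (hT g hg l hl)
    obtain ⟨⟨d1, hd1⟩, ⟨d2, hd2⟩, ⟨d3, hd3⟩⟩ := dK (g' - g) hdm
    have hpr : Pr ((w1, w2, w3) : V3) := by
      apply pr_of
      intro n hn1 hn2 hn3
      by_contra hcon
      have hne : n.natAbs ≠ 1 := by
        intro h
        apply hcon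
        exact (Int.natAbs_eq_iff.mp h).elim (fun h => by rw [h]; simp) (fun h => by rw [h]; simp)
      obtain ⟨q, hq, hqn⟩ := Nat.exists_prime_and_dvd hne
      have hqn' : (q : ℤ) ∣ n := Int.natCast_dvd.mpr hqn
      have q1 : (q : ℤ) ∣ w1 := hqn'.trans hn1
      have q2 : (q : ℤ) ∣ w2 := hqn'.trans hn2
      have q3 : (q : ℤ) ∣ w3 := hqn'.trans hn3
      have hqg : Dv (q : ℤ) g0 :=
        ⟨by rw [hw1]; exact q1.mul_left _, by rw [hw2]; exact q2.mul_left _,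
          by rw [hw3]; exact q3.mul_left _⟩
      have hqD := kaa D0 G p xp x y g0 r N N4 u v h0 q hq hqg
      have hqP := hPd q hq hqD
      apply (hL q hqP).nc
      have hqK := hcK q hqP
      refine ⟨?_, ?_, ?_⟩
      · show (q : ℤ) ^ (c q + 1) ∣ g0.1
        rw [hw1, pow_succ]; exact mul_dvd_mul hqK q1
      · show (q : ℤ) ^ (c q + 1) ∣ g0.2.1
        rw [hw2, pow_succ]; exact mul_dvd_mul hqK q2
      · show (q : ℤ) ^ (c q + 1) ∣ g0.2.2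
        rw [hw3, pow_succ]; exact mul_dvd_mul hqK q3
    have hz : cr g0 (g' - g) = 0 := by
      rw [sub_eq_add_neg, gcl_cr_add, gcl_cr_neg, hcc]
      exact add_neg_cancel _
    have z1 : g0.2.1 * (g' - g).2.2 - g0.2.2 * (g' - g).2.1 = 0 := congrArg Prod.fst hz
    have z2 : g0.2.2 * (g' - g).1 - g0.1 * (g' - g).2.2 = 0 := congrArg (fun z => z.2.1) hz
    have z3 : g0.1 * (g' - g).2.1 - g0.2.1 * (g' - g).1 = 0 := congrArg (fun z => z.2.2) hz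
    rw [hd1, hd2, hw1, hw2] at z3
    rw [hd2, hd3, hw2, hw3] at z1
    rw [hd1, hd3, hw1, hw3] at z2
    have hpe : cr ((w1, w2, w3) : V3) 0 = cr ((w1, w2, w3) : V3) ((d1, d2, d3) : V3) := by
      rw [gcl_cr_zero]
      have c1 : w2 * d3 - w3 * d2 = 0 := by
        have : κ ^ 2 * (w2 * d3 - w3 * d2) = 0 := by rw [← z1]; ring
        exact (mul_eq_zero.mp this).resolve_left (pow_ne_zero 2 hK0)
      have c2 : w3 * d1 - w1 * d3 = 0 := by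
        have : κ ^ 2 * (w3 * d1 - w1 * d3) = 0 := by rw [← z2]; ring
        exact (mul_eq_zero.mp this).resolve_left (pow_ne_zero 2 hK0)
      have c3 : w1 * d2 - w2 * d1 = 0 := by
        have : κ ^ 2 * (w1 * d2 - w2 * d1) = 0 := by rw [← z3]; ring
        exact (mul_eq_zero.mp this).resolve_left (pow_ne_zero 2 hK0)
      unfold cr
      exact (Prod.ext c1 (Prod.ext c2 c3)).symm
    obtain ⟨t, ht1, ht2, ht3⟩ := par _ _ _ hpr hpe
    simp only [Prod.fst_zero, Prod.snd_zero, zero_add] at ht1 ht2 ht3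
    refine ⟨t, ?_⟩
    have e : g' - g = t • g0 := by
      refine Prod.ext ?_ (Prod.ext ?_ ?_)
      · rw [hd1, ht1, Prod.smul_fst, smul_eq_mul, hw1]; ring
      · rw [hd2, ht2, Prod.smul_snd, Prod.smul_fst, smul_eq_mul, hw2]; ring
      · rw [hd3, ht3, Prod.smul_snd, Prod.smul_snd, smul_eq_mul, hw3]; ring
    rw [← e]; abel

end Pool.Agent.PPC
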