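import Pool.Agent.PPC.Gcl
import Pool.Agent.PPR.Clm

/-!
# PPC/Gfb: the number of points in one class

PROOF.  `gcl` and `PPR.clm` with `e = |Δ| / S`, `I' = I / S ^ 2` (positive: `S, I > 0`, `Δ ≠ 0` by `h0.tri.hD`); `e ^ 2 / I' = Δ ^ 2 / I`.
-/

set_option autoImplicit false

namespace Pool.Agent.PPC

open Pool.Agent.SMQ

theorem gfb (r1 r2 r3 t Q ph y2h y3h Dh : ℝ) (D0 G : ℕ) (p xp : ℤ) (x y g0 r : V3)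
    (N : ℕ × ℕ × ℕ) (N4 : ℕ) (u v : V3) (hp : PPR.Dy ph p)
    (h2 : PPR.Dy y2h y.2.1) (h3 : PPR.Dy y3h y.2.2) (hD : PPR.Dy Dh (De p y)) (hQ : 0 < Q)
    (h0 : Dt D0 G p xp x y g0 r N N4 u v) (hQ4 : Q ≤ (N4 : ℝ))
    (hs : PPR.Sh r1 r2 r3 t p y.1 y.2.1 y.2.2 g0.1 g0.2.1 g0.2.2 N.1 N.2.1 N.2.2)
    (P : Finset ℕ)
    (hP : ∀ l ∈ P, l.Prime) (hPd : ∀ l : ℕ, l.Prime → (l : ℤ) ∣ De p y → l ∈ P)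
    (s c i : ℕ → ℕ) (H : ℕ → AddSubgroup V3)
    (hL : ∀ l ∈ P, LP l (s l) (c l) (i l) (H l) (g0, u, v)) (hg0 : ∀ l ∈ P, g0 ∈ H l)
    (T : Finset V3) (hT : ∀ g ∈ T, ∀ l ∈ P, g ∈ H l)
    (hS : ∀ g ∈ T, PPR.In r1 r2 r3 t p y.1 y.2.1 y.2.2 g) :
    (T.card : ℝ) ≤ 10 ^ 21 * (1 +
      (|(De p y : ℝ)| / ∏ l ∈ P, (l : ℝ) ^ s l) * PPR.Aa r1 r2 r3 t Q ph y2h y3h Dh +
      (|(De p y : ℝ)| ^ 2 / ∏ l ∈ P, (l : ℝ) ^ i l) * PPR.Bb r1 r2 r3 t ph y2h y3h Dh) := by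
  obtain ⟨Λ, hc⟩ := gcl D0 G p xp x y g0 r N N4 u v h0 Q hQ4 P hP hPd s c i H hL hg0 T hT
  have hDne : (De p y : ℝ) ≠ 0 := by
    have hh := h0.tri.hD
    exact_mod_cast hh
  have hS0 : 0 < ∏ l ∈ P, (l : ℝ) ^ s l :=
    Finset.prod_pos (fun l hl => pow_pos (by exact_mod_cast (hP l hl).pos) _)
  have hI0 : 0 < ∏ l ∈ P, (l : ℝ) ^ i l :=
    Finset.prod_pos (fun l hl => pow_pos (by exact_mod_cast (hP l hl).pos) _)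
  have hDa : 0 < |(De p y : ℝ)| := abs_pos.2 hDne
  have key := PPR.clm r1 r2 r3 t Q ph y2h y3h Dh (|(De p y : ℝ)| / ∏ l ∈ P, (l : ℝ) ^ s l)
    ((∏ l ∈ P, (l : ℝ) ^ i l) / (∏ l ∈ P, (l : ℝ) ^ s l) ^ 2) p y hp h2 h3 hD
    (div_pos hDa hS0) (div_pos hI0 (pow_pos hS0 2)) hQ g0 N.1 N.2.1 N.2.2 hs Λ T hc hS
  have e1 : (|(De p y : ℝ)| / ∏ l ∈ P, (l : ℝ) ^ s l) ^ 2 /
      ((∏ l ∈ P, (l : ℝ) ^ i l) / (∏ l ∈ P, (l : ℝ) ^ s l) ^ 2) =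
      |(De p y : ℝ)| ^ 2 / ∏ l ∈ P, (l : ℝ) ^ i l := by
    generalize (∏ l ∈ P, (l : ℝ) ^ s l) = S at hS0 ⊢
    generalize (∏ l ∈ P, (l : ℝ) ^ i l) = I at hI0 ⊢
    field_simp
  rw [e1] at key
  exact key

end Pool.Agent.PPC
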