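import Pool.Agent.PPC.Gfb

/-!
# PPC/Gsm: the sum over the classes

PROOF.  Choose (`choose`) from `hLc` for every `l ∈ P`: `K l`, `key l`, `s l`, `c l`, `i l`, `H l` (functions of a prime; use `if h : l ∈ P` or
`Classical.choice`).  For every `g ∈ T` choose `w g = (g, u, v)` with the `Dt` of `hT`, so `w g ∈ Wi G p y`.  Let
`Φ g : (l : ℕ) → l ∈ P → ℕ × ℕ := fun l _ => key l (w g)`, an element of `P.pi K` (`Finset.mem_pi`).  So
`card T ≤ ∑ φ ∈ P.pi K, card {g ∈ T | Φ g = φ}` (`Finset.card_eq_sum_card_fiberwise`).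
A fiber `T_φ` is empty or contains some `g0`: then `gfb` with the data of `w g0`, `s l := s l (φ l)` etc. (for `l ∈ P`, `0` otherwise; or
directly `s l (key l (w g0))`), `H l := H l (w g0)`: `hT`: `key l (w g) = key l (w g0)` gives `g ∈ H l (w g0)` (second property of `Lc`).
In both cases `card T_φ ≤ 10 ^ 21 (1 + E_φ Aa + F_φ Bb)` with `E_φ = ∏ l ∈ P.attach, l ^ k l / l ^ s l (φ l)`,
`F_φ = ∏ l ∈ P.attach, l ^ (2 k l) / l ^ i l (φ l)`, as `|Δ| = ∏ l ∈ P, l ^ k l` (`hk`; `Finset.prod_attach`, `Finset.prod_div_distrib`), and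
`Aa, Bb ≥ 0` (`ha`, `hb`).  Sum over `φ` with `Finset.prod_sum` (or `Finset.prod_univ_sum`): `∑_φ 1 = ∏ card (K l) ≤ ∏ a l`,
`∑_φ E_φ = ∏ l ∈ P, ∑ j ∈ K l, l ^ k l / l ^ s l j ≤ ∏ b l`, `∑_φ F_φ ≤ ∏ d l` (`Finset.prod_le_prod`, all factors are nonnegative).
-/

set_option autoImplicit false

namespace Pool.Agent.PPC

open Pool.Agent.SMQ

theorem gsm (r1 r2 r3 t Q ph y2h y3h Dh : ℝ) (G : ℕ) (p : ℤ) (y : V3) (hp : PPR.Dy ph p)
    (h2 : PPR.Dy y2h y.2.1) (h3 : PPR.Dy y3h y.2.2) (hD : PPR.Dy Dh (De p y)) (hQ : 0 < Q)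
    (ha : 0 ≤ PPR.Aa r1 r2 r3 t Q ph y2h y3h Dh) (hb : 0 ≤ PPR.Bb r1 r2 r3 t ph y2h y3h Dh)
    (P : Finset ℕ) (hP : ∀ l ∈ P, l.Prime)
    (hPd : ∀ l : ℕ, l.Prime → (l : ℤ) ∣ De p y → l ∈ P) (k : ℕ → ℕ) (a b d : ℕ → ℝ)
    (hk : (∏ l ∈ P, (l : ℝ) ^ k l) = |(De p y : ℝ)|)
    (hLc : ∀ l ∈ P, Lc l (k l) (Wi G p y) (a l) (b l) (d l))
    (T : Finset V3) (hT : ∀ g ∈ T, ∃ (D0 : ℕ) (N : ℕ × ℕ × ℕ), Pt Q D0 G p y g N ∧
      PPR.Sh r1 r2 r3 t p y.1 y.2.1 y.2.2 g.1 g.2.1 g.2.2 N.1 N.2.1 N.2.2) :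
    (T.card : ℝ) ≤ 10 ^ 21 * (∏ l ∈ P, a l +
      (∏ l ∈ P, b l) * PPR.Aa r1 r2 r3 t Q ph y2h y3h Dh +
      (∏ l ∈ P, d l) * PPR.Bb r1 r2 r3 t ph y2h y3h Dh) := by
  classical
  set A := PPR.Aa r1 r2 r3 t Q ph y2h y3h Dh with hA
  set B := PPR.Bb r1 r2 r3 t ph y2h y3h Dh with hB
  have hLc' : ∀ l, l ∈ P → ∃ (K : Finset (ℕ × ℕ)) (key : W3 → ℕ × ℕ) (s c i : ℕ × ℕ → ℕ)
      (H : W3 → AddSubgroup V3),
      (∀ w ∈ Wi G p y, key w ∈ K ∧ LP l (s (key w)) (c (key w)) (i (key w)) (H w) w) ∧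
      (∀ w ∈ Wi G p y, ∀ w' ∈ Wi G p y, key w = key w' → w'.1 ∈ H w) ∧
      (K.card : ℝ) ≤ a l ∧ ∑ j ∈ K, (l : ℝ) ^ k l / (l : ℝ) ^ s j ≤ b l ∧
      ∑ j ∈ K, (l : ℝ) ^ (2 * k l) / (l : ℝ) ^ i j ≤ d l := hLc
  choose! K key s c i H c1 c2 c3 c4 c5 using hLc'
  choose! D0 N hPt hSh using hT
  have hPt' : ∀ g, g ∈ T → ∃ (xp : ℤ) (x r : V3) (N4 : ℕ) (u v : V3),
      Dt (D0 g) G p xp x y g r (N g) N4 u v ∧ Q ≤ (N4 : ℝ) := hPt
  choose! xp x r N4 u v hDt hN4 using hPt'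
  set w : V3 → W3 := fun g => (g, u g, v g) with hw
  have hwi : ∀ g ∈ T, w g ∈ Wi G p y := fun g hg => ⟨D0 g, xp g, x g, r g, N g, N4 g, hDt g hg⟩
  set Φ : V3 → ((l : ℕ) → l ∈ P → ℕ × ℕ) := fun g l _ => key l (w g) with hΦ
  have hmap : ∀ g ∈ T, Φ g ∈ P.pi K := by
    intro g hg
    rw [Finset.mem_pi]
    intro l hl
    exact (c1 l hl (w g) (hwi g hg)).1
  have hcard : T.card = ∑ φ ∈ P.pi K, (T.filter (fun g => Φ g = φ)).card :=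
    Finset.card_eq_sum_card_fiberwise hmap
  have hlpos : ∀ l ∈ P, (0 : ℝ) < (l : ℝ) := fun l hl => by exact_mod_cast (hP l hl).pos
  have hfib : ∀ φ ∈ P.pi K, (((T.filter (fun g => Φ g = φ)).card : ℕ) : ℝ) ≤ 10 ^ 21 * (1 +
      (∏ l ∈ P.attach, (l.1 : ℝ) ^ k l.1 / (l.1 : ℝ) ^ s l.1 (φ l.1 l.2)) * A +
      (∏ l ∈ P.attach, (l.1 : ℝ) ^ (2 * k l.1) / (l.1 : ℝ) ^ i l.1 (φ l.1 l.2)) * B) := by
    intro φ _
    rcases (T.filter (fun g => Φ g = φ)).eq_empty_or_nonempty with he | ⟨g0, hg0⟩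
    · rw [he, Finset.card_empty, Nat.cast_zero]
      have e1 : 0 ≤ ∏ l ∈ P.attach, (l.1 : ℝ) ^ k l.1 / (l.1 : ℝ) ^ s l.1 (φ l.1 l.2) :=
        Finset.prod_nonneg (fun l _ => by positivity)
      have e2 : 0 ≤ ∏ l ∈ P.attach, (l.1 : ℝ) ^ (2 * k l.1) / (l.1 : ℝ) ^ i l.1 (φ l.1 l.2) :=
        Finset.prod_nonneg (fun l _ => by positivity)
      positivity
    · rw [Finset.mem_filter] at hg0
      obtain ⟨hg0T, rfl⟩ := hg0
      have key0 := gfb r1 r2 r3 t Q ph y2h y3h Dh (D0 g0) G p (xp g0) (x g0) y g0 (r g0) (N g0)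
        (N4 g0) (u g0) (v g0) hp h2 h3 hD hQ (hDt g0 hg0T) (hN4 g0 hg0T) (hSh g0 hg0T) P hP hPd
        (fun l => s l (key l (w g0))) (fun l => c l (key l (w g0)))
        (fun l => i l (key l (w g0))) (fun l => H l (w g0))
        (fun l hl => (c1 l hl (w g0) (hwi g0 hg0T)).2)
        (fun l hl => c2 l hl (w g0) (hwi g0 hg0T) (w g0) (hwi g0 hg0T) rfl)
        (T.filter (fun g => Φ g = Φ g0))
        (by
          intro g hg l hl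
          rw [Finset.mem_filter] at hg
          have e := congrFun (congrFun hg.2 l) hl
          exact c2 l hl (w g0) (hwi g0 hg0T) (w g) (hwi g hg.1) e.symm)
        (by
          intro g hg
          rw [Finset.mem_filter] at hg
          exact ⟨_, _, _, hSh g hg.1⟩)
      refine key0.trans (le_of_eq ?_)
      have e1 : |(De p y : ℝ)| / ∏ l ∈ P, (l : ℝ) ^ s l (key l (w g0)) =
          ∏ l ∈ P.attach, (l.1 : ℝ) ^ k l.1 / (l.1 : ℝ) ^ s l.1 (Φ g0 l.1 l.2) := by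
        rw [← hk, ← Finset.prod_div_distrib]
        exact (Finset.prod_attach P (fun l => (l : ℝ) ^ k l / (l : ℝ) ^ s l (key l (w g0)))).symm
      have e2 : |(De p y : ℝ)| ^ 2 / ∏ l ∈ P, (l : ℝ) ^ i l (key l (w g0)) =
          ∏ l ∈ P.attach, (l.1 : ℝ) ^ (2 * k l.1) / (l.1 : ℝ) ^ i l.1 (Φ g0 l.1 l.2) := by
        rw [← hk, ← Finset.prod_pow, ← Finset.prod_div_distrib]
        rw [← Finset.prod_attach P
          (fun l => ((l : ℝ) ^ k l) ^ 2 / (l : ℝ) ^ i l (key l (w g0)))]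
        refine Finset.prod_congr rfl (fun l _ => ?_)
        rw [← pow_mul, mul_comm (k l.1) 2]
      rw [e1, e2]
  have s1 : ((P.pi K).card : ℝ) ≤ ∏ l ∈ P, a l := by
    rw [Finset.card_pi]
    push_cast
    exact Finset.prod_le_prod (fun l _ => by positivity) (fun l hl => c3 l hl)
  have s2 : ∑ φ ∈ P.pi K, ∏ l ∈ P.attach, (l.1 : ℝ) ^ k l.1 / (l.1 : ℝ) ^ s l.1 (φ l.1 l.2) ≤
      ∏ l ∈ P, b l := by
    have := Finset.prod_sum P K (fun l j => (l : ℝ) ^ k l / (l : ℝ) ^ s l j)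
    rw [← this]
    exact Finset.prod_le_prod (fun l _ => Finset.sum_nonneg (fun j _ => by positivity))
      (fun l hl => c4 l hl)
  have s3 : ∑ φ ∈ P.pi K,
      ∏ l ∈ P.attach, (l.1 : ℝ) ^ (2 * k l.1) / (l.1 : ℝ) ^ i l.1 (φ l.1 l.2) ≤
      ∏ l ∈ P, d l := by
    have := Finset.prod_sum P K (fun l j => (l : ℝ) ^ (2 * k l) / (l : ℝ) ^ i l j)
    rw [← this]
    exact Finset.prod_le_prod (fun l _ => Finset.sum_nonneg (fun j _ => by positivity))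
      (fun l hl => c5 l hl)
  rw [hcard]
  push_cast
  refine (Finset.sum_le_sum hfib).trans ?_
  rw [← Finset.mul_sum, Finset.sum_add_distrib, Finset.sum_add_distrib, ← Finset.sum_mul,
    ← Finset.sum_mul, Finset.sum_const, nsmul_eq_mul, mul_one]
  have t2 := mul_le_mul_of_nonneg_right s2 ha
  have t3 := mul_le_mul_of_nonneg_right s3 hb
  refine mul_le_mul_of_nonneg_left ?_ (by positivity)
  linarith

end Pool.Agent.PPC
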