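import Pool.Agent.PPC.Lpa

/-!
# PPC/Lca: classifications of type A

PROOF of `lca`.  Take `K`, `key`, `s j = j.1 + m j.1`, `c j = j.1`, `i j = 3 j.1 + 2 m j.1`,
`H w = HA l (key w).1 (m (key w).1) w.1`; `LP` is `lpa`.  If `key w = key w'` then `w'.1 ∈ H w`: `Dv (l ^ c) w'.1` with
`c = (key w').1`, and `hc`.
PROOF of `lc_mono`, `lc_empty` (`K = ∅`): clear.
-/

set_option autoImplicit false

namespace Pool.Agent.PPC

open Pool.Agent.SMQ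

theorem lca (l k : ℕ) (hl : l.Prime) (S : Set W3) (K : Finset (ℕ × ℕ)) (key : W3 → ℕ × ℕ)
    (m : ℕ → ℕ) (hK : ∀ w ∈ S, key w ∈ K) (hu : ∀ w ∈ S, dt w.2.1 w.1 = 0 ∧ dt w.2.2 w.1 = 0)
    (h1 : ∀ w ∈ S, Dv ((l : ℤ) ^ (key w).1) w.1 ∧ ¬ Dv ((l : ℤ) ^ ((key w).1 + 1)) w.1)
    (hc : ∀ w ∈ S, ∀ w' ∈ S, key w = key w' →
      Dv ((l : ℤ) ^ (2 * (key w).1 + m (key w).1)) (cr w'.1 w.1)) :
    Lc l k S K.card (∑ j ∈ K, (l : ℝ) ^ k / (l : ℝ) ^ (j.1 + m j.1))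
      (∑ j ∈ K, (l : ℝ) ^ (2 * k) / (l : ℝ) ^ (3 * j.1 + 2 * m j.1)) := by
  refine ⟨K, key, fun j => j.1 + m j.1, fun j => j.1, fun j => 3 * j.1 + 2 * m j.1,
    fun w => HA l (key w).1 (m (key w).1) w.1, ?_, ?_, le_refl _, le_refl _, le_refl _⟩
  · intro w hw
    exact ⟨hK w hw, lpa l _ _ hl w.1 w.2.1 w.2.2 (hu w hw).1 (hu w hw).2 (h1 w hw).1 (h1 w hw).2⟩
  · intro w hw w' hw' he
    rw [mem_HA]
    refine ⟨?_, hc w hw w' hw' he⟩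
    rw [he]
    exact (h1 w' hw').1

theorem lc_mono (l k : ℕ) (S : Set W3) (a b d a' b' d' : ℝ) (h : Lc l k S a b d) (ha : a ≤ a')
    (hb : b ≤ b') (hd : d ≤ d') : Lc l k S a' b' d' := by
  obtain ⟨K, key, s, c, i, H, h1, h2, h3, h4, h5⟩ := h
  exact ⟨K, key, s, c, i, H, h1, h2, h3.trans ha, h4.trans hb, h5.trans hd⟩

theorem lc_empty (l k : ℕ) (S : Set W3) (hS : S = ∅) (a b d : ℝ) (ha : 0 ≤ a) (hb : 0 ≤ b)
    (hd : 0 ≤ d) : Lc l k S a b d := by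
  subst hS
  refine ⟨∅, fun _ => (0, 0), fun _ => 0, fun _ => 0, fun _ => 0, fun _ => ⊥, ?_, ?_, ?_, ?_, ?_⟩
  · intro w hw
    exact absurd hw (Set.notMem_empty w)
  · intro w hw
    exact absurd hw (Set.notMem_empty w)
  · simpa using ha
  · simpa using hb
  · simpa using hd

end Pool.Agent.PPC
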