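import Pool.Agent.PPC.Vcl

/-!
# PPC/Lpa: the local groups of type A

PROOF.  `g = l ^ c w0` with `w0` not divisible by `l` (`dv_fac`); `dt u w0 = 0` as `dt u g = 0`.  For
`h ∈ HA l c m g`, `h = l ^ c w` (coordinatewise) and `cr h g = l ^ (2 c) cr w w0`, so `Dv (l ^ m) (cr w w0)`.
`du`, `dv`: `dt u h = l ^ c dt u w` and `vdot`.  `dc`, `nc`: clear.  `ds`: `cr g h = - cr h g` is divisible by
`l ^ (2 c + m)`.  `di`: `dt (cr g h) h' = l ^ (3 c) dt (cr w0 w) w'` and `vdet`.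
-/

set_option autoImplicit false

namespace Pool.Agent.PPC

open Pool.Agent.SMQ

private theorem dv_split (a : ℤ) (h : V3) (hh : Dv a h) :
    ∃ w : V3, h = (a * w.1, a * w.2.1, a * w.2.2) := by
  obtain ⟨⟨x, hx⟩, ⟨y, hy⟩, ⟨z, hz⟩⟩ := hh
  exact ⟨(x, y, z), Prod.ext hx (Prod.ext hy hz)⟩

private theorem dt_sc (a : ℤ) (u w : V3) : dt u (a * w.1, a * w.2.1, a * w.2.2) = a * dt u w := by
  simp only [dt]; ring

private theorem cr_red (l c m : ℕ) (hl : l.Prime) (w w0 : V3)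
    (h : Dv ((l : ℤ) ^ (2 * c + m))
      (cr ((l : ℤ) ^ c * w.1, (l : ℤ) ^ c * w.2.1, (l : ℤ) ^ c * w.2.2)
        ((l : ℤ) ^ c * w0.1, (l : ℤ) ^ c * w0.2.1, (l : ℤ) ^ c * w0.2.2))) :
    Dv ((l : ℤ) ^ m) (cr w w0) := by
  have hl0 : ((l : ℤ) ^ (2 * c)) ≠ 0 := pow_ne_zero _ (by exact_mod_cast hl.ne_zero)
  obtain ⟨h1, h2, h3⟩ := h
  simp only [cr] at h1 h2 h3
  refine ⟨?_, ?_, ?_⟩
  · apply Int.dvd_of_mul_dvd_mul_left hl0
    rw [← pow_add]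
    refine h1.trans (dvd_of_eq ?_)
    simp only [cr]; ring
  · apply Int.dvd_of_mul_dvd_mul_left hl0
    rw [← pow_add]
    refine h2.trans (dvd_of_eq ?_)
    simp only [cr]; ring
  · apply Int.dvd_of_mul_dvd_mul_left hl0
    rw [← pow_add]
    refine h3.trans (dvd_of_eq ?_)
    simp only [cr]; ring

theorem lpa (l c m : ℕ) (hl : l.Prime) (g u v : V3) (hu : dt u g = 0) (hv : dt v g = 0)
    (h1 : Dv ((l : ℤ) ^ c) g) (h2 : ¬ Dv ((l : ℤ) ^ (c + 1)) g) :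
    LP l (c + m) c (3 * c + 2 * m) (HA l c m g) (g, u, v) := by
  obtain ⟨w0, hg, h0⟩ := dv_fac l c g h1 h2
  have hlc : ((l : ℤ) ^ c) ≠ 0 := pow_ne_zero _ (by exact_mod_cast hl.ne_zero)
  have hu0 : dt u w0 = 0 := by
    rw [hg, dt_sc] at hu
    exact (mul_eq_zero.mp hu).resolve_left hlc
  have hv0 : dt v w0 = 0 := by
    rw [hg, dt_sc] at hv
    exact (mul_eq_zero.mp hv).resolve_left hlc
  have key : ∀ h ∈ HA l c m g, ∃ w : V3,
      h = ((l : ℤ) ^ c * w.1, (l : ℤ) ^ c * w.2.1, (l : ℤ) ^ c * w.2.2) ∧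
      Dv ((l : ℤ) ^ m) (cr w w0) := by
    intro h hh
    rw [mem_HA] at hh
    obtain ⟨w, hw⟩ := dv_split _ h hh.1
    refine ⟨w, hw, ?_⟩
    apply cr_red l c m hl
    rw [← hw, ← hg]
    exact hh.2
  refine ⟨?_, ?_, ?_, h2, ?_, ?_⟩
  · intro h hh
    obtain ⟨w, hw, hc⟩ := key h hh
    change (l : ℤ) ^ (c + m) ∣ dt u h
    rw [hw, dt_sc, pow_add]
    exact mul_dvd_mul_left _ (vdot l m hl w0 w u h0 hc hu0)
  · intro h hh
    obtain ⟨w, hw, hc⟩ := key h hh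
    change (l : ℤ) ^ (c + m) ∣ dt v h
    rw [hw, dt_sc, pow_add]
    exact mul_dvd_mul_left _ (vdot l m hl w0 w v h0 hc hv0)
  · intro h hh
    exact ((mem_HA l c m g h).mp hh).1
  · intro h hh
    change Dv ((l : ℤ) ^ (c + m)) (cr g h)
    have e : cr g h = - cr h g := by
      simp only [cr, Prod.neg_mk, Prod.mk.injEq]
      refine ⟨?_, ?_, ?_⟩ <;> ring
    rw [e]
    obtain ⟨a1, a2, a3⟩ := dv_neg _ _ ((mem_HA l c m g h).mp hh).2
    have hd : (l : ℤ) ^ (c + m) ∣ (l : ℤ) ^ (2 * c + m) := pow_dvd_pow _ (by omega)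
    exact ⟨hd.trans a1, hd.trans a2, hd.trans a3⟩
  · intro h hh h' hh'
    obtain ⟨w, hw, hc⟩ := key h hh
    obtain ⟨w', hw', hc'⟩ := key h' hh'
    change (l : ℤ) ^ (3 * c + 2 * m) ∣ dt (cr g h) h'
    have e : dt (cr g h) h' = (l : ℤ) ^ (3 * c) * dt (cr w0 w) w' := by
      rw [hw, hw', hg]
      simp only [cr, dt]; ring
    rw [e, pow_add]
    exact mul_dvd_mul_left _ (vdet l m hl w0 w w' h0 hc hc')

end Pool.Agent.PPC
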