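import Pool.Agent.PPC.DefsB
import Pool.Agent.SMQ.Rot

/-!
# PPC/Rot: rotation of the indices

PROOF of `dt_rot`.  Every field of the rotated `Dt` is a field of `h` (`e1, e2, e3` are permuted), for `tri` see `SMQ/Rot.lean` (the
rotation of `Tri`; `De p (rt y) = De p y` by `ring`), the fields `np`, `i1`, `qf` up to `ring`.
PROOF of `lc_rot`.  For `w = (g, u, v)` let `ρ w = (rt g, rt u, rt v)`; `w ∈ Wi G p y` implies `ρ w ∈ Wi G p (rt y)` (`dt_rot`).  Take the same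
`K`, `s`, `c`, `i`, the key `w ↦ key (ρ w)` and `H w = (H (ρ w)).comap` of the additive map `rt`.  `LP` transfers:
`dt (rt a) (rt b) = dt a b`, `cr (rt a) (rt b) = rt (cr a b)`, `Dv m (rt a) ↔ Dv m a`.
-/

set_option autoImplicit false

namespace Pool.Agent.PPC

open Pool.Agent.SMQ

private theorem rot_De' (p : ℤ) (y : V3) : De p (rt y) = De p y := by
  unfold De rt
  ring

private theorem dt_rt (a b : V3) : dt (rt a) (rt b) = dt a b := by
  unfold dt rt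
  ring

private theorem cr_rt (a b : V3) : cr (rt a) (rt b) = rt (cr a b) := rfl

private theorem dv_rt (m : ℤ) (a : V3) : Dv m (rt a) ↔ Dv m a :=
  ⟨fun h => ⟨h.2.2, h.1, h.2.1⟩, fun h => ⟨h.2.1, h.2.2, h.1⟩⟩

private def rth : V3 →+ V3 where
  toFun := rt
  map_zero' := rfl
  map_add' := fun _ _ => rfl

private def rho (w : W3) : W3 := (rt w.1, rt w.2.1, rt w.2.2)

theorem dt_rot (D0 G : ℕ) (p xp : ℤ) (x y g r : V3) (N : ℕ × ℕ × ℕ) (N4 : ℕ) (u v : V3)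
    (h : Dt D0 G p xp x y g r N N4 u v) :
    Dt D0 G p xp (rt x) (rt y) (rt g) (rt r) (N.2.1, N.2.2, N.1) N4 (rt u) (rt v) where
  tri := tri_rot _ _ _ _ _ _ _ _ _ h.tri
  np := by
    have h1 := h.np
    show 4 * ((N.2.1 : ℤ) * N.2.2 * N.1) = xp ^ 2 + (D0 : ℤ) * (G * p) ^ 2
    linear_combination h1
  i1 := by
    have h1 := h.i1
    rw [rot_De']
    show x.2.1 * x.2.2 * y.1 + x.2.2 * x.1 * y.2.1 + x.1 * x.2.1 * y.2.2 =
      3 * (xp ^ 2 * p) + (D0 : ℤ) * G ^ 2 * De p y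
    linear_combination h1
  dq := h.dq
  qf := by
    obtain ⟨a, b, c, q⟩ := h.qf
    exact ⟨a, b, c, { q1 := q.q2, q2 := q.q3, q3 := q.q1, b1 := q.b2, b2 := q.b3, b3 := q.b1 }⟩
  e1 := h.e2
  e2 := h.e3
  e3 := h.e1

private theorem wi_rot (G : ℕ) (p : ℤ) (y : V3) (w : W3) (hw : w ∈ Wi G p y) :
    rho w ∈ Wi G p (rt y) := by
  obtain ⟨D0, xp, x, r, N, N4, h⟩ := hw
  exact ⟨D0, xp, rt x, rt r, (N.2.1, N.2.2, N.1), N4, dt_rot _ _ _ _ _ _ _ _ _ _ _ _ h⟩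

private theorem lp_rot (l s c i : ℕ) (H : AddSubgroup V3) (w : W3) (h : LP l s c i H (rho w)) :
    LP l s c i (H.comap rth) w where
  du := fun a ha => by
    have h1 := h.du (rt a) ha
    rwa [show (rho w).2.1 = rt w.2.1 from rfl, dt_rt] at h1
  dv := fun a ha => by
    have h1 := h.dv (rt a) ha
    rwa [show (rho w).2.2 = rt w.2.2 from rfl, dt_rt] at h1
  dc := fun a ha => (dv_rt _ _).1 (h.dc (rt a) ha)
  nc := fun h1 => h.nc ((dv_rt _ _).2 h1)
  ds := fun a ha => by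
    have h1 := h.ds (rt a) ha
    rwa [show (rho w).1 = rt w.1 from rfl, cr_rt, dv_rt] at h1
  di := fun a ha b hb => by
    have h1 := h.di (rt a) ha (rt b) hb
    rwa [show (rho w).1 = rt w.1 from rfl, cr_rt, dt_rt] at h1

theorem lc_rot (G : ℕ) (p : ℤ) (y : V3) (l k : ℕ) (a b d : ℝ)
    (h : Lc l k (Wi G p (rt y)) a b d) : Lc l k (Wi G p y) a b d := by
  obtain ⟨K, key, s, c, i, H, h1, h2, h3, h4, h5⟩ := h
  refine ⟨K, fun w => key (rho w), s, c, i, fun w => (H (rho w)).comap rth, ?_, ?_, h3, h4, h5⟩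
  · intro w hw
    obtain ⟨h6, h7⟩ := h1 (rho w) (wi_rot G p y w hw)
    exact ⟨h6, lp_rot _ _ _ _ _ _ h7⟩
  · intro w hw w' hw' he
    exact h2 (rho w) (wi_rot G p y w hw) (rho w') (wi_rot G p y w' hw') he

end Pool.Agent.PPC
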