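import Pool.Agent.PPC.DefsB

/-!
# PPC/Vcl: vectors modulo prime powers

PROOF of `dv_fac`: write `g = l ^ c w` coordinatewise; if `l` divided `w`, `l ^ (c + 1)` would divide `g`.
PROOF of `vdot`: some coordinate of `w0` is prime to `l` (`h0`), say the first one.  The identity
`w0_1 (u·w) = w_1 (u·w0) + u_2 (w0_1 w_2 - w_1 w0_2) + u_3 (w0_1 w_3 - w_1 w0_3)`, where the brackets are (up to sign)
coordinates of `cr w w0`, gives `l ^ n ∣ w0_1 (u·w)`, and `w0_1` is prime to `l ^ n`.  The same for the other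
coordinates.
PROOF of `vdet`: `cr (cr w0 w) (cr w0 w') = det • w0` with `det = dt (cr w0 w) w'` (coordinatewise by `ring`); the left side
is divisible by `l ^ (2 n)` (`cr w0 w = - cr w w0`), and some coordinate of `w0` is prime to `l`.
PROOF of `vdb`: with `det = dt (cr w0 w) w'`: `det * u_1 = (u·w0) (cr w w').1 + (u·w) (cr w' w0).1 + (u·w') (cr w0 w).1`
(`ring`), the same for the other coordinates; some coordinate of `u` is prime to `l`.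
-/

set_option autoImplicit false

namespace Pool.Agent.PPC

open Pool.Agent.SMQ

private theorem vcl_cop (l n : ℕ) (hl : l.Prime) (a x : ℤ) (ha : ¬ (l : ℤ) ∣ a)
    (h : (l : ℤ) ^ n ∣ a * x) : (l : ℤ) ^ n ∣ x := by
  have hlZ : Prime (l : ℤ) := Nat.prime_iff_prime_int.mp hl
  have hc : IsCoprime ((l : ℤ) ^ n) a := IsCoprime.pow_left ((Prime.coprime_iff_not_dvd hlZ).mpr ha)
  exact hc.dvd_of_dvd_mul_left h

private theorem vcl_some {m : ℤ} {w : V3} (h : ¬ Dv m w) :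
    ¬ m ∣ w.1 ∨ ¬ m ∣ w.2.1 ∨ ¬ m ∣ w.2.2 := by
  by_contra hcon
  push Not at hcon
  exact h hcon

theorem dv_fac (l c : ℕ) (g : V3) (h1 : Dv ((l : ℤ) ^ c) g) (h2 : ¬ Dv ((l : ℤ) ^ (c + 1)) g) :
    ∃ w : V3, g = ((l : ℤ) ^ c * w.1, (l : ℤ) ^ c * w.2.1, (l : ℤ) ^ c * w.2.2) ∧
      ¬ Dv (l : ℤ) w := by
  obtain ⟨⟨w1, e1⟩, ⟨w2, e2⟩, ⟨w3, e3⟩⟩ := h1
  refine ⟨(w1, w2, w3), Prod.ext e1 (Prod.ext e2 e3), ?_⟩
  rintro ⟨d1, d2, d3⟩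
  apply h2
  refine ⟨?_, ?_, ?_⟩
  · rw [e1, pow_succ]
    exact mul_dvd_mul_left _ d1
  · rw [e2, pow_succ]
    exact mul_dvd_mul_left _ d2
  · rw [e3, pow_succ]
    exact mul_dvd_mul_left _ d3

theorem vdot (l n : ℕ) (hl : l.Prime) (w0 w u : V3) (h0 : ¬ Dv (l : ℤ) w0)
    (hc : Dv ((l : ℤ) ^ n) (cr w w0)) (hu : dt u w0 = 0) : (l : ℤ) ^ n ∣ dt u w := by
  obtain ⟨c1, c2, c3⟩ := hc
  simp only [cr] at c1 c2 c3
  simp only [dt] at hu ⊢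
  rcases vcl_some h0 with h | h | h
  · apply vcl_cop l n hl _ _ h
    have e : w0.1 * (u.1 * w.1 + u.2.1 * w.2.1 + u.2.2 * w.2.2)
        = w.1 * (u.1 * w0.1 + u.2.1 * w0.2.1 + u.2.2 * w0.2.2)
          - u.2.1 * (w.1 * w0.2.1 - w.2.1 * w0.1) + u.2.2 * (w.2.2 * w0.1 - w.1 * w0.2.2) := by
      ring
    rw [e, hu, mul_zero, zero_sub]
    exact dvd_add (c3.mul_left _).neg_right (c2.mul_left _)
  · apply vcl_cop l n hl _ _ h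
    have e : w0.2.1 * (u.1 * w.1 + u.2.1 * w.2.1 + u.2.2 * w.2.2)
        = w.2.1 * (u.1 * w0.1 + u.2.1 * w0.2.1 + u.2.2 * w0.2.2)
          + u.1 * (w.1 * w0.2.1 - w.2.1 * w0.1) - u.2.2 * (w.2.1 * w0.2.2 - w.2.2 * w0.2.1) := by
      ring
    rw [e, hu, mul_zero, zero_add]
    exact dvd_sub (c3.mul_left _) (c1.mul_left _)
  · apply vcl_cop l n hl _ _ h
    have e : w0.2.2 * (u.1 * w.1 + u.2.1 * w.2.1 + u.2.2 * w.2.2)
        = w.2.2 * (u.1 * w0.1 + u.2.1 * w0.2.1 + u.2.2 * w0.2.2)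
          - u.1 * (w.2.2 * w0.1 - w.1 * w0.2.2) + u.2.1 * (w.2.1 * w0.2.2 - w.2.2 * w0.2.1) := by
      ring
    rw [e, hu, mul_zero, zero_sub]
    exact dvd_add (c2.mul_left _).neg_right (c1.mul_left _)

theorem vdet (l n : ℕ) (hl : l.Prime) (w0 w w' : V3) (h0 : ¬ Dv (l : ℤ) w0)
    (hc : Dv ((l : ℤ) ^ n) (cr w w0)) (hc' : Dv ((l : ℤ) ^ n) (cr w' w0)) :
    (l : ℤ) ^ (2 * n) ∣ dt (cr w0 w) w' := by
  obtain ⟨c1, c2, c3⟩ := hc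
  obtain ⟨d1, d2, d3⟩ := hc'
  simp only [cr] at c1 c2 c3 d1 d2 d3
  simp only [dt, cr]
  have hp : ∀ a b : ℤ, (l : ℤ) ^ n ∣ a → (l : ℤ) ^ n ∣ b → (l : ℤ) ^ (2 * n) ∣ a * b := by
    intro a b ha hb
    rw [two_mul, pow_add]
    exact mul_dvd_mul ha hb
  rcases vcl_some h0 with h | h | h
  · apply vcl_cop l (2 * n) hl _ _ h
    have e : w0.1 * ((w0.2.1 * w.2.2 - w0.2.2 * w.2.1) * w'.1
          + (w0.2.2 * w.1 - w0.1 * w.2.2) * w'.2.1 + (w0.1 * w.2.1 - w0.2.1 * w.1) * w'.2.2)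
        = (w.2.2 * w0.1 - w.1 * w0.2.2) * (w'.1 * w0.2.1 - w'.2.1 * w0.1)
          - (w.1 * w0.2.1 - w.2.1 * w0.1) * (w'.2.2 * w0.1 - w'.1 * w0.2.2) := by
      ring
    rw [e]
    exact dvd_sub (hp _ _ c2 d3) (hp _ _ c3 d2)
  · apply vcl_cop l (2 * n) hl _ _ h
    have e : w0.2.1 * ((w0.2.1 * w.2.2 - w0.2.2 * w.2.1) * w'.1
          + (w0.2.2 * w.1 - w0.1 * w.2.2) * w'.2.1 + (w0.1 * w.2.1 - w0.2.1 * w.1) * w'.2.2)
        = (w.1 * w0.2.1 - w.2.1 * w0.1) * (w'.2.1 * w0.2.2 - w'.2.2 * w0.2.1)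
          - (w.2.1 * w0.2.2 - w.2.2 * w0.2.1) * (w'.1 * w0.2.1 - w'.2.1 * w0.1) := by
      ring
    rw [e]
    exact dvd_sub (hp _ _ c3 d1) (hp _ _ c1 d3)
  · apply vcl_cop l (2 * n) hl _ _ h
    have e : w0.2.2 * ((w0.2.1 * w.2.2 - w0.2.2 * w.2.1) * w'.1
          + (w0.2.2 * w.1 - w0.1 * w.2.2) * w'.2.1 + (w0.1 * w.2.1 - w0.2.1 * w.1) * w'.2.2)
        = (w.2.1 * w0.2.2 - w.2.2 * w0.2.1) * (w'.2.2 * w0.1 - w'.1 * w0.2.2)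
          - (w.2.2 * w0.1 - w.1 * w0.2.2) * (w'.2.1 * w0.2.2 - w'.2.2 * w0.2.1) := by
      ring
    rw [e]
    exact dvd_sub (hp _ _ c1 d2) (hp _ _ c2 d1)

theorem vdb (l : ℕ) (hl : l.Prime) (u w0 w w' : V3) (h : ¬ Dv (l : ℤ) u)
    (h0 : (l : ℤ) ∣ dt u w0) (h1 : (l : ℤ) ∣ dt u w) (h2 : (l : ℤ) ∣ dt u w') :
    (l : ℤ) ∣ dt (cr w0 w) w' := by
  simp only [dt] at h0 h1 h2
  simp only [dt, cr]
  have hlZ : Prime (l : ℤ) := Nat.prime_iff_prime_int.mp hl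
  rcases vcl_some h with h | h | h
  · refine (hlZ.dvd_or_dvd ?_).resolve_left h
    have e : u.1 * ((w0.2.1 * w.2.2 - w0.2.2 * w.2.1) * w'.1
          + (w0.2.2 * w.1 - w0.1 * w.2.2) * w'.2.1 + (w0.1 * w.2.1 - w0.2.1 * w.1) * w'.2.2)
        = (u.1 * w0.1 + u.2.1 * w0.2.1 + u.2.2 * w0.2.2) * (w.2.1 * w'.2.2 - w.2.2 * w'.2.1)
          + (u.1 * w.1 + u.2.1 * w.2.1 + u.2.2 * w.2.2) * (w'.2.1 * w0.2.2 - w'.2.2 * w0.2.1)
          + (u.1 * w'.1 + u.2.1 * w'.2.1 + u.2.2 * w'.2.2)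
            * (w0.2.1 * w.2.2 - w0.2.2 * w.2.1) := by
      ring
    rw [e]
    exact dvd_add (dvd_add (h0.mul_right _) (h1.mul_right _)) (h2.mul_right _)
  · refine (hlZ.dvd_or_dvd ?_).resolve_left h
    have e : u.2.1 * ((w0.2.1 * w.2.2 - w0.2.2 * w.2.1) * w'.1
          + (w0.2.2 * w.1 - w0.1 * w.2.2) * w'.2.1 + (w0.1 * w.2.1 - w0.2.1 * w.1) * w'.2.2)
        = (u.1 * w0.1 + u.2.1 * w0.2.1 + u.2.2 * w0.2.2) * (w.2.2 * w'.1 - w.1 * w'.2.2)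
          + (u.1 * w.1 + u.2.1 * w.2.1 + u.2.2 * w.2.2) * (w'.2.2 * w0.1 - w'.1 * w0.2.2)
          + (u.1 * w'.1 + u.2.1 * w'.2.1 + u.2.2 * w'.2.2)
            * (w0.2.2 * w.1 - w0.1 * w.2.2) := by
      ring
    rw [e]
    exact dvd_add (dvd_add (h0.mul_right _) (h1.mul_right _)) (h2.mul_right _)
  · refine (hlZ.dvd_or_dvd ?_).resolve_left h
    have e : u.2.2 * ((w0.2.1 * w.2.2 - w0.2.2 * w.2.1) * w'.1
          + (w0.2.2 * w.1 - w0.1 * w.2.2) * w'.2.1 + (w0.1 * w.2.1 - w0.2.1 * w.1) * w'.2.2)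
        = (u.1 * w0.1 + u.2.1 * w0.2.1 + u.2.2 * w0.2.2) * (w.1 * w'.2.1 - w.2.1 * w'.1)
          + (u.1 * w.1 + u.2.1 * w.2.1 + u.2.2 * w.2.2) * (w'.1 * w0.2.1 - w'.2.1 * w0.1)
          + (u.1 * w'.1 + u.2.1 * w'.2.1 + u.2.2 * w'.2.2)
            * (w0.1 * w.2.1 - w0.2.1 * w.1) := by
      ring
    rw [e]
    exact dvd_add (dvd_add (h0.mul_right _) (h1.mul_right _)) (h2.mul_right _)

end Pool.Agent.PPC
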